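import Mathlib

/-!
Almost every line `n ↦ a n * y + β n` meets a set of positive density in windows infinitely often.
-/

set_option autoImplicit false

open MeasureTheory Filter Topology Set Real
open scoped ENNReal

namespace Pool.Agent.R306.AEHit

/-- `G` has density at least `c` in every window of length `δ` far to the right -/
def WinDens (G : Set ℝ) (c : ℝ) : Prop := ∀ δ : ℝ, 0 < δ → ∃ z₀ : ℝ, ∀ z : ℝ, z₀ ≤ z →
  ENNReal.ofReal (c * δ) ≤ volume (G ∩ Ico z (z + δ))

/-- longer windows -/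
lemma long {G : Set ℝ} (hGm : MeasurableSet G) {c : ℝ} {δ z₀ : ℝ} (hδ : 0 < δ) (hc : 0 < c)
    (h : ∀ z : ℝ, z₀ ≤ z → ENNReal.ofReal (c * δ) ≤ volume (G ∩ Ico z (z + δ))) (z : ℝ) (hz : z₀ ≤ z)
    (k : ℕ) : ENNReal.ofReal (c * (k * δ)) ≤ volume (G ∩ Ico z (z + k * δ)) := by
  induction k with
  | zero => simp
  | succ k ih =>
    have e : G ∩ Ico z (z + (k + 1 : ℕ) * δ) = (G ∩ Ico z (z + k * δ)) ∪
        (G ∩ Ico (z + k * δ) (z + k * δ + δ)) := by
      rw [← inter_union_distrib_left, Ico_union_Ico_eq_Ico (by nlinarith [Nat.cast_nonneg (α := ℝ) k])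
        (by linarith)]
      congr 2
      push_cast
      ring
    rw [e, measure_union _ (hGm.inter measurableSet_Ico)]
    · have h2 := h (z + k * δ) (by nlinarith [Nat.cast_nonneg (α := ℝ) k])
      calc ENNReal.ofReal (c * ((k + 1 : ℕ) * δ))
          = ENNReal.ofReal (c * (k * δ)) + ENNReal.ofReal (c * δ) := by
            rw [← ENNReal.ofReal_add (by positivity) (by positivity)]
            congr 1
            push_cast
            ring
        _ ≤ _ := add_le_add ih h2
    · rw [Set.disjoint_left]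
      rintro x ⟨_, h1⟩ ⟨_, h2⟩
      linarith [h1.2, h2.1]

/-- **almost every line meets the set infinitely often** -/
theorem ae_line {a β : ℕ → ℝ} {y₀ : ℝ} (ha : ∀ n, 1 ≤ a n)
    (hinf : ∀ y : ℝ, y₀ < y → Tendsto (fun n => a n * y + β n) atTop atTop)
    {G : Set ℝ} (hGm : MeasurableSet G) {c : ℝ} (hc : 0 < c) (hG : WinDens G c) :
    ∀ᵐ y : ℝ, y₀ < y → ∃ᶠ n in atTop, a n * y + β n ∈ G := by
  have key : ∀ N : ℕ, ∀ᵐ y : ℝ, y₀ < y → ∃ n : ℕ, N ≤ n ∧ a n * y + β n ∈ G := by
    intro N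
    set B : Set ℝ := {y : ℝ | ¬ (y₀ < y → ∃ n : ℕ, N ≤ n ∧ a n * y + β n ∈ G)} with hB
    rw [ae_iff]
    change volume B = 0
    by_contra hne
    have hBpos : B ⊆ Ioi y₀ := by
      intro y hy
      have h1 : ¬ (y₀ < y → ∃ n : ℕ, N ≤ n ∧ a n * y + β n ∈ G) := hy
      push Not at h1
      exact h1.1
    have hd := Besicovitch.ae_tendsto_measure_inter_div (volume : Measure ℝ) B
    have hpos : ∀ᵐ x ∂(volume.restrict B), y₀ < x := by
      have h1 : ∀ᵐ x ∂(volume.restrict (Ioi y₀)), x ∈ Ioi y₀ := ae_restrict_mem measurableSet_Ioi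
      exact ae_mono (Measure.restrict_mono hBpos le_rfl) h1
    have hex : ∃ x : ℝ, y₀ < x ∧ Tendsto (fun r => volume (B ∩ Metric.closedBall x r) /
        volume (Metric.closedBall x r)) (𝓝[>] 0) (𝓝 1) := by
      have h2 := hpos.and hd
      have : (ae (volume.restrict B)).NeBot := by
        rw [ae_neBot]
        intro h0
        exact hne (by simpa using congrArg (fun μ : Measure ℝ => μ univ) h0)
      exact h2.exists
    obtain ⟨x, hx0, hlim⟩ := hex
    have hle : ∀ᶠ r in 𝓝[>] (0 : ℝ), volume (B ∩ Metric.closedBall x r) /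
        volume (Metric.closedBall x r) ≤ ENNReal.ofReal (1 - c / 2) := by
      have hev : ∀ᶠ r in 𝓝[>] (0 : ℝ), r ≤ (x - y₀) / 2 := by
        filter_upwards [Ioc_mem_nhdsGT (show (0 : ℝ) < (x - y₀) / 2 by linarith)] with r hr
        exact hr.2
      filter_upwards [hev, self_mem_nhdsWithin] with r hr1 hr0
      have hr0 : 0 < r := hr0
      obtain ⟨z₀, hz₀⟩ := hG (2 * r) (by linarith)
      obtain ⟨n, hn, hnN⟩ := (((hinf (x - r) (by linarith)).eventually_ge_atTop z₀).and
        (eventually_ge_atTop N)).exists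
      have han : 1 ≤ a n := ha n
      have han0 : 0 < a n := by linarith
      set k : ℕ := ⌊a n⌋₊ with hk
      have hk1 : (k : ℝ) ≤ a n := Nat.floor_le han0.le
      have hk2 : a n < k + 1 := Nat.lt_floor_add_one _
      have hk3 : 1 ≤ k := by
        rw [hk]
        exact (Nat.one_le_floor_iff _).2 han
      have hk4 : (1:ℝ) ≤ k := by exact_mod_cast hk3
      have hL := long hGm (by linarith : (0:ℝ) < 2 * r) hc hz₀ (a n * (x - r) + β n) hn k
      set W : Set ℝ := G ∩ Ico (a n * (x - r) + β n) (a n * (x - r) + β n + k * (2 * r)) with hW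
      have hWm : MeasurableSet W := hGm.inter measurableSet_Ico
      set V : Set ℝ := {y : ℝ | y * a n + β n ∈ W} with hV
      have hVm : MeasurableSet V := by
        have : V = (fun y : ℝ => y * a n + β n) ⁻¹' W := rfl
        rw [this]
        exact hWm.preimage (by fun_prop)
      have hVv : volume V = ENNReal.ofReal (1 / a n) * volume W := by
        have e : V = (fun α : ℝ => α * a n) ⁻¹' ((fun x : ℝ => x + β n) ⁻¹' W) := by
          ext α; simp [hV]
        rw [e, Real.volume_preimage_mul_right han0.ne', measure_preimage_add_right,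
          abs_of_pos (inv_pos.2 han0), one_div]
      have hVs : V ⊆ Metric.closedBall x r := by
        intro y hy
        have hy1 : y * a n + β n ∈ W := hy
        obtain ⟨_, h2, h3⟩ := hy1
        rw [Real.closedBall_eq_Icc]
        constructor
        · have : a n * (x - r) ≤ y * a n := by linarith
          nlinarith
        · have h4 : y * a n ≤ a n * (x - r) + a n * (2 * r) := by nlinarith
          nlinarith
      have hVlow : ENNReal.ofReal (c * r) ≤ volume V := by
        rw [hVv]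
        calc ENNReal.ofReal (c * r) ≤ ENNReal.ofReal (1 / a n * (c * (k * (2 * r)))) := by
              apply ENNReal.ofReal_le_ofReal
              rw [div_mul_eq_mul_div, one_mul, le_div_iff₀ han0]
              have : a n ≤ k * 2 := by linarith
              calc c * r * a n ≤ c * r * (k * 2) := by
                    apply mul_le_mul_of_nonneg_left this (by positivity)
                _ = c * (k * (2 * r)) := by ring
          _ = ENNReal.ofReal (1 / a n) * ENNReal.ofReal (c * (k * (2 * r))) :=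
              ENNReal.ofReal_mul (by positivity)
          _ ≤ _ := by gcongr
      have hsub : B ∩ Metric.closedBall x r ⊆ Metric.closedBall x r \ V := by
        rintro y ⟨h1, h2⟩
        refine ⟨h2, fun h3 => h1 fun _ => ⟨n, hnN, ?_⟩⟩
        have h4 : y * a n + β n ∈ W := h3
        rw [mul_comm]
        exact h4.1
      have hvb : volume (Metric.closedBall x r) = ENNReal.ofReal (2 * r) := Real.volume_closedBall x r
      have h4 : volume (B ∩ Metric.closedBall x r) ≤ ENNReal.ofReal (2 * r - c * r) := by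
        refine (measure_mono hsub).trans ?_
        rw [measure_sdiff hVs hVm.nullMeasurableSet
          (ne_top_of_le_ne_top (by rw [hvb]; exact ENNReal.ofReal_ne_top) (measure_mono hVs)),
          hvb, ENNReal.ofReal_sub _ (by positivity)]
        exact tsub_le_tsub_left hVlow _
      rw [hvb]
      refine ENNReal.div_le_of_le_mul ?_
      refine h4.trans ?_
      rw [← ENNReal.ofReal_mul' (by positivity)]
      apply ENNReal.ofReal_le_ofReal
      apply le_of_eq
      ring
    have h5 : (1 : ENNReal) ≤ ENNReal.ofReal (1 - c / 2) := le_of_tendsto hlim hle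
    have h6 : ENNReal.ofReal (1 - c / 2) < 1 := by
      rw [← ENNReal.ofReal_one]
      exact (ENNReal.ofReal_lt_ofReal_iff one_pos).2 (by linarith)
    exact absurd h5 (not_le.2 h6)
  have key2 : ∀ᵐ y : ℝ, ∀ N : ℕ, y₀ < y → ∃ n : ℕ, N ≤ n ∧ a n * y + β n ∈ G := ae_all_iff.2 key
  filter_upwards [key2] with y hy hy0
  rw [frequently_atTop]
  intro N
  obtain ⟨n, hn, h⟩ := hy N hy0
  exact ⟨n, hn, h⟩

open Classical in
/-- density of a set all of whose translates are met by the integers with an asymptotic frequency -/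
theorem dens_of_shifts {H : Set ℝ} (hH : MeasurableSet H)
    (h : ∀ β ∈ Ioo (0:ℝ) 1, ∃ p : ℝ, 0 < p ∧ ∀ η : ℝ, 0 < η → ∃ N₀ : ℕ, ∀ N : ℕ, N₀ ≤ N → ∀ k : ℕ,
      (k : ℝ) ^ (3 / 4 : ℝ) ≤ N →
      |(((Finset.Ico k (k + N)).filter (fun n : ℕ => (n : ℝ) + β ∈ H)).card : ℝ) / N - p| ≤ η) :
    ∃ c : ℝ, 0 < c ∧ ∀ δ : ℝ, 0 < δ → ∃ X₀ : ℝ, ∀ X : ℝ, X₀ ≤ X →
      ENNReal.ofReal (c * δ * X) ≤ volume (H ∩ Ico X ((1 + δ) * X)) := by
  set g : ℕ → ℕ → ℝ → ℝ≥0∞ := fun k N β =>
    ENNReal.ofReal ((((Finset.Ico k (k + N)).filter (fun n : ℕ => (n : ℝ) + β ∈ H)).card : ℝ) / N)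
    with hg
  have hgm : ∀ k N, Measurable (g k N) := by
    intro k N
    rw [hg]
    dsimp only
    apply Measurable.ennreal_ofReal
    apply Measurable.div_const
    have e : (fun β : ℝ => (((Finset.Ico k (k + N)).filter (fun n : ℕ => (n : ℝ) + β ∈ H)).card : ℝ)) =
        fun β : ℝ => ∑ n ∈ Finset.Ico k (k + N), (H.indicator (1 : ℝ → ℝ)) ((n : ℝ) + β) := by
      funext β
      rw [Finset.card_filter]
      push_cast
      apply Finset.sum_congr rfl
      intro n _
      rw [Set.indicator_apply]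
      rfl
    rw [e]
    apply Finset.measurable_sum
    intro n _
    exact (measurable_one.indicator hH).comp (by fun_prop)
  set m : ℝ → ℝ≥0∞ := fun β => liminf (fun N => g 0 N β) atTop with hm
  have hmm : Measurable m := Measurable.liminf fun N => hgm 0 N
  -- convergence along all admissible sequences
  have hconv : ∀ β ∈ Ioo (0:ℝ) 1, ∀ (k N : ℕ → ℕ), Tendsto N atTop atTop →
      (∀ᶠ j in atTop, ((k j : ℕ) : ℝ) ^ (3 / 4 : ℝ) ≤ N j) →
      ∃ p : ℝ, 0 < p ∧ Tendsto (fun j => g (k j) (N j) β) atTop (𝓝 (ENNReal.ofReal p)) ∧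
        m β = ENNReal.ofReal p := by
    intro β hβ k N hN hkN
    obtain ⟨p, hp, hη⟩ := h β hβ
    have hgen : ∀ (k' N' : ℕ → ℕ), Tendsto N' atTop atTop →
        (∀ᶠ j in atTop, ((k' j : ℕ) : ℝ) ^ (3 / 4 : ℝ) ≤ N' j) →
        Tendsto (fun j => g (k' j) (N' j) β) atTop (𝓝 (ENNReal.ofReal p)) := by
      intro k' N' hN' hkN'
      apply (ENNReal.continuous_ofReal.tendsto p).comp
      rw [Metric.tendsto_atTop]
      intro ε hε
      obtain ⟨N₀, hN₀⟩ := hη (ε / 2) (by linarith)
      obtain ⟨j₀, hj₀⟩ := eventually_atTop.1 ((hN'.eventually_ge_atTop N₀).and hkN')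
      refine ⟨j₀, fun j hj => ?_⟩
      obtain ⟨h1, h2⟩ := hj₀ j hj
      rw [Real.dist_eq]
      exact (hN₀ (N' j) h1 (k' j) h2).trans_lt (by linarith)
    refine ⟨p, hp, hgen k N hN hkN, ?_⟩
    have h0 := hgen (fun _ => 0) (fun j => j) tendsto_id (Eventually.of_forall fun j => by
      rw [Nat.cast_zero, Real.zero_rpow (by norm_num)]; positivity)
    exact h0.liminf_eq
  have hcpos : 0 < ∫⁻ β in Ioo (0:ℝ) 1, m β := by
    rw [setLIntegral_pos_iff hmm]
    have hsub : Ioo (0:ℝ) 1 ⊆ Function.support m ∩ Ioo (0:ℝ) 1 := by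
      intro β hβ
      refine ⟨?_, hβ⟩
      obtain ⟨p, hp, _, h2⟩ := hconv β hβ (fun _ => 0) (fun j => j) tendsto_id
        (Eventually.of_forall fun j => by
          rw [Nat.cast_zero, Real.zero_rpow (by norm_num)]; positivity)
      rw [Function.mem_support, h2]
      exact (ENNReal.ofReal_pos.2 hp).ne'
    refine lt_of_lt_of_le ?_ (measure_mono hsub)
    rw [Real.volume_Ioo]
    simp
  obtain ⟨c, hc0, hc1⟩ : ∃ c : ℝ, 0 < c ∧ ENNReal.ofReal (2 * c) < ∫⁻ β in Ioo (0:ℝ) 1, m β := by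
    obtain ⟨q, hq0, hq1⟩ := exists_between hcpos
    have hq : q ≠ ∞ := hq1.ne_top
    refine ⟨q.toReal / 2, by have := ENNReal.toReal_pos hq0.ne' hq; linarith, ?_⟩
    rw [mul_div_cancel₀ _ (two_ne_zero), ENNReal.ofReal_toReal hq]
    exact hq1
  refine ⟨c, hc0, fun δ hδ => ?_⟩
  by_contra hcon
  push Not at hcon
  choose X hX hXv using fun j : ℕ => hcon (j + 1 + 8 / δ)
  set k : ℕ → ℕ := fun j => ⌈X j⌉₊ with hk
  set N : ℕ → ℕ := fun j => ⌊δ * X j⌋₊ - 1 with hN
  have hXinf : Tendsto X atTop atTop := by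
    refine tendsto_atTop_mono (fun j => ?_) tendsto_natCast_atTop_atTop
    have : 0 < 8 / δ := by positivity
    linarith [hX j]
  have hXpos : ∀ j, 1 ≤ X j ∧ 8 ≤ δ * X j := by
    intro j
    have h1 := hX j
    have h2 : 0 < 8 / δ := by positivity
    have h3 : (0:ℝ) ≤ j := Nat.cast_nonneg j
    refine ⟨by linarith, ?_⟩
    have h4 : 8 / δ ≤ X j := by linarith
    rw [div_le_iff₀ hδ] at h4
    linarith
  have hNlow : ∀ j, δ * X j / 2 ≤ (N j : ℝ) ∧ (N j : ℝ) + 1 ≤ δ * X j := by
    intro j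
    obtain ⟨h1, h2⟩ := hXpos j
    have h3 := Nat.lt_floor_add_one (δ * X j)
    have h4 := Nat.floor_le (show 0 ≤ δ * X j by linarith)
    have h5 : 1 ≤ ⌊δ * X j⌋₊ := (Nat.one_le_floor_iff _).2 (by linarith)
    have h6 : ((N j : ℕ) : ℝ) = (⌊δ * X j⌋₊ : ℝ) - 1 := by
      rw [hN]
      dsimp only
      push_cast [h5]
      ring
    rw [h6]
    constructor <;> linarith
  have hNinf : Tendsto N atTop atTop := by
    rw [← tendsto_natCast_atTop_iff (R := ℝ)]
    refine tendsto_atTop_mono (fun j => (hNlow j).1) ?_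
    exact (hXinf.const_mul_atTop hδ).atTop_div_const (by norm_num)
  have hkN : ∀ᶠ j in atTop, ((k j : ℕ) : ℝ) ^ (3 / 4 : ℝ) ≤ N j := by
    -- `(2 X) ^ (3/4) ≤ δ X / 2` for large `X`
    have h1 : ∀ᶠ x : ℝ in atTop, (2 * x) ^ (3 / 4 : ℝ) ≤ δ * x / 2 := by
      have h2 : Tendsto (fun x : ℝ => x ^ (1 / 4 : ℝ)) atTop atTop := tendsto_rpow_atTop (by norm_num)
      filter_upwards [h2.eventually_ge_atTop (2 * 2 ^ (3 / 4 : ℝ) / δ), eventually_gt_atTop 0] with x hx hx0
      rw [div_le_iff₀ hδ] at hx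
      have e1 : x = x ^ (1 / 4 : ℝ) * x ^ (3 / 4 : ℝ) := by
        rw [← Real.rpow_add hx0]; norm_num
      rw [Real.mul_rpow (by norm_num) hx0.le]
      have h3 : 0 < x ^ (3 / 4 : ℝ) := Real.rpow_pos_of_pos hx0 _
      calc (2:ℝ) ^ (3 / 4 : ℝ) * x ^ (3 / 4 : ℝ) ≤ (x ^ (1 / 4 : ℝ) * δ / 2) * x ^ (3 / 4 : ℝ) := by
            apply mul_le_mul_of_nonneg_right _ h3.le
            linarith
        _ = δ * (x ^ (1 / 4 : ℝ) * x ^ (3 / 4 : ℝ)) / 2 := by ring
        _ = δ * x / 2 := by rw [← e1]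
    filter_upwards [hXinf.eventually h1] with j hj
    have h2 : (k j : ℝ) ≤ 2 * X j := by
      have := Nat.ceil_lt_add_one (show 0 ≤ X j by linarith [(hXpos j).1])
      rw [hk]
      dsimp only
      linarith [(hXpos j).1]
    exact (Real.rpow_le_rpow (by positivity) h2 (by norm_num)).trans (hj.trans (hNlow j).1)
  -- Fatou
  have hF : ∫⁻ β in Ioo (0:ℝ) 1, liminf (fun j => g (k j) (N j) β) atTop ≤
      liminf (fun j => ∫⁻ β in Ioo (0:ℝ) 1, g (k j) (N j) β) atTop :=
    lintegral_liminf_le fun j => hgm (k j) (N j)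
  have hF2 : ∫⁻ β in Ioo (0:ℝ) 1, m β = ∫⁻ β in Ioo (0:ℝ) 1, liminf (fun j => g (k j) (N j) β) atTop := by
    apply setLIntegral_congr_fun measurableSet_Ioo
    intro β hβ
    obtain ⟨p, _, h1, h2⟩ := hconv β hβ k N hNinf hkN
    dsimp only
    rw [h2, h1.liminf_eq]
  have hup : ∀ j, ∫⁻ β in Ioo (0:ℝ) 1, g (k j) (N j) β ≤ ENNReal.ofReal (2 * c) := by
    intro j
    obtain ⟨h1, h2⟩ := hXpos j
    obtain ⟨h3, h4⟩ := hNlow j
    have hNj : (0:ℝ) < N j := by linarith
    have e1 : ∀ β, g (k j) (N j) β = ENNReal.ofReal (1 / N j) *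
        ∑ n ∈ Finset.Ico (k j) (k j + N j), (H.indicator (1 : ℝ → ℝ≥0∞)) ((n : ℝ) + β) := by
      intro β
      rw [hg]
      dsimp only
      rw [div_eq_mul_one_div, mul_comm, ENNReal.ofReal_mul (by positivity)]
      congr 1
      rw [ENNReal.ofReal_natCast, Finset.card_filter]
      push_cast
      apply Finset.sum_congr rfl
      intro n _
      rw [Set.indicator_apply]
      rfl
    have hind : ∀ n : ℕ, Measurable fun β : ℝ => (H.indicator (1 : ℝ → ℝ≥0∞)) ((n : ℝ) + β) :=
      fun n => (measurable_one.indicator hH).comp (by fun_prop)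
    simp only [e1]
    rw [lintegral_const_mul _ (Finset.measurable_sum _ fun n _ => hind n),
      lintegral_finset_sum _ fun n _ => hind n]
    have e2 : ∀ n : ℕ, ∫⁻ β in Ioo (0:ℝ) 1, (H.indicator (1 : ℝ → ℝ≥0∞)) ((n : ℝ) + β) =
        volume (H ∩ Ioo (n : ℝ) (n + 1)) := by
      intro n
      have e3 : ∀ β : ℝ, (H.indicator (1 : ℝ → ℝ≥0∞)) ((n : ℝ) + β) =
          ({β : ℝ | (n : ℝ) + β ∈ H}).indicator 1 β := by
        intro β
        rw [Set.indicator_apply, Set.indicator_apply]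
        rfl
      simp only [e3]
      have hms : MeasurableSet {β : ℝ | (n : ℝ) + β ∈ H} := by
        have : {β : ℝ | (n : ℝ) + β ∈ H} = (fun β : ℝ => (n : ℝ) + β) ⁻¹' H := rfl
        rw [this]
        exact hH.preimage (by fun_prop)
      rw [lintegral_indicator_one hms, Measure.restrict_apply hms]
      have e4 : {β : ℝ | (n : ℝ) + β ∈ H} ∩ Ioo (0:ℝ) 1 =
          (fun β : ℝ => (n : ℝ) + β) ⁻¹' (H ∩ Ioo (n : ℝ) (n + 1)) := by
        ext β
        simp only [mem_inter_iff, mem_Ioo, mem_preimage]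
        constructor
        · rintro ⟨q1, q2, q3⟩
          exact ⟨q1, by linarith, by linarith⟩
        · rintro ⟨q1, q2, q3⟩
          exact ⟨q1, by linarith, by linarith⟩
      rw [e4, measure_preimage_add]
    simp only [e2]
    have h5 : ∑ n ∈ Finset.Ico (k j) (k j + N j), volume (H ∩ Ioo (n : ℝ) (n + 1)) ≤
        volume (H ∩ Ico (X j) ((1 + δ) * X j)) := by
      rw [← measure_biUnion_finset]
      · apply measure_mono
        intro x hx
        simp only [mem_iUnion] at hx
        obtain ⟨n, hn, hx⟩ := hx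
        rw [Finset.mem_Ico] at hn
        refine ⟨hx.1, ?_, ?_⟩
        · have q1 : X j ≤ k j := Nat.le_ceil _
          have q2 : ((k j : ℕ) : ℝ) ≤ n := by exact_mod_cast hn.1
          linarith [hx.2.1]
        · have q1 : ((k j : ℕ) : ℝ) < X j + 1 := Nat.ceil_lt_add_one (by linarith)
          have q2 : (n : ℝ) + 1 ≤ (k j : ℝ) + N j := by exact_mod_cast hn.2
          linarith [hx.2.2]
      · intro x hx y hy hxy
        rw [Function.onFun, Set.disjoint_left]
        rintro z ⟨_, z1⟩ ⟨_, z2⟩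
        rcases lt_or_gt_of_ne hxy with h6 | h6
        · have : (x : ℝ) + 1 ≤ y := by exact_mod_cast h6
          linarith [z1.2, z2.1]
        · have : (y : ℝ) + 1 ≤ x := by exact_mod_cast h6
          linarith [z2.2, z1.1]
      · intro n _
        exact hH.inter measurableSet_Ioo
    calc ENNReal.ofReal (1 / N j) * ∑ n ∈ Finset.Ico (k j) (k j + N j), volume (H ∩ Ioo (n : ℝ) (n + 1))
        ≤ ENNReal.ofReal (1 / N j) * ENNReal.ofReal (c * δ * X j) := by
          gcongr
          exact h5.trans (hXv j).le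
      _ = ENNReal.ofReal (1 / N j * (c * δ * X j)) := (ENNReal.ofReal_mul (by positivity)).symm
      _ ≤ ENNReal.ofReal (2 * c) := by
          apply ENNReal.ofReal_le_ofReal
          rw [div_mul_eq_mul_div, one_mul, div_le_iff₀ hNj]
          nlinarith
  have h7 : liminf (fun j => ∫⁻ β in Ioo (0:ℝ) 1, g (k j) (N j) β) atTop ≤ ENNReal.ofReal (2 * c) := by
    refine liminf_le_of_frequently_le' (Frequently.of_forall hup)
  rw [hF2] at hc1
  exact absurd (hF.trans h7) (not_le.2 hc1)

/-- from multiplicative windows to additive windows of the logarithm -/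
theorem winDens_log {H : Set ℝ} (hH : MeasurableSet H) {c : ℝ} (hc : 0 < c)
    (h : ∀ δ : ℝ, 0 < δ → ∃ X₀ : ℝ, ∀ X : ℝ, X₀ ≤ X →
      ENNReal.ofReal (c * δ * X) ≤ volume (H ∩ Ico X ((1 + δ) * X))) :
    WinDens {z : ℝ | Real.exp z ∈ H} (c / 3) := by
  -- windows of length at most one
  have small : ∀ δ : ℝ, 0 < δ → δ ≤ 1 → ∃ z₀ : ℝ, ∀ z : ℝ, z₀ ≤ z →
      ENNReal.ofReal (c / 3 * δ) ≤ volume ({z : ℝ | Real.exp z ∈ H} ∩ Ico z (z + δ)) := by
    intro δ hδ hδ1
    obtain ⟨X₀, hX₀⟩ := h (Real.exp δ - 1) (by linarith [Real.add_one_le_exp δ])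
    refine ⟨Real.log (max X₀ 1), fun z hz => ?_⟩
    have hX : X₀ ≤ Real.exp z := by
      rw [Real.log_le_iff_le_exp (lt_of_lt_of_le one_pos (le_max_right _ _))] at hz
      exact (le_max_left _ _).trans hz
    have h1 := hX₀ (Real.exp z) hX
    set B : Set ℝ := {z : ℝ | Real.exp z ∈ H} ∩ Ico z (z + δ) with hB
    have himg : H ∩ Ico (Real.exp z) ((1 + (Real.exp δ - 1)) * Real.exp z) ⊆ Real.exp '' B := by
      rintro x ⟨hx1, hx2, hx3⟩
      have hx0 : 0 < x := lt_of_lt_of_le (Real.exp_pos z) hx2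
      refine ⟨Real.log x, ⟨?_, ?_, ?_⟩, Real.exp_log hx0⟩
      · change Real.exp (Real.log x) ∈ H
        rw [Real.exp_log hx0]; exact hx1
      · rwa [Real.le_log_iff_exp_le hx0]
      · rw [Real.log_lt_iff_lt_exp hx0, Real.exp_add]
        calc x < (1 + (Real.exp δ - 1)) * Real.exp z := hx3
          _ = Real.exp z * Real.exp δ := by ring
    have hL : LipschitzOnWith (Real.toNNReal (Real.exp (z + δ))) Real.exp B := by
      apply LipschitzOnWith.of_dist_le_mul
      intro x hx y hy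
      rw [Real.coe_toNNReal _ (Real.exp_pos _).le, Real.dist_eq, Real.dist_eq]
      have hgen : ∀ x y : ℝ, x ≤ y → y ≤ z + δ → Real.exp y - Real.exp x ≤
          Real.exp (z + δ) * (y - x) := by
        intro x y hxy hy
        have q1 := Real.add_one_le_exp (x - y)
        have q2 : Real.exp x = Real.exp y * Real.exp (x - y) := by
          rw [← Real.exp_add]; congr 1; ring
        have q3 : Real.exp y ≤ Real.exp (z + δ) := Real.exp_le_exp.2 hy
        calc Real.exp y - Real.exp x = Real.exp y * (1 - Real.exp (x - y)) := by rw [q2]; ring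
          _ ≤ Real.exp y * (y - x) := by
              apply mul_le_mul_of_nonneg_left _ (Real.exp_pos _).le
              linarith
          _ ≤ _ := mul_le_mul_of_nonneg_right q3 (by linarith)
      rcases le_total x y with hxy | hxy
      · rw [abs_sub_comm, abs_of_nonneg (by linarith [Real.exp_le_exp.2 hxy]), abs_sub_comm,
          abs_of_nonneg (by linarith)]
        exact hgen x y hxy hy.2.2.le
      · rw [abs_of_nonneg (by linarith [Real.exp_le_exp.2 hxy]), abs_of_nonneg (by linarith)]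
        exact hgen y x hxy hx.2.2.le
    have h2 : volume (Real.exp '' B) ≤ ENNReal.ofReal (Real.exp (z + δ)) * volume B := by
      have h3 := hL.hausdorffMeasure_image_le (d := 1) zero_le_one
      rw [MeasureTheory.hausdorffMeasure_real] at h3
      refine h3.trans (le_of_eq ?_)
      rw [ENNReal.rpow_one]
      rfl
    have h4 : ENNReal.ofReal (c * (Real.exp δ - 1) * Real.exp z) ≤
        ENNReal.ofReal (Real.exp (z + δ)) * volume B := h1.trans ((measure_mono himg).trans h2)
    have hpos : 0 < Real.exp (z + δ) := Real.exp_pos _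
    have h5 : ENNReal.ofReal (c * (Real.exp δ - 1) * Real.exp z) / ENNReal.ofReal (Real.exp (z + δ)) ≤
        volume B := by
      rw [ENNReal.div_le_iff_le_mul (Or.inl (ENNReal.ofReal_pos.2 hpos).ne')
        (Or.inl ENNReal.ofReal_ne_top), mul_comm (volume B)]
      exact h4
    refine le_trans ?_ h5
    rw [← ENNReal.ofReal_div_of_pos hpos]
    apply ENNReal.ofReal_le_ofReal
    rw [le_div_iff₀ hpos, Real.exp_add]
    have q1 := Real.add_one_le_exp δ
    have q2 : Real.exp δ ≤ 3 := by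
      have := Real.exp_le_exp.2 hδ1
      linarith [Real.exp_one_lt_d9]
    have q3 := Real.exp_pos z
    have q4 : δ * Real.exp δ ≤ 3 * (Real.exp δ - 1) := by nlinarith
    calc c / 3 * δ * (Real.exp z * Real.exp δ) = c / 3 * Real.exp z * (δ * Real.exp δ) := by ring
      _ ≤ c / 3 * Real.exp z * (3 * (Real.exp δ - 1)) := by
          apply mul_le_mul_of_nonneg_left q4 (by positivity)
      _ = c * (Real.exp δ - 1) * Real.exp z := by ring
  intro δ hδ
  have hk1 : 1 ≤ ⌈δ⌉₊ := Nat.one_le_ceil_iff.2 hδ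
  have hk0 : (0:ℝ) < ⌈δ⌉₊ := by exact_mod_cast hk1
  obtain ⟨z₀, hz₀⟩ := small (δ / ⌈δ⌉₊) (by positivity) ((div_le_one hk0).2 (Nat.le_ceil δ))
  refine ⟨z₀, fun z hz => ?_⟩
  have hG : MeasurableSet {z : ℝ | Real.exp z ∈ H} := hH.preimage Real.measurable_exp
  have h1 := long hG (by positivity) (by positivity) hz₀ z hz ⌈δ⌉₊
  rw [mul_div_cancel₀ _ hk0.ne'] at h1
  exact h1

end Pool.Agent.R306.AEHit
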