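import Mathlib

/-!
Families of points `b n * α ^ (a n)` and the sets they meet, for generic `α`.
-/

set_option autoImplicit false

open MeasureTheory Filter Topology Set Real

namespace Pool.Agent.R306.CatHit

/-- the family of points -/
noncomputable def pt (a b : ℕ → ℝ) (n : ℕ) (α : ℝ) : ℝ := b n * α ^ (a n)

/-- abstract form: generic parameters meet every open unbounded set infinitely often -/
theorem residual_hits {α₀ : ℝ} (R : ℕ → ℝ → ℝ) (hc : ∀ n, ContinuousOn (R n) (Ioi α₀))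
    (hreach : ∀ u v : ℝ, α₀ ≤ u → u < v → ∀ N : ℕ, ∃ t₀ : ℝ, ∀ t : ℝ, t₀ ≤ t →
      ∃ n : ℕ, N ≤ n ∧ ∃ x ∈ Ioo u v, R n x = t)
    {Q : Set ℝ} (hQo : IsOpen Q) (hQ : ∃ᶠ t in atTop, t ∈ Q) :
    ∀ᶠ α in residual ℝ, α₀ < α → ∃ᶠ n in atTop, R n α ∈ Q := by
  have key : ∀ᶠ α in residual ℝ, ∀ N : ℕ, α₀ < α → ∃ n : ℕ, N ≤ n ∧ R n α ∈ Q := by
    rw [eventually_countable_forall]
    intro N
    set D : Set ℝ := Iio α₀ ∪ ⋃ n : ℕ, ⋃ (_ : N ≤ n), (Ioi α₀ ∩ (R n) ⁻¹' Q) with hD
    have hDo : IsOpen D := by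
      refine isOpen_Iio.union (isOpen_iUnion fun n => isOpen_iUnion fun _ => ?_)
      exact (hc n).isOpen_inter_preimage isOpen_Ioi hQo
    have hDd : Dense D := by
      rw [dense_iff_inter_open]
      intro O hO hne
      obtain ⟨x, hx⟩ := hne
      obtain ⟨r, hr, hball⟩ := Metric.isOpen_iff.1 hO x hx
      rcases lt_or_ge x α₀ with hx1 | hx1
      · exact ⟨x, hx, Or.inl hx1⟩
      · obtain ⟨t₀, ht₀⟩ := hreach x (x + r) hx1 (by linarith) N
        obtain ⟨t, ht, htQ⟩ := frequently_atTop.1 hQ t₀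
        obtain ⟨n, hn, y, hy, hyt⟩ := ht₀ t ht
        refine ⟨y, hball ?_, Or.inr ?_⟩
        · rw [Metric.mem_ball, Real.dist_eq, abs_of_pos (by linarith [hy.1])]
          linarith [hy.2]
        · rw [mem_iUnion]
          refine ⟨n, ?_⟩
          rw [mem_iUnion]
          refine ⟨hn, lt_of_le_of_lt hx1 hy.1, ?_⟩
          change R n y ∈ Q
          rw [hyt]
          exact htQ
    have hres : D ∈ residual ℝ := residual_of_dense_open hDo hDd
    filter_upwards [hres] with α hα hα1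
    rcases hα with h1 | h2
    · exact absurd hα1 (not_lt.2 (le_of_lt h1))
    · rw [mem_iUnion] at h2
      obtain ⟨n, h3⟩ := h2
      rw [mem_iUnion] at h3
      obtain ⟨hn, _, h4⟩ := h3
      exact ⟨n, hn, h4⟩
  filter_upwards [key] with α hα hα0
  rw [frequently_atTop]
  intro N
  obtain ⟨n, hn, h⟩ := hα N hα0
  exact ⟨n, hn, h⟩

/-- continuity of the points -/
lemma pt_cont {a b : ℕ → ℝ} {α₀ : ℝ} (h0 : 0 ≤ α₀) (n : ℕ) :
    ContinuousOn (pt a b n) (Ioi α₀) := by
  unfold pt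
  apply continuousOn_const.mul
  apply ContinuousOn.rpow_const continuousOn_id
  intro x hx
  left
  have : α₀ < x := hx
  change x ≠ 0
  intro h
  rw [h] at this
  linarith

/-- the points reach everything -/
lemma pt_reach {a b : ℕ → ℝ} {α₀ : ℝ} (h0 : 0 ≤ α₀) (ha : ∀ n, 0 < a n) (hb : ∀ n, 0 < b n)
    (har : Tendsto (fun n => a (n + 1) / a n) atTop (𝓝 1))
    (hbr : Tendsto (fun n => (Real.log (b (n + 1)) - Real.log (b n)) / a n) atTop (𝓝 0))
    (hinf : ∀ α : ℝ, α₀ < α → Tendsto (fun n => pt a b n α) atTop atTop)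
    (u v : ℝ) (hu : α₀ ≤ u) (huv : u < v) (N : ℕ) :
    ∃ t₀ : ℝ, ∀ t : ℝ, t₀ ≤ t → ∃ n : ℕ, N ≤ n ∧ ∃ x ∈ Ioo u v, pt a b n x = t := by
  obtain ⟨u', h1, h2⟩ := exists_between huv
  have hu0 : 0 < u' := by linarith
  have hv0 : 0 < v := by linarith
  have hlog : Real.log u' < Real.log v := Real.log_lt_log hu0 h2
  -- eventually the right end of one interval is beyond the left end of the next one
  have hlim : Tendsto (fun n => (Real.log (b (n + 1)) - Real.log (b n)) / a n +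
      (a (n + 1) / a n - 1) * Real.log u') atTop (𝓝 (0 + (1 - 1) * Real.log u')) :=
    hbr.add ((har.sub_const 1).mul_const _)
  have hpos : (0 : ℝ) + (1 - 1) * Real.log u' < Real.log v - Real.log u' := by linarith
  have hev := hlim.eventually (gt_mem_nhds hpos)
  obtain ⟨n₀, hn₀⟩ := eventually_atTop.1 hev
  have hstep : ∀ n : ℕ, n₀ ≤ n → pt a b (n + 1) u' < pt a b n v := by
    intro n hn
    have h3 := hn₀ n hn
    have han := ha n
    have h4 : (Real.log (b (n + 1)) - Real.log (b n)) + (a (n + 1) - a n) * Real.log u' <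
        a n * (Real.log v - Real.log u') := by
      have h5 := mul_lt_mul_of_pos_left h3 han
      have e1 : a n * ((Real.log (b (n + 1)) - Real.log (b n)) / a n +
          (a (n + 1) / a n - 1) * Real.log u') =
          (Real.log (b (n + 1)) - Real.log (b n)) + (a (n + 1) - a n) * Real.log u' := by
        field_simp
      rw [e1] at h5
      exact h5
    unfold pt
    rw [← Real.exp_log (hb (n + 1)), ← Real.exp_log (hb n), Real.rpow_def_of_pos hu0,
      Real.rpow_def_of_pos hv0, ← Real.exp_add, ← Real.exp_add]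
    apply Real.exp_lt_exp.2
    nlinarith
  set M : ℕ := max n₀ N with hM
  refine ⟨pt a b M u', fun t ht => ?_⟩
  have hpt : ∀ n x, 0 < x → 0 < pt a b n x := fun n x hx =>
    mul_pos (hb n) (Real.rpow_pos_of_pos hx _)
  have ht0 : 0 < t := (hpt M u' hu0).trans_le ht
  have hex : ∃ m : ℕ, M ≤ m ∧ t < pt a b (m + 1) u' := by
    have h3 : ∀ᶠ n in atTop, t < pt a b (n + 1) u' :=
      ((tendsto_add_atTop_iff_nat 1).2 (hinf u' (by linarith))).eventually_gt_atTop t
    obtain ⟨m, hm1, hm2⟩ := (h3.and (eventually_ge_atTop M)).exists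
    exact ⟨m, hm2, hm1⟩
  classical
  set m := Nat.find hex with hm
  obtain ⟨hm1, hm2⟩ := Nat.find_spec hex
  rw [← hm] at hm1 hm2
  have hm3 : pt a b m u' ≤ t := by
    rcases eq_or_lt_of_le hm1 with h3 | h3
    · rw [← h3]; exact ht
    · by_contra hcon
      push Not at hcon
      have h4 : m - 1 < m := by omega
      refine Nat.find_min hex (hm ▸ h4) ⟨by omega, ?_⟩
      rw [show m - 1 + 1 = m by omega]
      exact hcon
  have hlt : t < pt a b m v := hm2.trans (hstep m ((le_max_left _ _).trans hm1))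
  have hc : ContinuousOn (pt a b m) (Icc u' v) := by
    apply (pt_cont (a := a) (b := b) h0 m).mono
    intro x hx
    exact lt_of_le_of_lt hu (lt_of_lt_of_le h1 hx.1)
  obtain ⟨x, hx, hxt⟩ := intermediate_value_Icc h2.le hc ⟨hm3, hlt.le⟩
  refine ⟨m, (le_max_right _ _).trans hm1, x, ⟨by linarith [hx.1], ?_⟩, hxt⟩
  rcases eq_or_lt_of_le hx.2 with h5 | h5
  · rw [h5] at hxt
    linarith
  · exact h5

/-- **generic parameters meet every unbounded set that lies in the closure of its interior** -/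
theorem residual_pt {a b : ℕ → ℝ} {α₀ : ℝ} (h0 : 0 ≤ α₀) (ha : ∀ n, 0 < a n) (hb : ∀ n, 0 < b n)
    (har : Tendsto (fun n => a (n + 1) / a n) atTop (𝓝 1))
    (hbr : Tendsto (fun n => (Real.log (b (n + 1)) - Real.log (b n)) / a n) atTop (𝓝 0))
    (hinf : ∀ α : ℝ, α₀ < α → Tendsto (fun n => pt a b n α) atTop atTop)
    {Q : Set ℝ} (hQi : Q ⊆ closure (interior Q)) (hQ : ∃ᶠ t in atTop, t ∈ Q) :
    ∀ᶠ α in residual ℝ, α₀ < α → ∃ᶠ n in atTop, pt a b n α ∈ Q := by
  have hQ' : ∃ᶠ t in atTop, t ∈ interior Q := by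
    rw [frequently_atTop]
    intro t₀
    obtain ⟨t, ht, htQ⟩ := frequently_atTop.1 hQ (t₀ + 1)
    obtain ⟨s, hs, hst⟩ := Metric.mem_closure_iff.1 (hQi htQ) 1 one_pos
    refine ⟨s, ?_, hs⟩
    rw [Real.dist_eq] at hst
    linarith [(abs_lt.1 hst).2]
  have h := residual_hits (pt a b) (pt_cont h0)
    (pt_reach h0 ha hb har hbr hinf) isOpen_interior hQ'
  filter_upwards [h] with α hα hα0
  exact (hα hα0).mono fun n hn => interior_subset hn

/-- the criterion: a property of points that can only fail on a set with the above property -/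
theorem all_or_meagre {a b : ℕ → ℝ} {α₀ : ℝ} (h0 : 0 ≤ α₀) (ha : ∀ n, 0 < a n) (hb : ∀ n, 0 < b n)
    (har : Tendsto (fun n => a (n + 1) / a n) atTop (𝓝 1))
    (hbr : Tendsto (fun n => (Real.log (b (n + 1)) - Real.log (b n)) / a n) atTop (𝓝 0))
    (hinf : ∀ α : ℝ, α₀ < α → Tendsto (fun n => pt a b n α) atTop atTop)
    {ι : Type*} (G : ι → Set ℝ) (hG : ∀ i, (G i)ᶜ ⊆ closure (interior (G i)ᶜ)) :
    (∀ i, ∀ᶠ t in atTop, t ∈ G i) ↔
      ¬ IsMeagre {α : ℝ | α₀ < α ∧ ∀ i, ∀ᶠ n in atTop, pt a b n α ∈ G i} := by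
  constructor
  · intro h hm
    have e : {α : ℝ | α₀ < α ∧ ∀ i, ∀ᶠ n in atTop, pt a b n α ∈ G i} = Ioi α₀ := by
      ext α
      constructor
      · exact fun hα => hα.1
      · exact fun hα => ⟨hα, fun i => (hinf α hα).eventually (h i)⟩
    rw [e] at hm
    have h1 : (Ioi α₀)ᶜ ∈ residual ℝ := hm
    have h2 : Dense (Ioi α₀)ᶜ := dense_of_mem_residual h1
    obtain ⟨x, hx1, hx2⟩ := h2.inter_open_nonempty (Ioi α₀) isOpen_Ioi ⟨α₀ + 1, by simp⟩
    exact hx2 hx1
  · intro h i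
    by_contra hcon
    apply h
    have h1 : ∃ᶠ t in atTop, t ∈ (G i)ᶜ := by
      rw [Filter.not_eventually] at hcon
      exact hcon
    have h2 := residual_pt h0 ha hb har hbr hinf (hG i) h1
    change _ ∈ residual ℝ
    filter_upwards [h2] with α hα hα2
    exact (hα hα2.1) (by
      filter_upwards [hα2.2 i] with n hn hn2
      exact hn2 hn)

end Pool.Agent.R306.CatHit
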