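import Pool.Agent.R306.CircMain

/-!
The error term of the circle problem along `b n * α ^ (a n)`: the main theorem.
-/

set_option autoImplicit false

open MeasureTheory Filter Topology Set Real
open scoped ENNReal NNReal

namespace Pool.Agent.R306.Circ

open Pool.Agent.R306.CatHit Pool.Agent.R306.DimB Pool.Agent.R306.AEHit
open Pool.Agent.H425R3.JL (Ec)

lemma pt_pos {a b : ℕ → ℝ} {α : ℝ} (hb : ∀ n, 0 < b n) (hα : 0 < α) (n : ℕ) : 0 < pt a b n α :=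
  mul_pos (hb n) (Real.rpow_pos_of_pos hα _)

/-- unboundedness in both directions for almost all parameters -/
theorem ae_unbounded {a b : ℕ → ℝ} {α₀ : ℝ} (h0 : 0 ≤ α₀) (ha : ∀ n, 1 ≤ a n) (hb : ∀ n, 0 < b n)
    (hinf : ∀ α : ℝ, α₀ < α → Tendsto (fun n => pt a b n α) atTop atTop) :
    ∀ᵐ α : ℝ, α₀ < α → ∀ V : ℝ, (∃ᶠ n in atTop, V * √(pt a b n α) < P (pt a b n α)) ∧
      ∃ᶠ n in atTop, P (pt a b n α) < -(V * √(pt a b n α)) := by
  have hE2 : Measurable fun R : ℝ => Ec (R ^ 2) := Ec_meas.comp (by fun_prop)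
  have m1 : ∀ m : ℕ, MeasurableSet {R : ℝ | 0 < R ∧ (m : ℝ) < Ec (R ^ 2)} := fun m =>
    (measurableSet_lt measurable_const measurable_id).inter (measurableSet_lt measurable_const hE2)
  have m2 : ∀ m : ℕ, MeasurableSet {R : ℝ | 0 < R ∧ Ec (R ^ 2) ≤ (-(m : ℝ))} := fun m =>
    (measurableSet_lt measurable_const measurable_id).inter (measurableSet_le hE2 measurable_const)
  have h1 : ∀ᵐ α : ℝ, ∀ m : ℕ, α₀ < α → ∃ᶠ n in atTop, pt a b n α ∈ {R : ℝ | 0 < R ∧ (m : ℝ) < Ec (R ^ 2)} := by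
    rw [ae_all_iff]
    intro m
    exact ae_hit h0 ha hb hinf (m1 m) (dens_of_shifts (m1 m) (fun β hβ => by convert freq_up (m : ℝ) β hβ))
  have h2 : ∀ᵐ α : ℝ, ∀ m : ℕ, α₀ < α → ∃ᶠ n in atTop, pt a b n α ∈ {R : ℝ | 0 < R ∧ Ec (R ^ 2) ≤ (-(m : ℝ))} := by
    rw [ae_all_iff]
    intro m
    exact ae_hit h0 ha hb hinf (m2 m) (dens_of_shifts (m2 m) (fun β hβ => by convert freq_down (-(m : ℝ)) β hβ))
  filter_upwards [h1, h2] with α g1 g2 hα V
  obtain ⟨m, hm⟩ := exists_nat_gt V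
  constructor
  · refine (g1 m hα).mono fun n hn => ?_
    obtain ⟨q1, q2⟩ := hn
    rw [P_eq q1]
    exact mul_lt_mul_of_pos_right (hm.trans q2) (Real.sqrt_pos.2 q1)
  · refine (g2 m hα).mono fun n hn => ?_
    obtain ⟨q1, q2⟩ := hn
    rw [P_eq q1, ← neg_mul]
    exact mul_lt_mul_of_pos_right (by linarith) (Real.sqrt_pos.2 q1)

/-- the exceptional squares of radii -/
def Bad (ε : ℝ) : Set ℕ := {n : ℕ | ∃ y : ℝ, (n : ℝ) ≤ y ∧ y < n + 1 ∧ y ^ ε < |Ec y|}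

lemma in_bad {R ε : ℝ} (hR : 0 < R) (h : R ^ (1 / 2 + 2 * ε) < |P R|) :
    ∃ m ∈ Bad ε, (m : ℝ) ≤ R ^ 2 ∧ R ^ 2 < m + 1 := by
  have hR2 : 0 ≤ R ^ 2 := sq_nonneg R
  refine ⟨⌊R ^ 2⌋₊, ⟨R ^ 2, Nat.floor_le hR2, Nat.lt_floor_add_one _, ?_⟩, Nat.floor_le hR2,
    Nat.lt_floor_add_one _⟩
  have hs : 0 < √R := Real.sqrt_pos.2 hR
  rw [P_eq hR, abs_mul, abs_of_pos hs] at h
  have e1 : R ^ (1 / 2 + 2 * ε) = (R ^ 2) ^ ε * √R := by
    rw [Real.sqrt_eq_rpow, ← Real.rpow_natCast, ← Real.rpow_mul hR.le, ← Real.rpow_add hR]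
    congr 1
    push_cast
    ring
  rw [e1] at h
  exact lt_of_mul_lt_mul_right h hs.le

/-- the exceptional sets are null for the Hausdorff measures of sufficiently large dimension -/
theorem haus {c ε C s : ℝ} {a b : ℕ → ℝ} {α₀ : ℝ} (h0 : 0 ≤ α₀) (ha : ∀ n, 1 ≤ a n)
    (hb : ∀ n, 0 < b n)
    (hgr : ∀ α : ℝ, α₀ < α → Tendsto (fun n : ℕ => Real.log (pt a b n α) / Real.log n) atTop atTop)
    (hC : 0 ≤ C) (hs : 0 < s) (hsc : 0 < s - 1 + c * (ε * Real.log (1 / ε)))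
    (hbad : ∀ K : ℕ, 1 ≤ K → ∀ F : Finset ℕ, (∀ m ∈ F, m ∈ Bad ε ∧ K ≤ m ∧ m < 2 * K) →
      (F.card : ℝ) ≤ C * (K : ℝ) ^ (1 - c * (ε * Real.log (1 / ε)))) :
    μH[s] {α : ℝ | α₀ < α ∧ ∃ᶠ n in atTop, (pt a b n α) ^ (1 / 2 + 2 * ε) < |P (pt a b n α)|} = 0 := by
  classical
  have hcount : ∀ K : ℕ, 1 ≤ K → (((Finset.Ico K (2 * K)).filter (fun m => m ∈ Bad ε)).card : ℝ) ≤
      C * (K : ℝ) ^ (1 - c * (ε * Real.log (1 / ε))) := by
    intro K hK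
    apply hbad K hK
    intro m hm
    rw [Finset.mem_filter, Finset.mem_Ico] at hm
    exact ⟨hm.2, hm.1.1, hm.1.2⟩
  have hpiece : ∀ j : ℕ, μH[s] {α : ℝ | α ∈ Icc (α₀ + 1 / ((j : ℝ) + 1)) j ∧ ∃ᶠ n in atTop, ∃ m ∈ Bad ε,
      (m : ℝ) ≤ (pt a b n α) ^ 2 ∧ (pt a b n α) ^ 2 < m + 1} = 0 := by
    intro j
    have hj : (0:ℝ) < 1 / ((j : ℝ) + 1) := by positivity
    have h1 := dim_Icc (A := α₀ + 1 / ((j : ℝ) + 1)) (B := j) ha hb (by linarith)
      (hgr _ (by linarith)) (Bad := Bad ε) hC hs hsc (fun K hK => by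
        have h2 := hcount K hK
        convert h2)
    exact h1
  have hU : μH[s] (⋃ j : ℕ, {α : ℝ | α ∈ Icc (α₀ + 1 / ((j : ℝ) + 1)) j ∧ ∃ᶠ n in atTop, ∃ m ∈ Bad ε,
      (m : ℝ) ≤ (pt a b n α) ^ 2 ∧ (pt a b n α) ^ 2 < m + 1}) = 0 := measure_iUnion_null hpiece
  refine measure_mono_null ?_ hU
  rintro α ⟨hα, hfr⟩
  have hα0 : 0 < α := by linarith
  rw [mem_iUnion]
  obtain ⟨j₁, hj₁⟩ := exists_nat_gt (1 / (α - α₀))
  obtain ⟨j₂, hj₂⟩ := exists_nat_gt α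
  have hd : 0 < α - α₀ := by linarith
  refine ⟨max j₁ j₂, ⟨?_, ?_⟩, ?_⟩
  · have h1 : (1 / (α - α₀)) < (max j₁ j₂ : ℕ) := hj₁.trans_le (by exact_mod_cast le_max_left _ _)
    have h2 : (0:ℝ) < ((max j₁ j₂ : ℕ) : ℝ) + 1 := by positivity
    have h3 : 1 / (((max j₁ j₂ : ℕ) : ℝ) + 1) ≤ α - α₀ := by
      rw [div_lt_iff₀ hd] at h1
      rw [div_le_iff₀ h2]
      nlinarith
    linarith
  · exact (hj₂.trans_le (by exact_mod_cast le_max_right _ _)).le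
  · exact hfr.mono fun n hn => in_bad (pt_pos hb hα0 n) hn

open Classical in
/-- **measure, dimension and category** -/
theorem main : ∃ c : ℝ, 0 < c ∧ ∀ (a b : ℕ → ℝ) (α₀ : ℝ), 0 ≤ α₀ → (∀ n, 1 ≤ a n) → (∀ n, 0 < b n) →
    Tendsto (fun n => a (n + 1) / a n) atTop (𝓝 1) →
    Tendsto (fun n => (Real.log (b (n + 1)) - Real.log (b n)) / a n) atTop (𝓝 0) →
    (∀ α : ℝ, α₀ < α → Tendsto (fun n => pt a b n α) atTop atTop) →
    (∀ᵐ α : ℝ, α₀ < α → ∀ V : ℝ, (∃ᶠ n in atTop, V * √(pt a b n α) < P (pt a b n α)) ∧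
      ∃ᶠ n in atTop, P (pt a b n α) < -(V * √(pt a b n α))) ∧
    ((∀ α : ℝ, α₀ < α → Tendsto (fun n : ℕ => Real.log (pt a b n α) / Real.log n) atTop atTop) →
      (∀ᵐ α : ℝ, α₀ < α → ∀ ε : ℝ, 0 < ε → ∀ᶠ n in atTop, |P (pt a b n α)| ≤ (pt a b n α) ^ (1 / 2 + ε)) ∧
      ∀ ε : ℝ, 0 < ε → ε ≤ c →
        dimH {α : ℝ | α₀ < α ∧ ∃ᶠ n in atTop, (pt a b n α) ^ (1 / 2 + ε) < |P (pt a b n α)|} ≤
          ENNReal.ofReal (1 - c * (ε * Real.log (1 / ε)))) ∧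
    (∀ φ : ℝ → ℝ, ContinuousOn φ (Ioi 0) →
      ((∃ᶠ R in atTop, φ R < P R) →
        ∀ᶠ α in residual ℝ, α₀ < α → ∃ᶠ n in atTop, φ (pt a b n α) < P (pt a b n α)) ∧
      ((∃ᶠ R in atTop, P R < φ R) →
        ∀ᶠ α in residual ℝ, α₀ < α → ∃ᶠ n in atTop, P (pt a b n α) < φ (pt a b n α))) ∧
    ((∀ ε : ℝ, 0 < ε → ∃ C R₀ : ℝ, ∀ R : ℝ, R₀ ≤ R → |P R| ≤ C * R ^ (1 / 2 + ε)) ↔
      ¬ IsMeagre {α : ℝ | α₀ < α ∧ ∀ ε : ℝ, 0 < ε →
        ∀ᶠ n in atTop, |P (pt a b n α)| ≤ (pt a b n α) ^ (1 / 2 + ε)}) := by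
  obtain ⟨c₁, hc₁, hex⟩ := Pool.Agent.Y969.SW.exc_circle' (1 / 2) (by norm_num)
  have hbad : ∀ ε : ℝ, 0 < ε → ε ≤ c₁ → ∃ C : ℝ, 0 < C ∧ ∀ K : ℕ, 1 ≤ K → ∀ F : Finset ℕ,
      (∀ m ∈ F, m ∈ Bad ε ∧ K ≤ m ∧ m < 2 * K) →
      (F.card : ℝ) ≤ C * (K : ℝ) ^ (1 - c₁ * (ε * Real.log (1 / ε))) := by
    intro ε hε hε1
    obtain ⟨C, hC, h⟩ := hex ε hε hε1
    refine ⟨C, hC, fun K hK F hF => ?_⟩
    have h1 := h K K hK (by norm_num)
    refine le_trans ?_ h1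
    apply Nat.cast_le.2
    apply Finset.card_le_card
    intro m hm
    obtain ⟨q1, q2, q3⟩ := hF m hm
    rw [Finset.mem_filter, Finset.mem_Ico]
    exact ⟨⟨q2, by omega⟩, q1⟩
  set c : ℝ := min (c₁ / 2) (1 / 2) with hc
  have hc0 : 0 < c := lt_min (by linarith) (by norm_num)
  have hcc : c ≤ c₁ / 2 := min_le_left _ _
  have hch : c ≤ 1 / 2 := min_le_right _ _
  -- the gain in the dimension
  have hgain : ∀ ε : ℝ, 0 < ε → ε ≤ c → c * (ε * Real.log (1 / ε)) ≤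
      c₁ * ((ε / 2) * Real.log (1 / (ε / 2))) ∧ 0 < c * (ε * Real.log (1 / ε)) := by
    intro ε hε hεc
    have h1 : 1 < 1 / ε := by rw [lt_div_iff₀ hε]; linarith
    have hl : 0 < Real.log (1 / ε) := Real.log_pos h1
    have h2 : Real.log (1 / ε) ≤ Real.log (1 / (ε / 2)) := by
      apply Real.log_le_log (by positivity)
      apply one_div_le_one_div_of_le (by positivity)
      linarith
    refine ⟨?_, by positivity⟩
    calc c * (ε * Real.log (1 / ε)) ≤ c₁ / 2 * (ε * Real.log (1 / ε)) :=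
          mul_le_mul_of_nonneg_right hcc (by positivity)
      _ ≤ c₁ / 2 * (ε * Real.log (1 / (ε / 2))) := by
          apply mul_le_mul_of_nonneg_left _ (by positivity)
          exact mul_le_mul_of_nonneg_left h2 hε.le
      _ = _ := by ring
  refine ⟨c, hc0, fun a b α₀ h0 ha hb har hbr hinf => ?_⟩
  have ha0 : ∀ n, 0 < a n := fun n => by linarith [ha n]
  refine ⟨ae_unbounded h0 ha hb hinf, fun hgr => ⟨?_, ?_⟩, fun φ hφ => ⟨?_, ?_⟩, ?_⟩
  · -- almost all parameters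
    have key : ∀ j : ℕ, ∀ᵐ α : ℝ, α₀ < α → ∀ᶠ n in atTop,
        |P (pt a b n α)| ≤ (pt a b n α) ^ (1 / 2 + c / (j + 1)) := by
      intro j
      have hj : (0:ℝ) < (j : ℝ) + 1 := by positivity
      have hε0 : 0 < c / ((j : ℝ) + 1) := by positivity
      have hεc : c / ((j : ℝ) + 1) ≤ c := div_le_self hc0.le (by linarith [Nat.cast_nonneg (α := ℝ) j])
      obtain ⟨g1, g2⟩ := hgain _ hε0 hεc
      obtain ⟨C, hC, hbd⟩ := hbad (c / ((j : ℝ) + 1) / 2) (by positivity) (by linarith)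
      have h1 := haus (s := 1) h0 ha hb hgr hC.le one_pos (by linarith) hbd
      rw [MeasureTheory.hausdorffMeasure_real] at h1
      rw [ae_iff]
      refine measure_mono_null ?_ h1
      intro α hα
      have hα' : ¬ (α₀ < α → ∀ᶠ n in atTop,
        |P (pt a b n α)| ≤ (pt a b n α) ^ (1 / 2 + c / ((j : ℝ) + 1))) := hα
      push Not at hα'
      refine ⟨hα'.1, ?_⟩
      refine hα'.2.mono fun n hn => ?_
      rw [mul_div_cancel₀ _ (two_ne_zero' ℝ)]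
      exact hn
    have key2 : ∀ᵐ α : ℝ, ∀ j : ℕ, α₀ < α → ∀ᶠ n in atTop,
        |P (pt a b n α)| ≤ (pt a b n α) ^ (1 / 2 + c / (j + 1)) := ae_all_iff.2 key
    filter_upwards [key2] with α hα hα0 ε hε
    obtain ⟨j, hj⟩ := exists_nat_gt (c / ε)
    filter_upwards [hα j hα0, (hinf α hα0).eventually_ge_atTop 1] with n hn hn1
    refine hn.trans (Real.rpow_le_rpow_of_exponent_le hn1 ?_)
    have hj1 : (0:ℝ) < (j : ℝ) + 1 := by positivity
    have : c / ((j : ℝ) + 1) ≤ ε := by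
      rw [div_lt_iff₀ hε] at hj
      rw [div_le_iff₀ hj1]
      nlinarith
    linarith
  · -- dimension
    intro ε hε hεc
    obtain ⟨g1, g2⟩ := hgain ε hε hεc
    obtain ⟨C, hC, hbd⟩ := hbad (ε / 2) (by positivity) (by linarith)
    refine dimH_le fun d hd => ?_
    by_contra hcon
    push Not at hcon
    have hd0 : 0 < d := by
      have h1 : (0:ℝ≥0∞) < d := lt_of_le_of_lt zero_le hcon
      exact_mod_cast h1
    have hd1 : 1 - c * (ε * Real.log (1 / ε)) < (d : ℝ) := by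
      have h1 : ENNReal.ofReal (1 - c * (ε * Real.log (1 / ε))) < ENNReal.ofReal (d : ℝ) := by
        rw [ENNReal.ofReal_coe_nnreal]; exact hcon
      exact (ENNReal.ofReal_lt_ofReal_iff (by exact_mod_cast hd0)).1 h1
    have h2 := haus (s := (d : ℝ)) h0 ha hb hgr hC.le (by exact_mod_cast hd0) (by linarith) hbd
    rw [mul_div_cancel₀ _ (two_ne_zero' ℝ)] at h2
    rw [h2] at hd
    exact ENNReal.zero_ne_top hd
  · -- category, upward
    intro hfr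
    have hM : ContinuousOn (fun R : ℝ => Real.pi * R ^ 2) (Ioi 0) := by fun_prop
    have h1 := residual_pt h0 ha0 hb har hbr hinf (Win.up F_mono hM hφ) (by
      refine (hfr.and_eventually (eventually_gt_atTop 0)).mono fun R hR => ⟨hR.2, hR.1⟩)
    filter_upwards [h1] with α hα hα0
    exact (hα hα0).mono fun n hn => hn.2
  · intro hfr
    have hM : ContinuousOn (fun R : ℝ => Real.pi * R ^ 2) (Ioi 0) := by fun_prop
    have h1 := residual_pt h0 ha0 hb har hbr hinf (Win.down F_mono hM hφ) (by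
      refine (hfr.and_eventually (eventually_gt_atTop 0)).mono fun R hR => ⟨hR.2, hR.1⟩)
    filter_upwards [h1] with α hα hα0
    exact (hα hα0).mono fun n hn => hn.2
  · -- the criterion
    have hM : ContinuousOn (fun R : ℝ => Real.pi * R ^ 2) (Ioi 0) := by fun_prop
    have hcrit := all_or_meagre h0 ha0 hb har hbr hinf
      (G := fun ε : {ε : ℝ // 0 < ε} => {t : ℝ | 0 < t → |P t| ≤ t ^ (1 / 2 + (ε : ℝ))}) (by
        rintro ⟨ε, hε⟩
        have hφ : ContinuousOn (fun t : ℝ => t ^ (1 / 2 + ε)) (Ioi 0) := by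
          apply ContinuousOn.rpow_const continuousOn_id
          intro x hx
          left
          exact (ne_of_gt hx)
        have e : ({t : ℝ | 0 < t → |P t| ≤ t ^ (1 / 2 + ε)})ᶜ =
            {t : ℝ | 0 < t ∧ t ^ (1 / 2 + ε) < |F t - Real.pi * t ^ 2|} := by
          ext t
          simp only [mem_compl_iff, mem_ofPred_eq, not_forall, not_le, exists_prop]
          rfl
        dsimp only
        rw [e]
        exact Win.both F_mono hM hφ)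
    have e1 : (∀ ε : ℝ, 0 < ε → ∃ C R₀ : ℝ, ∀ R : ℝ, R₀ ≤ R → |P R| ≤ C * R ^ (1 / 2 + ε)) ↔
        ∀ ε : {ε : ℝ // 0 < ε}, ∀ᶠ t in atTop, t ∈ {t : ℝ | 0 < t → |P t| ≤ t ^ (1 / 2 + (ε : ℝ))} := by
      constructor
      · rintro h ⟨ε, hε⟩
        obtain ⟨C, R₀, h1⟩ := h (ε / 2) (by linarith)
        have h2 : Tendsto (fun t : ℝ => t ^ (ε / 2)) atTop atTop := tendsto_rpow_atTop (by linarith)
        filter_upwards [eventually_ge_atTop R₀, h2.eventually_ge_atTop C] with t ht1 ht2 ht0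
        refine (h1 t ht1).trans ?_
        have e2 : t ^ (1 / 2 + ε) = t ^ (ε / 2) * t ^ (1 / 2 + ε / 2) := by
          rw [← Real.rpow_add ht0]; congr 1; ring
        change C * t ^ (1 / 2 + ε / 2) ≤ t ^ (1 / 2 + ε)
        rw [e2]
        exact mul_le_mul_of_nonneg_right ht2 (Real.rpow_pos_of_pos ht0 _).le
      · intro h ε hε
        obtain ⟨R₀, hR₀⟩ := eventually_atTop.1 ((h ⟨ε, hε⟩).and (eventually_gt_atTop 0))
        refine ⟨1, R₀, fun R hR => ?_⟩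
        rw [one_mul]
        exact (hR₀ R hR).1 (hR₀ R hR).2
    have e3 : {α : ℝ | α₀ < α ∧ ∀ ε : ℝ, 0 < ε →
        ∀ᶠ n in atTop, |P (pt a b n α)| ≤ (pt a b n α) ^ (1 / 2 + ε)} =
        {α : ℝ | α₀ < α ∧ ∀ ε : {ε : ℝ // 0 < ε}, ∀ᶠ n in atTop,
          pt a b n α ∈ {t : ℝ | 0 < t → |P t| ≤ t ^ (1 / 2 + (ε : ℝ))}} := by
      ext α
      constructor
      · rintro ⟨h1, h2⟩
        refine ⟨h1, fun ε => ?_⟩
        filter_upwards [h2 ε ε.2] with n hn _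
        exact hn
      · rintro ⟨h1, h2⟩
        refine ⟨h1, fun ε hε => ?_⟩
        filter_upwards [h2 ⟨ε, hε⟩] with n hn
        exact hn (pt_pos hb (by linarith) n)
    rw [e1, e3]
    exact hcrit

end Pool.Agent.R306.Circ
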