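import Mathlib

/-!
Correlation of two oscillating functions at different scales.
-/

set_option autoImplicit false

open MeasureTheory Filter Topology Set Real
open scoped ENNReal

namespace Pool.Agent.R306.LogCov

/-- forward average -/
noncomputable def Mv (X : ℝ → ℝ) (δ y : ℝ) : ℝ := (∫ s in y..(y + δ), X s) / δ

lemma bint {X : ℝ → ℝ} (hX : Measurable X) {B : ℝ} (hB : ∀ y, |X y| ≤ B) (p q : ℝ) :
    IntervalIntegrable X volume p q := by
  rw [intervalIntegrable_iff, uIoc]
  refine Integrable.of_bound hX.aestronglyMeasurable B (Eventually.of_forall fun y => ?_)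
  rw [Real.norm_eq_abs]
  exact hB y

lemma Mv_eq (X : ℝ → ℝ) (δ y : ℝ) : Mv X δ y = (∫ t in (0:ℝ)..δ, X (y + t)) / δ := by
  unfold Mv
  rw [intervalIntegral.integral_comp_add_left (fun s => X s) y, add_zero]

lemma Mv_bound {X : ℝ → ℝ} {B : ℝ} (hB : ∀ y, |X y| ≤ B) {δ : ℝ} (hδ : 0 < δ) (y : ℝ) :
    |Mv X δ y| ≤ B := by
  unfold Mv
  rw [abs_div, abs_of_pos hδ, div_le_iff₀ hδ]
  have h := intervalIntegral.norm_integral_le_of_norm_le_const (a := y) (b := y + δ) (f := X) (C := B)
    (fun x _ => by rw [Real.norm_eq_abs]; exact hB x)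
  rw [Real.norm_eq_abs, add_sub_cancel_left, abs_of_pos hδ] at h
  exact h

lemma Mv_meas {X : ℝ → ℝ} (hX : Measurable X) {B : ℝ} (hB : ∀ y, |X y| ≤ B) (δ : ℝ) :
    Measurable (Mv X δ) := by
  have hc : Continuous fun y => ∫ s in (0:ℝ)..y, X s :=
    intervalIntegral.continuous_primitive (fun a b => bint hX hB a b) 0
  have e : Mv X δ = fun y => ((∫ s in (0:ℝ)..(y + δ), X s) - ∫ s in (0:ℝ)..y, X s) / δ := by
    funext y
    unfold Mv
    rw [intervalIntegral.integral_interval_sub_left (bint hX hB _ _) (bint hX hB _ _)]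
  rw [e]
  exact (((hc.comp (by fun_prop)).sub hc).div_const δ).measurable

lemma Mv_diff {X : ℝ → ℝ} (hX : Measurable X) {B : ℝ} (hB : ∀ y, |X y| ≤ B) {δ : ℝ} (hδ : 0 < δ)
    (y : ℝ) {t : ℝ} (ht : 0 ≤ t) : |Mv X δ (y + t) - Mv X δ y| ≤ 2 * B * t / δ := by
  have e : Mv X δ (y + t) - Mv X δ y =
      ((∫ s in (y + δ)..(y + t + δ), X s) - ∫ s in y..(y + t), X s) / δ := by
    unfold Mv
    rw [← sub_div]
    congr 1
    have h1 := intervalIntegral.integral_add_adjacent_intervals (bint hX hB y (y + t))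
      (bint hX hB (y + t) (y + t + δ))
    have h2 := intervalIntegral.integral_add_adjacent_intervals (bint hX hB y (y + δ))
      (bint hX hB (y + δ) (y + t + δ))
    linarith
  have h1 := intervalIntegral.norm_integral_le_of_norm_le_const (a := y + δ) (b := y + t + δ) (f := X)
    (C := B) (fun x _ => by rw [Real.norm_eq_abs]; exact hB x)
  have h2 := intervalIntegral.norm_integral_le_of_norm_le_const (a := y) (b := y + t) (f := X)
    (C := B) (fun x _ => by rw [Real.norm_eq_abs]; exact hB x)
  rw [Real.norm_eq_abs] at h1 h2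
  have e1 : |y + t + δ - (y + δ)| = t := by
    rw [show y + t + δ - (y + δ) = t by ring, abs_of_nonneg ht]
  have e2 : |y + t - y| = t := by rw [show y + t - y = t by ring, abs_of_nonneg ht]
  rw [e1] at h1
  rw [e2] at h2
  rw [e, abs_div, abs_of_pos hδ]
  apply div_le_div_of_nonneg_right _ hδ.le
  have h3 := abs_sub (∫ s in (y + δ)..(y + t + δ), X s) (∫ s in y..(y + t), X s)
  linarith

/-- the mean modulus of continuity of a function dominated by a monotone one -/
lemma mod_le {X Ψ : ℝ → ℝ} (hX : Measurable X) {B : ℝ} (hB : ∀ y, |X y| ≤ B) {u v : ℝ} (huv : u ≤ v)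
    (hΨ : MonotoneOn Ψ (Icc u (v + 1)))
    (hXΨ : ∀ y ∈ Icc u v, ∀ t ∈ Icc (0:ℝ) 1, |X (y + t) - X y| ≤ Ψ (y + t) - Ψ y)
    {t : ℝ} (ht0 : 0 ≤ t) (ht1 : t ≤ 1) :
    ∫ y in u..v, |X (y + t) - X y| ≤ t * (Ψ (v + 1) - Ψ u) := by
  have hsub : ∀ p q : ℝ, u ≤ p → p ≤ q → q ≤ v + 1 → IntervalIntegrable Ψ volume p q := by
    intro p q h1 h2 h3
    apply MonotoneOn.intervalIntegrable
    rw [uIcc_of_le h2]
    exact hΨ.mono (Icc_subset_Icc h1 h3)
  have hXt : Measurable fun y => X (y + t) := hX.comp (by fun_prop)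
  have i1 : IntervalIntegrable (fun y => |X (y + t) - X y|) volume u v := by
    apply IntervalIntegrable.abs
    exact (bint hXt (fun y => hB _) u v).sub (bint hX hB u v)
  have i2 : IntervalIntegrable (fun y => Ψ (y + t)) volume u v := by
    have h1 := (hsub (u + t) (v + t) (by linarith) (by linarith) (by linarith)).comp_add_right t
    simpa using h1
  have i3 : IntervalIntegrable Ψ volume u v := hsub u v le_rfl huv (by linarith)
  have h1 : ∫ y in u..v, |X (y + t) - X y| ≤ ∫ y in u..v, (Ψ (y + t) - Ψ y) := by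
    apply intervalIntegral.integral_mono_on huv i1 (i2.sub i3)
    intro y hy
    exact hXΨ y hy t ⟨ht0, ht1⟩
  rw [intervalIntegral.integral_sub i2 i3, intervalIntegral.integral_comp_add_right] at h1
  have j1 := hsub u (u + t) le_rfl (by linarith) (by linarith)
  have j2 := hsub v (v + t) huv (by linarith) (by linarith)
  have e1 : (∫ y in (u + t)..(v + t), Ψ y) - ∫ y in u..v, Ψ y =
      (∫ y in v..(v + t), Ψ y) - ∫ y in u..(u + t), Ψ y := by
    have a1 := intervalIntegral.integral_add_adjacent_intervals i3 j2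
    have i4 : IntervalIntegrable Ψ volume (u + t) (v + t) :=
      hsub (u + t) (v + t) (by linarith) (by linarith) (by linarith)
    have a2 := intervalIntegral.integral_add_adjacent_intervals j1 i4
    linarith
  rw [e1] at h1
  have h2 : ∫ y in v..(v + t), Ψ y ≤ ∫ _y in v..(v + t), Ψ (v + 1) := by
    apply intervalIntegral.integral_mono_on (by linarith) j2 (by simp)
    intro y hy
    exact hΨ ⟨by linarith [hy.1], by linarith [hy.2]⟩ ⟨by linarith, le_rfl⟩ (by linarith [hy.2])
  have h3 : ∫ _y in u..(u + t), Ψ u ≤ ∫ y in u..(u + t), Ψ y := by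
    apply intervalIntegral.integral_mono_on (by linarith) (by simp) j1
    intro y hy
    exact hΨ ⟨le_rfl, by linarith⟩ ⟨hy.1, by linarith [hy.2]⟩ hy.1
  rw [intervalIntegral.integral_const, smul_eq_mul] at h2 h3
  have e2 : v + t - v = t := by ring
  have e3 : u + t - u = t := by ring
  rw [e2] at h2
  rw [e3] at h3
  calc _ ≤ _ := h1
    _ ≤ t * Ψ (v + 1) - t * Ψ u := by linarith
    _ = _ := by ring

/-- **correlation** of a slow and a fast function -/
theorem cov {X X' Ψ : ℝ → ℝ} (hX : Measurable X) (hX' : Measurable X') {B : ℝ} (hB : ∀ y, |X y| ≤ B)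
    (hB' : ∀ y, |X' y| ≤ B) {u v : ℝ} (huv : u ≤ v)
    (hΨ : MonotoneOn Ψ (Icc u (v + 1)))
    (hXΨ : ∀ y ∈ Icc u v, ∀ t ∈ Icc (0:ℝ) 1, |X (y + t) - X y| ≤ Ψ (y + t) - Ψ y)
    {δ δ' : ℝ} (hδ : 0 < δ) (hδ' : 0 < δ') (hδ1 : δ' ≤ 1) :
    |∫ y in u..v, (X y - Mv X δ y) * (X' y - Mv X' δ' y)| ≤
      δ' * (B * (Ψ (v + 1) - Ψ u) + 2 * B ^ 2 * (v - u) / δ + 4 * B ^ 2) := by
  have hB0 : 0 ≤ B := (abs_nonneg _).trans (hB 0)
  obtain ⟨D, hD⟩ : ∃ D : ℝ → ℝ, D = fun y => X y - Mv X δ y := ⟨_, rfl⟩
  have hDm : Measurable D := by rw [hD]; exact hX.sub (Mv_meas hX hB δ)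
  have hDb : ∀ y, |D y| ≤ 2 * B := by
    intro y
    rw [hD]
    dsimp only
    have h1 := abs_sub (X y) (Mv X δ y)
    have h2 := Mv_bound hB hδ y
    linarith [hB y]
  have hV0 : 0 ≤ Ψ (v + 1) - Ψ u := by
    have := hΨ (show u ∈ Icc u (v + 1) from ⟨le_rfl, by linarith⟩)
      (show v + 1 ∈ Icc u (v + 1) from ⟨by linarith, le_rfl⟩) (by linarith)
    linarith
  obtain ⟨K, hK⟩ : ∃ K : ℝ, K = B * (Ψ (v + 1) - Ψ u) + 2 * B ^ 2 * (v - u) / δ + 4 * B ^ 2 := ⟨_, rfl⟩
  have hK0 : 0 ≤ K := by
    rw [hK]
    have h1 : 0 ≤ v - u := by linarith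
    positivity
  -- the inner integrals
  have hprod : ∀ t : ℝ, Measurable fun y => D y * X' (y + t) := fun t =>
    hDm.mul (hX'.comp (by fun_prop))
  have hprodb : ∀ t y : ℝ, |D y * X' (y + t)| ≤ 2 * B * B := by
    intro t y
    rw [abs_mul]
    exact mul_le_mul (hDb y) (hB' _) (abs_nonneg _) (by linarith)
  have hJ : ∀ t : ℝ, 0 ≤ t → t ≤ 1 →
      |∫ y in u..v, (D y * X' y - D y * X' (y + t))| ≤ t * K := by
    intro t ht0 ht1
    have m0 : Measurable fun y => D y * X' y := hDm.mul hX'
    have b0 : ∀ y, |D y * X' y| ≤ 2 * B * B := by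
      intro y
      rw [abs_mul]
      exact mul_le_mul (hDb y) (hB' _) (abs_nonneg _) (by linarith)
    have mt : Measurable fun y => D (y + t) * X' (y + t) := m0.comp (by fun_prop : Measurable fun y : ℝ => y + t)
    have e0 : ∫ y in u..v, D y * X' y = (∫ y in u..v, D (y + t) * X' (y + t)) +
        ((∫ y in u..(u + t), D y * X' y) - ∫ y in v..(v + t), D y * X' y) := by
      have h1 : ∫ y in u..v, D (y + t) * X' (y + t) = ∫ y in (u + t)..(v + t), D y * X' y :=
        intervalIntegral.integral_comp_add_right (fun y => D y * X' y) t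
      rw [h1]
      have a1 := intervalIntegral.integral_add_adjacent_intervals (bint m0 b0 u v) (bint m0 b0 v (v + t))
      have a2 := intervalIntegral.integral_add_adjacent_intervals (bint m0 b0 u (u + t))
        (bint m0 b0 (u + t) (v + t))
      linarith
    rw [intervalIntegral.integral_sub (bint m0 b0 u v) (bint (hprod t) (hprodb t) u v), e0]
    have e1 : (∫ y in u..v, D (y + t) * X' (y + t)) - ∫ y in u..v, D y * X' (y + t) =
        ∫ y in u..v, (D (y + t) - D y) * X' (y + t) := by
      rw [← intervalIntegral.integral_sub (bint mt (fun y => b0 (y + t)) u v)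
        (bint (hprod t) (hprodb t) u v)]
      congr 1
      funext y
      ring
    have hDt : Measurable fun y => D (y + t) := hDm.comp (by fun_prop)
    have hXt : Measurable fun y => X (y + t) := hX.comp (by fun_prop)
    have h2 : |∫ y in u..v, (D (y + t) - D y) * X' (y + t)| ≤
        ∫ y in u..v, B * (|X (y + t) - X y| + 2 * B * t / δ) := by
      have h3 := intervalIntegral.norm_integral_le_integral_norm (μ := volume)
        (f := fun y => (D (y + t) - D y) * X' (y + t)) huv
      rw [Real.norm_eq_abs] at h3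
      refine h3.trans ?_
      have ii : IntervalIntegrable (fun y => |X (y + t) - X y|) volume u v :=
        ((bint hXt (fun y => hB _) u v).sub (bint hX hB u v)).abs
      apply intervalIntegral.integral_mono_on huv
      · apply IntervalIntegrable.norm
        have hmm : Measurable fun y => (D (y + t) - D y) * X' (y + t) :=
          (hDt.sub hDm).mul (hX'.comp (by fun_prop))
        refine bint hmm (B := 4 * B * B) (fun y => ?_) u v
        rw [abs_mul]
        apply mul_le_mul _ (hB' _) (abs_nonneg _) (by linarith)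
        have := abs_sub (D (y + t)) (D y)
        linarith [hDb y, hDb (y + t)]
      · exact (ii.add (by simp)).const_mul B
      · intro y hy
        rw [Real.norm_eq_abs, abs_mul, mul_comm]
        apply mul_le_mul (hB' _) _ (abs_nonneg _) hB0
        rw [hD]
        dsimp only
        have h4 : X (y + t) - Mv X δ (y + t) - (X y - Mv X δ y) =
            (X (y + t) - X y) - (Mv X δ (y + t) - Mv X δ y) := by ring
        rw [h4]
        exact (abs_sub _ _).trans (by linarith [Mv_diff hX hB hδ y ht0])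
    have ii : IntervalIntegrable (fun y => |X (y + t) - X y|) volume u v :=
      ((bint hXt (fun y => hB _) u v).sub (bint hX hB u v)).abs
    rw [intervalIntegral.integral_const_mul, intervalIntegral.integral_add ii (by simp),
      intervalIntegral.integral_const, smul_eq_mul] at h2
    have h5 := mod_le hX hB huv hΨ hXΨ ht0 ht1
    have h6 := intervalIntegral.norm_integral_le_of_norm_le_const (a := u) (b := u + t)
      (f := fun y => D y * X' y) (C := 2 * B * B) (fun x _ => by rw [Real.norm_eq_abs]; exact b0 x)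
    have h7 := intervalIntegral.norm_integral_le_of_norm_le_const (a := v) (b := v + t)
      (f := fun y => D y * X' y) (C := 2 * B * B) (fun x _ => by rw [Real.norm_eq_abs]; exact b0 x)
    rw [Real.norm_eq_abs, add_sub_cancel_left, abs_of_nonneg ht0] at h6 h7
    have h8 : (∫ y in u..v, D (y + t) * X' (y + t)) +
        ((∫ y in u..(u + t), D y * X' y) - ∫ y in v..(v + t), D y * X' y) -
        ∫ y in u..v, D y * X' (y + t) = (∫ y in u..v, (D (y + t) - D y) * X' (y + t)) +
        (∫ y in u..(u + t), D y * X' y) - ∫ y in v..(v + t), D y * X' y := by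
      rw [← e1]; ring
    rw [h8]
    have h9 := abs_sub ((∫ y in u..v, (D (y + t) - D y) * X' (y + t)) +
      ∫ y in u..(u + t), D y * X' y) (∫ y in v..(v + t), D y * X' y)
    have h10 := abs_add_le (∫ y in u..v, (D (y + t) - D y) * X' (y + t))
      (∫ y in u..(u + t), D y * X' y)
    have h11 : B * ((∫ y in u..v, |X (y + t) - X y|) + (v - u) * (2 * B * t / δ)) ≤
        B * (t * (Ψ (v + 1) - Ψ u) + (v - u) * (2 * B * t / δ)) := by
      apply mul_le_mul_of_nonneg_left _ hB0
      linarith
    have h12 : t * K = B * (t * (Ψ (v + 1) - Ψ u) + (v - u) * (2 * B * t / δ)) +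
        2 * B * B * t + 2 * B * B * t := by
      rw [hK]; ring
    rw [h12]
    linarith
  -- Fubini
  have hfub : ∫ y in u..v, D y * (X' y - Mv X' δ' y) =
      (∫ t in (0:ℝ)..δ', ∫ y in u..v, (D y * X' y - D y * X' (y + t))) / δ' := by
    have e1 : ∀ y, D y * (X' y - Mv X' δ' y) = (∫ t in (0:ℝ)..δ', (D y * X' y - D y * X' (y + t))) / δ' := by
      intro y
      have i1 : IntervalIntegrable (fun t => X' (y + t)) volume 0 δ' :=
        bint (hX'.comp (by fun_prop)) (fun t => hB' _) 0 δ'
      rw [intervalIntegral.integral_sub (by simp) (i1.const_mul _), intervalIntegral.integral_const,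
        intervalIntegral.integral_const_mul, Mv_eq, smul_eq_mul, sub_zero]
      field_simp
    simp only [e1]
    rw [intervalIntegral.integral_div]
    congr 1
    rw [intervalIntegral.integral_of_le huv, intervalIntegral.integral_of_le hδ'.le]
    simp only [intervalIntegral.integral_of_le huv, intervalIntegral.integral_of_le hδ'.le]
    apply MeasureTheory.integral_integral_swap
    have hm : Measurable (Function.uncurry fun y t => D y * X' y - D y * X' (y + t)) := by
      unfold Function.uncurry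
      exact ((hDm.comp measurable_fst).mul (hX'.comp measurable_fst)).sub
        ((hDm.comp measurable_fst).mul (hX'.comp (measurable_fst.add measurable_snd)))
    refine Integrable.of_bound hm.aestronglyMeasurable (4 * B * B) (Eventually.of_forall fun p => ?_)
    rw [Real.norm_eq_abs]
    unfold Function.uncurry
    have h1 := abs_sub (D p.1 * X' p.1) (D p.1 * X' (p.1 + p.2))
    have h2 := hprodb p.2 p.1
    have h3 : |D p.1 * X' p.1| ≤ 2 * B * B := by
      rw [abs_mul]
      exact mul_le_mul (hDb _) (hB' _) (abs_nonneg _) (by linarith)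
    linarith
  have e : ∫ y in u..v, (X y - Mv X δ y) * (X' y - Mv X' δ' y) =
      ∫ y in u..v, D y * (X' y - Mv X' δ' y) := by rw [hD]
  rw [e, hfub, abs_div, abs_of_pos hδ', div_le_iff₀ hδ', ← hK]
  have h := intervalIntegral.norm_integral_le_of_norm_le_const (a := 0) (b := δ')
    (f := fun t => ∫ y in u..v, (D y * X' y - D y * X' (y + t))) (C := δ' * K) (fun t ht => by
      rw [uIoc_of_le hδ'.le] at ht
      rw [Real.norm_eq_abs]
      exact (hJ t ht.1.le (ht.2.trans hδ1)).trans (mul_le_mul_of_nonneg_right ht.2 hK0))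
  rw [Real.norm_eq_abs, sub_zero, abs_of_pos hδ'] at h
  exact h

end Pool.Agent.R306.LogCov
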