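import Pool.Agent.R306.LogAE
import Pool.Agent.R306.LogCov

/-!
Weighted averages of a bounded function with uniform means in windows, along almost every sequence
`exp (a n * y + b n)`.
-/

set_option autoImplicit false

open MeasureTheory Filter Topology Set Real
open scoped ENNReal

namespace Pool.Agent.R306.LogLaw

open Pool.Agent.R306.LogCov Pool.Agent.R306.LogAE

/-- small means in all windows `[R, R + H]`, `R ^ (3/4) ≤ H ≤ R` -/
def SmallMeans (g : ℝ → ℝ) : Prop := ∀ η : ℝ, 0 < η → ∃ R₀ : ℝ, ∀ R : ℝ, R₀ ≤ R → ∀ H : ℝ,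
  R ^ (3 / 4 : ℝ) ≤ H → H ≤ R → |∫ r in R..(R + H), g r| ≤ η * H

/-- polynomial bound for the variation -/
def PolyVar (g : ℝ → ℝ) : Prop := ∃ C : ℝ, 1 ≤ C ∧ ∀ T : ℝ, 1 ≤ T → ∃ Φ : ℝ → ℝ,
  MonotoneOn Φ (Icc 1 T) ∧ Φ T - Φ 1 ≤ C * T ^ C ∧
  ∀ r ∈ Icc 1 T, ∀ r' ∈ Icc 1 T, r ≤ r' → |g r' - g r| ≤ Φ r' - Φ r

/-- the function of the parameter -/
noncomputable def Xf (g : ℝ → ℝ) (a b y : ℝ) : ℝ := g (Real.exp (a * y + b))

lemma Xf_meas {g : ℝ → ℝ} (hg : Measurable g) (a b : ℝ) : Measurable (Xf g a b) :=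
  hg.comp (by fun_prop)

/-- the average over a window of the parameter -/
lemma mean_small {g : ℝ → ℝ} (hg : Measurable g) {B : ℝ} (hB : ∀ r, |g r| ≤ B) {a b y δ η : ℝ}
    (ha : 1 ≤ a) (hδ : 0 < δ) (haδ : a * δ ≤ 1 / 2) (hη : 0 ≤ η)
    (hW : |∫ r in (Real.exp (a * y + b))..(Real.exp (a * y + b) + (Real.exp (a * δ) - 1) *
      Real.exp (a * y + b)), g r| ≤ η * ((Real.exp (a * δ) - 1) * Real.exp (a * y + b))) :
    |Mv (Xf g a b) δ y| ≤ 2 * η + 4 * B * (a * δ) := by
  have ha0 : 0 < a := by linarith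
  have hB0 : 0 ≤ B := (abs_nonneg _).trans (hB 0)
  obtain ⟨R, hR⟩ : ∃ R : ℝ, R = Real.exp (a * y + b) := ⟨_, rfl⟩
  have hR0 : 0 < R := by rw [hR]; exact Real.exp_pos _
  obtain ⟨h, hh⟩ : ∃ h : ℝ, h = Real.exp (a * δ) - 1 := ⟨_, rfl⟩
  have haδ0 : 0 < a * δ := by positivity
  have hh0 : 0 < h := by
    rw [hh]; linarith [Real.add_one_lt_exp haδ0.ne']
  have hh1 : h ≤ 2 * (a * δ) := by
    rw [hh]
    have h1 := Real.exp_bound' haδ0.le (by linarith) (n := 1) one_pos
    simp at h1
    nlinarith
  have hh2 : h ≤ 1 := by linarith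
  rw [← hR, ← hh] at hW
  -- change of variables
  have hcv : ∫ s in y..(y + δ), Xf g a b s = (∫ r in R..(R + h * R), g r / r) / a := by
    have hRh : R + h * R = Real.exp (a * (y + δ) + b) := by
      rw [hh, hR]
      have : a * (y + δ) + b = (a * y + b) + a * δ := by ring
      rw [this, Real.exp_add (a * y + b) (a * δ)]; ring
    have himg : (fun s => Real.exp (a * s + b)) '' (Ioc y (y + δ)) = Ioc R (R + h * R) := by
      ext x
      constructor
      · rintro ⟨s, hs, rfl⟩
        constructor
        · rw [hR]; apply Real.exp_lt_exp.2; nlinarith [hs.1]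
        · rw [hRh]; apply Real.exp_le_exp.2; nlinarith [hs.2]
      · rintro ⟨h1, h2⟩
        have hx0 : 0 < x := hR0.trans h1
        refine ⟨(Real.log x - b) / a, ⟨?_, ?_⟩, ?_⟩
        · rw [lt_div_iff₀ ha0]
          have := (Real.lt_log_iff_exp_lt hx0).2 (by rw [hR] at h1; exact h1)
          linarith
        · rw [div_le_iff₀ ha0]
          have := (Real.log_le_iff_le_exp hx0).2 (by rw [hRh] at h2; exact h2)
          linarith
        · dsimp only
          rw [mul_div_cancel₀ _ ha0.ne', sub_add_cancel, Real.exp_log hx0]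
    have hder : ∀ s ∈ Ioc y (y + δ), HasDerivWithinAt (fun s => Real.exp (a * s + b))
        (a * Real.exp (a * s + b)) (Ioc y (y + δ)) s := by
      intro s _
      have h1 : HasDerivAt (fun s => a * s + b) a s := by
        simpa using ((hasDerivAt_id s).const_mul a).add_const b
      have h2 := h1.exp
      rw [mul_comm] at h2
      exact h2.hasDerivWithinAt
    have hinj : InjOn (fun s => Real.exp (a * s + b)) (Ioc y (y + δ)) := by
      intro s _ t _ hst
      have h1 := Real.exp_injective hst
      have h2 : a * s = a * t := by linarith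
      exact mul_left_cancel₀ ha0.ne' h2
    have h1 := MeasureTheory.integral_image_eq_integral_abs_deriv_smul measurableSet_Ioc hder hinj
      (fun r => g r / r)
    rw [himg] at h1
    rw [intervalIntegral.integral_of_le (by linarith), intervalIntegral.integral_of_le (by nlinarith), h1,
      ← integral_div]
    congr 1
    funext s
    have hp := Real.exp_pos (a * s + b)
    rw [smul_eq_mul, abs_of_pos (by positivity)]
    unfold Xf
    field_simp
  have hgi : ∀ p q, IntervalIntegrable g volume p q := fun p q => bint hg hB p q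
  have hRR : R ≤ R + h * R := by nlinarith
  have i1 : IntervalIntegrable (fun r => g r / r) volume R (R + h * R) := by
    rw [intervalIntegrable_iff_integrableOn_Ioc_of_le hRR]
    refine Integrable.of_bound (hg.div measurable_id).aestronglyMeasurable (B / R) ?_
    rw [ae_restrict_iff' measurableSet_Ioc]
    refine Eventually.of_forall fun r hr => ?_
    have hr0 : 0 < r := hR0.trans hr.1
    rw [Real.norm_eq_abs]
    change |g r / r| ≤ B / R
    rw [abs_div, abs_of_pos hr0]
    calc |g r| / r ≤ B / r := div_le_div_of_nonneg_right (hB r) hr0.le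
      _ ≤ B / R := div_le_div_of_nonneg_left hB0 hR0 hr.1.le
  have h2 : |∫ r in R..(R + h * R), g r / r| ≤ η * h + B * h ^ 2 := by
    have e1 : ∫ r in R..(R + h * R), g r / r = (∫ r in R..(R + h * R), g r) / R +
        ∫ r in R..(R + h * R), (g r / r - g r / R) := by
      rw [intervalIntegral.integral_sub i1 ((hgi _ _).div_const R), intervalIntegral.integral_div]
      ring
    have h3 : |∫ r in R..(R + h * R), (g r / r - g r / R)| ≤ (B * h / R) * (h * R) := by
      have h4 := intervalIntegral.norm_integral_le_of_norm_le_const (a := R) (b := R + h * R)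
        (f := fun r => g r / r - g r / R) (C := B * h / R) (fun r hr => by
          rw [uIoc_of_le hRR] at hr
          have hr0 : 0 < r := hR0.trans hr.1
          rw [Real.norm_eq_abs]
          have e2 : g r / r - g r / R = g r * ((R - r) / (r * R)) := by field_simp
          have e3 : |R - r| = r - R := by rw [abs_sub_comm, abs_of_nonneg (by linarith [hr.1])]
          rw [e2, abs_mul, abs_div, abs_of_pos (by positivity : 0 < r * R), e3]
          calc |g r| * ((r - R) / (r * R)) ≤ B * ((h * R) / (R * R)) := by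
                apply mul_le_mul (hB r) _ (div_nonneg (by linarith [hr.1]) (by positivity)) hB0
                apply div_le_div₀ (by positivity) (by linarith [hr.2]) (by positivity)
                exact mul_le_mul_of_nonneg_right hr.1.le hR0.le
            _ = B * h / R := by field_simp)
      have e4 : |R + h * R - R| = h * R := by
        rw [add_sub_cancel_left, abs_of_nonneg (by positivity)]
      rw [Real.norm_eq_abs, e4] at h4
      exact h4
    rw [e1]
    refine (abs_add_le _ _).trans ?_
    rw [abs_div, abs_of_pos hR0]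
    have h5 : |∫ r in R..(R + h * R), g r| / R ≤ η * h := by
      rw [div_le_iff₀ hR0]
      linarith
    have h6 : (B * h / R) * (h * R) = B * h ^ 2 := by field_simp
    rw [h6] at h3
    linarith
  unfold Mv
  rw [hcv, abs_div, abs_div, abs_of_pos ha0, abs_of_pos hδ, div_div, div_le_iff₀ haδ0]
  refine h2.trans ?_
  have q1 : η * h ≤ η * (2 * (a * δ)) := mul_le_mul_of_nonneg_left hh1 hη
  have q2 : B * h ^ 2 ≤ B * (2 * (a * δ)) ^ 2 :=
    mul_le_mul_of_nonneg_left (pow_le_pow_left₀ hh0.le hh1 2) hB0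
  nlinarith

/-- **weighted averages along almost every sequence**, on an interval of the parameter -/
theorem ae_interval {g : ℝ → ℝ} (hg : Measurable g) {B : ℝ} (hB : ∀ r, |g r| ≤ B)
    (hW : SmallMeans g) (hL : PolyVar g) {a b : ℕ → ℝ} (ha : ∀ n, 1 ≤ a n) (hb : ∀ n, 0 ≤ b n)
    (hmono : Monotone fun n => a n + b n) (hinf : Tendsto (fun n => a n + b n) atTop atTop)
    {C₀ : ℝ} (hC₀ : ∀ n, a (n + 1) + b (n + 1) ≤ C₀ * (a n + b n)) {u v : ℝ} (hu : 0 < u) (huv : u ≤ v) :
    ∀ᵐ y : ℝ, y ∈ Ioc u v → Tendsto (fun N => (∑ n ∈ Finset.range N,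
      (Real.log (a (n + 1) + b (n + 1)) - Real.log (a n + b n)) * Xf g (a n) (b n) y) /
      ∑ n ∈ Finset.range N, (Real.log (a (n + 1) + b (n + 1)) - Real.log (a n + b n)))
      atTop (𝓝 0) := by
  obtain ⟨C, hC1, hCΦ⟩ := hL
  have hB0 : 0 ≤ B := (abs_nonneg _).trans (hB 0)
  set ζ : ℕ → ℝ := fun n => a n + b n with hζ
  have hζ1 : ∀ n, 1 ≤ ζ n := fun n => by rw [hζ]; dsimp only; linarith [ha n, hb n]
  have hζ0 : ∀ n, 0 < ζ n := fun n => lt_of_lt_of_le one_pos (hζ1 n)
  set w : ℕ → ℝ := fun n => Real.log (ζ (n + 1)) - Real.log (ζ n) with hw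
  have hw0 : ∀ n, 0 ≤ w n := by
    intro n
    rw [hw]; dsimp only
    have := Real.log_le_log (hζ0 n) (hmono (Nat.le_succ n))
    linarith
  have hC₀1 : 1 ≤ C₀ := by
    have h1 := hC₀ 0
    have h2 := hmono (Nat.le_succ 0)
    have h3 := hζ0 0
    by_contra hcon
    push Not at hcon
    have h4 : C₀ * (a 0 + b 0) < 1 * (a 0 + b 0) := mul_lt_mul_of_pos_right hcon h3
    have h5 : a 0 + b 0 ≤ a (0 + 1) + b (0 + 1) := h2
    linarith
  have hwc : ∀ n, w n ≤ Real.log C₀ := by
    intro n
    rw [hw]; dsimp only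
    have h1 := Real.log_le_log (hζ0 (n + 1)) (hC₀ n)
    rw [Real.log_mul (by linarith) (hζ0 n).ne'] at h1
    linarith
  have hLsum : ∀ N, ∑ n ∈ Finset.range N, w n = Real.log (ζ N) - Real.log (ζ 0) := by
    intro N
    rw [hw]
    exact Finset.sum_range_sub (fun n => Real.log (ζ n)) N
  have hLinf : Tendsto (fun N => ∑ n ∈ Finset.range N, w n) atTop atTop := by
    simp only [hLsum]
    exact tendsto_atTop_add_const_right _ _ (Real.tendsto_log_atTop.comp hinf)
  set κ : ℝ := min u 1 with hκ
  have hκ0 : 0 < κ := lt_min hu one_pos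
  have hκu : κ ≤ u := min_le_left _ _
  have hκ1 : κ ≤ 1 := min_le_right _ _
  have hzlow : ∀ n y, u ≤ y → κ * ζ n ≤ a n * y + b n := by
    intro n y hy
    rw [hζ]; dsimp only
    have h1 : a n * κ ≤ a n * y := mul_le_mul_of_nonneg_left (hκu.trans hy) (by linarith [ha n])
    have h2 : κ * b n ≤ 1 * b n := mul_le_mul_of_nonneg_right hκ1 (hb n)
    nlinarith
  set lam : ℝ := v + 1 with hlam
  have hlam1 : 1 ≤ lam := by rw [hlam]; linarith
  have hzup : ∀ n y, y ≤ v + 1 → a n * y + b n ≤ lam * ζ n := by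
    intro n y hy
    rw [hζ]; dsimp only
    have h1 : a n * y ≤ a n * lam := mul_le_mul_of_nonneg_left hy (by linarith [ha n])
    have h2 : 1 * b n ≤ lam * b n := mul_le_mul_of_nonneg_right hlam1 (hb n)
    nlinarith
  set δ : ℕ → ℝ := fun n => Real.exp (-(κ * ζ n / 4)) with hδ
  have hδ0 : ∀ n, 0 < δ n := fun n => Real.exp_pos _
  have hδ1 : ∀ n, δ n ≤ 1 := by
    intro n
    rw [hδ]; dsimp only
    rw [Real.exp_le_one_iff]
    have := hζ0 n
    have : 0 < κ * ζ n := by positivity
    linarith
  set X : ℕ → ℝ → ℝ := fun n => Xf g (a n) (b n) with hX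
  have hXm : ∀ n, Measurable (X n) := fun n => Xf_meas hg _ _
  have hXb : ∀ n y, |X n y| ≤ B := fun n y => hB _
  set D : ℕ → ℝ → ℝ := fun n y => X n y - Mv (X n) (δ n) y with hD
  have hDm : ∀ n, Measurable (D n) := fun n => (hXm n).sub (Mv_meas (hXm n) (hXb n) _)
  have hDb : ∀ n y, |D n y| ≤ 2 * B := by
    intro n y
    rw [hD]; dsimp only
    have h1 := abs_sub (X n y) (Mv (X n) (δ n) y)
    have h2 := Mv_bound (hXb n) (hδ0 n) y
    linarith [hXb n y]
  -- correlations
  set K₂ : ℝ := C * lam + κ / 4 with hK₂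
  have hK₂0 : 0 < K₂ := by positivity
  set K₁ : ℝ := B * C + 2 * B ^ 2 * (v - u) + 4 * B ^ 2 with hK₁
  have hvu : 0 ≤ v - u := by linarith
  have hK₁0 : 0 ≤ K₁ := by positivity
  have hcov : ∀ n n', |∫ y in u..v, D n y * D n' y| ≤ K₁ * Real.exp (K₂ * ζ n - κ * ζ n' / 4) := by
    intro n n'
    set T : ℝ := Real.exp (a n * (v + 1) + b n) with hT
    have hz0 : ∀ y, u ≤ y → 0 ≤ a n * y + b n := fun y hy =>
      le_trans (by have := hζ0 n; positivity) (hzlow n y hy)
    have hT1 : 1 ≤ T := Real.one_le_exp (hz0 (v + 1) (by linarith))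
    obtain ⟨Φ, hΦ1, hΦ2, hΦ3⟩ := hCΦ T hT1
    have hmem : ∀ y ∈ Icc u (v + 1), Real.exp (a n * y + b n) ∈ Icc 1 T := by
      intro y hy
      refine ⟨Real.one_le_exp (hz0 y hy.1), Real.exp_le_exp.2 ?_⟩
      have := mul_le_mul_of_nonneg_left hy.2 (show 0 ≤ a n by linarith [ha n])
      linarith
    have hexpm : ∀ y y', y ≤ y' → Real.exp (a n * y + b n) ≤ Real.exp (a n * y' + b n) := by
      intro y y' hyy
      apply Real.exp_le_exp.2
      have := mul_le_mul_of_nonneg_left hyy (show 0 ≤ a n by linarith [ha n])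
      linarith
    have h := cov (X := X n) (X' := X n') (Ψ := fun y => Φ (Real.exp (a n * y + b n))) (hXm n) (hXm n')
      (hXb n) (hXb n') huv (fun y hy y' hy' hyy => hΦ1 (hmem y hy) (hmem y' hy') (hexpm y y' hyy))
      (fun y hy t ht => hΦ3 _ (hmem y ⟨hy.1, by linarith [hy.2]⟩) _
        (hmem (y + t) ⟨by linarith [hy.1, ht.1], by linarith [hy.2, ht.2]⟩)
        (hexpm y (y + t) (by linarith [ht.1]))) (hδ0 n) (hδ0 n') (hδ1 n')
    refine h.trans ?_
    have h1 : Φ (Real.exp (a n * (v + 1) + b n)) - Φ (Real.exp (a n * u + b n)) ≤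
        C * Real.exp (C * lam * ζ n) := by
      have h2 : Φ 1 ≤ Φ (Real.exp (a n * u + b n)) :=
        hΦ1 ⟨le_rfl, hT1⟩ (hmem u ⟨le_rfl, by linarith⟩) (hmem u ⟨le_rfl, by linarith⟩).1
      have h3 : T ^ C ≤ Real.exp (C * lam * ζ n) := by
        rw [hT, ← Real.exp_mul]
        apply Real.exp_le_exp.2
        have := mul_le_mul_of_nonneg_right (hzup n (v + 1) le_rfl) (show 0 ≤ C by linarith)
        linarith
      have h4 : C * T ^ C ≤ C * Real.exp (C * lam * ζ n) :=
        mul_le_mul_of_nonneg_left h3 (by linarith)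
      rw [← hT]
      linarith
    have hE1 : Real.exp (C * lam * ζ n) ≤ Real.exp (K₂ * ζ n) := by
      apply Real.exp_le_exp.2
      rw [hK₂]
      have := hζ0 n
      have h5 : 0 ≤ κ / 4 * ζ n := by positivity
      nlinarith
    have hE2 : 1 / δ n ≤ Real.exp (K₂ * ζ n) := by
      rw [hδ]; dsimp only
      rw [one_div, ← Real.exp_neg, neg_neg]
      apply Real.exp_le_exp.2
      rw [hK₂]
      have := hζ0 n
      have h5 : 0 ≤ C * lam * ζ n := by positivity
      nlinarith
    have hE3 : 1 ≤ Real.exp (K₂ * ζ n) := Real.one_le_exp (by have := hζ0 n; positivity)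
    have h6 : B * (Φ (Real.exp (a n * (v + 1) + b n)) - Φ (Real.exp (a n * u + b n))) +
        2 * B ^ 2 * (v - u) / δ n + 4 * B ^ 2 ≤ K₁ * Real.exp (K₂ * ζ n) := by
      have q1 : B * (Φ (Real.exp (a n * (v + 1) + b n)) - Φ (Real.exp (a n * u + b n))) ≤
          B * C * Real.exp (K₂ * ζ n) := by
        calc _ ≤ B * (C * Real.exp (C * lam * ζ n)) := mul_le_mul_of_nonneg_left h1 hB0
          _ ≤ B * (C * Real.exp (K₂ * ζ n)) := by
              apply mul_le_mul_of_nonneg_left _ hB0
              exact mul_le_mul_of_nonneg_left hE1 (by linarith)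
          _ = _ := by ring
      have q2 : 2 * B ^ 2 * (v - u) / δ n ≤ 2 * B ^ 2 * (v - u) * Real.exp (K₂ * ζ n) := by
        rw [div_eq_mul_one_div]
        exact mul_le_mul_of_nonneg_left hE2 (by positivity)
      have q3 : 4 * B ^ 2 ≤ 4 * B ^ 2 * Real.exp (K₂ * ζ n) :=
        le_mul_of_one_le_right (by positivity) hE3
      rw [hK₁]
      nlinarith
    calc _ ≤ δ n' * (K₁ * Real.exp (K₂ * ζ n)) := mul_le_mul_of_nonneg_left h6 (hδ0 n').le
      _ = K₁ * (Real.exp (K₂ * ζ n) * Real.exp (-(κ * ζ n' / 4))) := by rw [hδ]; ring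
      _ = K₁ * Real.exp (K₂ * ζ n - κ * ζ n' / 4) := by
          rw [← Real.exp_add]; congr 2
  have hcov0 : ∀ n n', |∫ y in u..v, D n y * D n' y| ≤ 4 * B ^ 2 * (v - u) := by
    intro n n'
    have h := intervalIntegral.norm_integral_le_of_norm_le_const (a := u) (b := v)
      (f := fun y => D n y * D n' y) (C := 4 * B ^ 2) (fun y _ => by
        rw [Real.norm_eq_abs, abs_mul]
        calc |D n y| * |D n' y| ≤ (2 * B) * (2 * B) :=
              mul_le_mul (hDb n y) (hDb n' y) (abs_nonneg _) (by linarith)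
          _ = 4 * B ^ 2 := by ring)
    rw [Real.norm_eq_abs, abs_of_nonneg hvu] at h
    exact h
  set Q : ℝ := 8 * K₂ / κ with hQ
  have hQ1 : 1 ≤ Q := by
    rw [hQ, le_div_iff₀ hκ0, hK₂]
    have : 1 ≤ C * lam := one_le_mul_of_one_le_of_one_le hC1 hlam1
    linarith
  -- the majorant
  obtain ⟨M₃, hM₃⟩ : ∃ M₃ : ℝ, ∀ x : ℝ, 1 ≤ x → Real.exp (-(κ * x / 8)) * Real.log (C₀ * x) ≤ M₃ := by
    refine ⟨Real.log C₀ + 8 / κ, fun x hx => ?_⟩
    have hx0 : 0 < x := by linarith
    rw [Real.log_mul (by linarith) hx0.ne', mul_add]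
    have h1 : Real.exp (-(κ * x / 8)) ≤ 1 := by
      rw [Real.exp_le_one_iff]
      have : 0 < κ * x := by positivity
      linarith
    have h2 : Real.exp (-(κ * x / 8)) * Real.log C₀ ≤ 1 * Real.log C₀ :=
      mul_le_mul_of_nonneg_right h1 (Real.log_nonneg hC₀1)
    have h3 : Real.exp (-(κ * x / 8)) * Real.log x ≤ 8 / κ := by
      have h4 : Real.log x ≤ x := (Real.log_le_sub_one_of_pos hx0).trans (by linarith)
      have h5 : κ * x / 8 ≤ Real.exp (κ * x / 8) := by linarith [Real.add_one_le_exp (κ * x / 8)]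
      have h6 : x ≤ 8 / κ * Real.exp (κ * x / 8) := by
        have : x = 8 / κ * (κ * x / 8) := by field_simp
        calc x = 8 / κ * (κ * x / 8) := this
          _ ≤ _ := mul_le_mul_of_nonneg_left h5 (by positivity)
      calc Real.exp (-(κ * x / 8)) * Real.log x ≤ Real.exp (-(κ * x / 8)) * (8 / κ * Real.exp (κ * x / 8)) :=
            mul_le_mul_of_nonneg_left (h4.trans h6) (Real.exp_pos _).le
        _ = 8 / κ * (Real.exp (-(κ * x / 8)) * Real.exp (κ * x / 8)) := by ring
        _ = 8 / κ := by rw [← Real.exp_add]; simp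
    linarith
  have hM₃0 : 0 ≤ M₃ := by
    have h1 := hM₃ 1 le_rfl
    refine le_trans ?_ h1
    exact mul_nonneg (Real.exp_pos _).le (Real.log_nonneg (by linarith))
  set f : ℕ → ℕ → ℝ := fun n n' => if n ≤ n' then (if ζ n' < Q * ζ n then 4 * B ^ 2 * (v - u) else
    K₁ * Real.exp (-(κ * ζ n' / 8))) else 0 with hf
  have hf0 : ∀ n n', 0 ≤ f n n' := by
    intro n n'
    rw [hf]; dsimp only
    split_ifs <;> positivity
  have hcovf : ∀ n n', |∫ y in u..v, D n y * D n' y| ≤ f n n' + f n' n := by
    have key : ∀ n n', n ≤ n' → |∫ y in u..v, D n y * D n' y| ≤ f n n' := by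
      intro n n' hnn
      rw [hf]; dsimp only
      rw [if_pos hnn]
      split_ifs with h1
      · exact hcov0 n n'
      · push Not at h1
        refine (hcov n n').trans ?_
        apply mul_le_mul_of_nonneg_left _ hK₁0
        apply Real.exp_le_exp.2
        have h2 : K₂ * ζ n ≤ κ * ζ n' / 8 := by
          rw [hQ, div_mul_eq_mul_div, div_le_iff₀ hκ0] at h1
          linarith
        linarith
    intro n n'
    rcases le_total n n' with h | h
    · exact (key n n' h).trans (by linarith [hf0 n' n])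
    · have e : ∫ y in u..v, D n y * D n' y = ∫ y in u..v, D n' y * D n y := by
        congr 1; funext y; ring
      rw [e]
      exact (key n' n h).trans (by linarith [hf0 n n'])
  set K₄ : ℝ := 4 * B ^ 2 * (v - u) * (Real.log C₀ + Real.log Q) + K₁ * M₃ with hK₄
  have hrow : ∀ n' N, ∑ n ∈ Finset.range N, w n * f n n' ≤ K₄ := by
    intro n' N
    classical
    have h1 : ∑ n ∈ Finset.range N, w n * f n n' ≤
        ∑ n ∈ (Finset.range (n' + 1)).filter (fun n => ζ n' < Q * ζ n), w n * (4 * B ^ 2 * (v - u)) +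
        ∑ n ∈ Finset.range (n' + 1), w n * (K₁ * Real.exp (-(κ * ζ n' / 8))) := by
      rw [Finset.sum_filter]
      have h2 : ∑ n ∈ Finset.range N, w n * f n n' ≤ ∑ n ∈ Finset.range (n' + 1), w n * f n n' := by
        calc ∑ n ∈ Finset.range N, w n * f n n'
            ≤ ∑ n ∈ Finset.range (max N (n' + 1)), w n * f n n' :=
              Finset.sum_le_sum_of_subset_of_nonneg (Finset.range_mono (le_max_left _ _))
                fun n _ _ => mul_nonneg (hw0 n) (hf0 n n')
          _ = ∑ n ∈ Finset.range (n' + 1), w n * f n n' := by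
              symm
              apply Finset.sum_subset (Finset.range_mono (le_max_right _ _))
              intro n _ hn
              rw [Finset.mem_range] at hn
              have : f n n' = 0 := by
                rw [hf]; dsimp only
                rw [if_neg (by omega)]
              rw [this, mul_zero]
      refine h2.trans ?_
      rw [← Finset.sum_add_distrib]
      apply Finset.sum_le_sum
      intro n hn
      rw [Finset.mem_range] at hn
      rw [hf]; dsimp only
      rw [if_pos (by omega)]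
      have q1 : 0 ≤ w n * (K₁ * Real.exp (-(κ * ζ n' / 8))) :=
        mul_nonneg (hw0 n) (by positivity)
      split_ifs with h3
      · linarith
      · linarith
    refine h1.trans ?_
    have h2 : ∑ n ∈ (Finset.range (n' + 1)).filter (fun n => ζ n' < Q * ζ n), w n ≤
        Real.log C₀ + Real.log Q := by
      by_cases hne : ((Finset.range (n' + 1)).filter (fun n => ζ n' < Q * ζ n)).Nonempty
      swap
      · rw [Finset.not_nonempty_iff_eq_empty] at hne
        rw [hne, Finset.sum_empty]
        exact add_nonneg (Real.log_nonneg hC₀1) (Real.log_nonneg hQ1)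
      set n₀ := ((Finset.range (n' + 1)).filter (fun n => ζ n' < Q * ζ n)).min' hne with hn₀
      have hn₀m := Finset.min'_mem _ hne
      rw [← hn₀, Finset.mem_filter, Finset.mem_range] at hn₀m
      have hsub : (Finset.range (n' + 1)).filter (fun n => ζ n' < Q * ζ n) ⊆
          Finset.Ico n₀ (n' + 1) := by
        intro n hn
        have h4 := Finset.min'_le _ n hn
        rw [Finset.mem_filter, Finset.mem_range] at hn
        exact Finset.mem_Ico.2 ⟨h4, hn.1⟩
      refine (Finset.sum_le_sum_of_subset_of_nonneg hsub fun n _ _ => hw0 n).trans ?_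
      rw [Finset.sum_Ico_eq_sub _ (by omega), hLsum, hLsum]
      have h5 := Real.log_le_log (hζ0 (n' + 1)) (hC₀ n')
      rw [Real.log_mul (by linarith) (hζ0 n').ne'] at h5
      have h6 := Real.log_le_log (hζ0 n') hn₀m.2.le
      rw [Real.log_mul (by linarith) (hζ0 n₀).ne'] at h6
      linarith
    have h3 : ∑ n ∈ Finset.range (n' + 1), w n ≤ Real.log (C₀ * ζ n') := by
      rw [hLsum]
      have h5 := Real.log_le_log (hζ0 (n' + 1)) (hC₀ n')
      have h6 := Real.log_nonneg (hζ1 0)
      linarith
    rw [← Finset.sum_mul, ← Finset.sum_mul, hK₄]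
    have h4 : (∑ n ∈ (Finset.range (n' + 1)).filter (fun n => ζ n' < Q * ζ n), w n) *
        (4 * B ^ 2 * (v - u)) ≤ (Real.log C₀ + Real.log Q) * (4 * B ^ 2 * (v - u)) :=
      mul_le_mul_of_nonneg_right h2 (by positivity)
    have h5 : (∑ n ∈ Finset.range (n' + 1), w n) * (K₁ * Real.exp (-(κ * ζ n' / 8))) ≤ K₁ * M₃ := by
      calc _ ≤ Real.log (C₀ * ζ n') * (K₁ * Real.exp (-(κ * ζ n' / 8))) :=
            mul_le_mul_of_nonneg_right h3 (by positivity)
        _ = K₁ * (Real.exp (-(κ * ζ n' / 8)) * Real.log (C₀ * ζ n')) := by ring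
        _ ≤ K₁ * M₃ := mul_le_mul_of_nonneg_left (hM₃ _ (hζ1 n')) hK₁0
    linarith
  have hK₄0 : 0 ≤ K₄ := by
    rw [hK₄]
    have := add_nonneg (Real.log_nonneg hC₀1) (Real.log_nonneg hQ1)
    positivity
  -- the variance
  have hvar : ∀ N, ∫ y in u..v, (∑ n ∈ Finset.range N, w n * D n y) ^ 2 ≤
      (2 * K₄) * ((∑ n ∈ Finset.range N, w n) + 1) := by
    intro N
    have hprodi : ∀ n n', IntervalIntegrable (fun y => D n y * D n' y) volume u v := by
      intro n n'
      refine bint ((hDm n).mul (hDm n')) (B := 4 * B ^ 2) (fun y => ?_) u v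
      change |D n y * D n' y| ≤ _
      rw [abs_mul]
      calc |D n y| * |D n' y| ≤ (2 * B) * (2 * B) :=
            mul_le_mul (hDb n y) (hDb n' y) (abs_nonneg _) (by linarith)
        _ = 4 * B ^ 2 := by ring
    have e1 : ∫ y in u..v, (∑ n ∈ Finset.range N, w n * D n y) ^ 2 =
        ∑ n ∈ Finset.range N, ∑ n' ∈ Finset.range N, w n * w n' * ∫ y in u..v, D n y * D n' y := by
      have e2 : ∀ y, (∑ n ∈ Finset.range N, w n * D n y) ^ 2 =
          ∑ n ∈ Finset.range N, ∑ n' ∈ Finset.range N, w n * w n' * (D n y * D n' y) := by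
        intro y
        rw [sq, Finset.sum_mul_sum]
        refine Finset.sum_congr rfl fun n _ => Finset.sum_congr rfl fun n' _ => ?_
        ring
      simp only [e2]
      rw [intervalIntegral.integral_finset_sum]
      · refine Finset.sum_congr rfl fun n _ => ?_
        rw [intervalIntegral.integral_finset_sum]
        · refine Finset.sum_congr rfl fun n' _ => ?_
          rw [intervalIntegral.integral_const_mul]
        · intro n' _
          exact (hprodi n n').const_mul _
      · intro n _
        have h2 := IntervalIntegrable.sum (Finset.range N) (f := fun n' y => w n * w n' * (D n y * D n' y))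
          (fun n' _ => (hprodi n n').const_mul _)
        refine h2.congr ?_
        intro y _
        simp
    rw [e1]
    calc ∑ n ∈ Finset.range N, ∑ n' ∈ Finset.range N, w n * w n' * ∫ y in u..v, D n y * D n' y
        ≤ ∑ n ∈ Finset.range N, ∑ n' ∈ Finset.range N, w n * w n' * (f n n' + f n' n) := by
          apply Finset.sum_le_sum
          intro n _
          apply Finset.sum_le_sum
          intro n' _
          exact mul_le_mul_of_nonneg_left ((le_abs_self _).trans (hcovf n n'))
            (mul_nonneg (hw0 n) (hw0 n'))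
      _ = (∑ n' ∈ Finset.range N, w n' * ∑ n ∈ Finset.range N, w n * f n n') +
          ∑ n ∈ Finset.range N, w n * ∑ n' ∈ Finset.range N, w n' * f n' n := by
          have e3 : ∑ n ∈ Finset.range N, ∑ n' ∈ Finset.range N, w n * w n' * (f n n' + f n' n) =
              (∑ n ∈ Finset.range N, ∑ n' ∈ Finset.range N, w n * w n' * f n n') +
              ∑ n ∈ Finset.range N, ∑ n' ∈ Finset.range N, w n * w n' * f n' n := by
            rw [← Finset.sum_add_distrib]
            refine Finset.sum_congr rfl fun n _ => ?_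
            rw [← Finset.sum_add_distrib]
            refine Finset.sum_congr rfl fun n' _ => ?_
            ring
          rw [e3, Finset.sum_comm]
          congr 1
          · refine Finset.sum_congr rfl fun n _ => ?_
            rw [Finset.mul_sum]
            refine Finset.sum_congr rfl fun n' _ => ?_
            ring
          · refine Finset.sum_congr rfl fun n _ => ?_
            rw [Finset.mul_sum]
            refine Finset.sum_congr rfl fun n' _ => ?_
            ring
      _ ≤ (∑ n' ∈ Finset.range N, w n' * K₄) + ∑ n ∈ Finset.range N, w n * K₄ := by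
          apply add_le_add
          · apply Finset.sum_le_sum
            intro n' _
            exact mul_le_mul_of_nonneg_left (hrow n' N) (hw0 n')
          · apply Finset.sum_le_sum
            intro n _
            exact mul_le_mul_of_nonneg_left (hrow n N) (hw0 n)
      _ = (2 * K₄) * (∑ n ∈ Finset.range N, w n) := by
          rw [← Finset.sum_mul]; ring
      _ ≤ _ := by
          apply mul_le_mul_of_nonneg_left (by linarith) (by positivity)
  have hae := ae_avg hDm hDb hw0 hwc hLinf huv hvar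
  -- the averages over small windows
  have hMsmall : ∀ η : ℝ, 0 < η → ∀ᶠ n in atTop, ∀ y, u ≤ y → |Mv (X n) (δ n) y| ≤ η := by
    intro η hη
    obtain ⟨R₀, hR₀⟩ := hW (η / 4) (by linarith)
    have h1 : Tendsto (fun x : ℝ => x * Real.exp (-(κ / 4) * x)) atTop (𝓝 0) := by
      have h2 := Real.tendsto_pow_mul_exp_neg_atTop_nhds_zero 1
      have h3 : Tendsto (fun x : ℝ => (κ / 4) * x) atTop atTop :=
        tendsto_id.const_mul_atTop (by positivity)
      have h4 := (h2.comp h3).const_mul (4 / κ)
      rw [mul_zero] at h4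
      refine h4.congr fun x => ?_
      simp only [Function.comp, pow_one]
      rw [neg_mul]
      field_simp
    have h2 : Tendsto (fun n => ζ n * Real.exp (-(κ / 4) * ζ n)) atTop (𝓝 0) := h1.comp hinf
    have hη2 : 0 < min (1 / 2) (η / (8 * B + 1)) := by positivity
    filter_upwards [h2.eventually (gt_mem_nhds hη2), (hinf.const_mul_atTop hκ0).eventually_ge_atTop
      (Real.log (max R₀ 1))] with n hn1 hn2 y hy
    have haδ : a n * δ n ≤ ζ n * Real.exp (-(κ / 4) * ζ n) := by
      rw [hδ]; dsimp only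
      have e : -(κ * ζ n / 4) = -(κ / 4) * ζ n := by ring
      rw [e]
      apply mul_le_mul_of_nonneg_right _ (Real.exp_pos _).le
      rw [hζ]; dsimp only
      linarith [hb n]
    have haδ1 : a n * δ n ≤ 1 / 2 := haδ.trans (hn1.le.trans (min_le_left _ _))
    have haδ2 : a n * δ n ≤ η / (8 * B + 1) := haδ.trans (hn1.le.trans (min_le_right _ _))
    have haδ0 : 0 < a n * δ n := mul_pos (by linarith [ha n]) (hδ0 n)
    set R := Real.exp (a n * y + b n) with hR
    have hRpos : 0 < R := Real.exp_pos _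
    have hRR : R₀ ≤ R := by
      have h3 : Real.log (max R₀ 1) ≤ a n * y + b n := hn2.trans (hzlow n y hy)
      rw [Real.log_le_iff_le_exp (lt_of_lt_of_le one_pos (le_max_right _ _))] at h3
      exact (le_max_left _ _).trans h3
    have hH1 : R ^ (3 / 4 : ℝ) ≤ (Real.exp (a n * δ n) - 1) * R := by
      have e1 : R ^ (3 / 4 : ℝ) = R ^ (-(1 / 4) : ℝ) * R := by
        rw [← Real.rpow_add_one hRpos.ne']; norm_num
      rw [e1]
      apply mul_le_mul_of_nonneg_right _ hRpos.le
      have h3 : R ^ (-(1 / 4) : ℝ) ≤ δ n := by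
        rw [hR, ← Real.exp_mul, hδ]
        apply Real.exp_le_exp.2
        have := hzlow n y hy
        linarith
      have h4 : δ n ≤ a n * δ n := le_mul_of_one_le_left (hδ0 n).le (ha n)
      linarith [Real.add_one_le_exp (a n * δ n)]
    have hH2 : (Real.exp (a n * δ n) - 1) * R ≤ R := by
      have h3 : Real.exp (a n * δ n) - 1 ≤ 1 := by
        have h5 := Real.exp_bound' haδ0.le (by linarith) (n := 1) one_pos
        simp at h5
        linarith
      calc _ ≤ 1 * R := mul_le_mul_of_nonneg_right h3 hRpos.le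
        _ = R := one_mul _
    have h5 := mean_small hg hB (ha n) (hδ0 n) haδ1 (by linarith : (0:ℝ) ≤ η / 4)
      (hR₀ R hRR _ hH1 hH2)
    refine h5.trans ?_
    have h6 : 4 * B * (a n * δ n) ≤ η / 2 := by
      have h7 : (a n * δ n) * (8 * B + 1) ≤ η := by
        rw [le_div_iff₀ (by positivity)] at haδ2
        exact haδ2
      nlinarith
    linarith
  filter_upwards [hae] with y hy hyI
  have h1 := hy hyI
  have h2 : Tendsto (fun N => (∑ n ∈ Finset.range N, w n * Mv (X n) (δ n) y) /
      ∑ n ∈ Finset.range N, w n) atTop (𝓝 0) := by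
    have hlo : (fun n => w n * Mv (X n) (δ n) y) =o[atTop] w := by
      rw [Asymptotics.isLittleO_iff]
      intro η hη
      filter_upwards [hMsmall η hη] with n hn
      rw [Real.norm_eq_abs, Real.norm_eq_abs, abs_mul, mul_comm]
      exact mul_le_mul_of_nonneg_right (hn y hyI.1.le) (abs_nonneg _)
    have h3 := hlo.sum_range hw0 hLinf
    exact h3.tendsto_div_nhds_zero
  have h3 := h1.add h2
  rw [add_zero] at h3
  refine h3.congr fun N => ?_
  rw [← add_div, ← Finset.sum_add_distrib]
  congr 1
  refine Finset.sum_congr rfl fun n _ => ?_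
  rw [hD]
  ring

end Pool.Agent.R306.LogLaw
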