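import Mathlib

/-!
Means in windows of a bounded function whose values at the translates of the integers have means.
-/

set_option autoImplicit false

open MeasureTheory Filter Topology Set Real
open scoped ENNReal

namespace Pool.Agent.R306.ShiftMean

lemma bint {X : ℝ → ℝ} (hX : Measurable X) {B : ℝ} (hB : ∀ y, |X y| ≤ B) (p q : ℝ) :
    IntervalIntegrable X volume p q := by
  rw [intervalIntegrable_iff, uIoc]
  refine Integrable.of_bound hX.aestronglyMeasurable B (Eventually.of_forall fun y => ?_)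
  rw [Real.norm_eq_abs]
  exact hB y

/-- **window means from the means at the translates of the integers** -/
theorem window_mean {G : ℝ → ℝ} (hG : Measurable G) {B : ℝ} (hB : ∀ r, |G r| ≤ B) {ℓ : ℝ → ℝ}
    (h : ∀ β ∈ Ioo (0:ℝ) 1, ∀ η : ℝ, 0 < η → ∃ N₀ : ℕ, ∀ N : ℕ, N₀ ≤ N → ∀ k : ℕ,
      (k : ℝ) ^ (5 / 8 : ℝ) ≤ N → |(∑ n ∈ Finset.Ico k (k + N), G ((n : ℝ) + β)) / N - ℓ β| ≤ η) :
    ∀ η : ℝ, 0 < η → ∃ R₀ : ℝ, ∀ R : ℝ, R₀ ≤ R → ∀ H : ℝ, R ^ (3 / 4 : ℝ) ≤ H → H ≤ R →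
      |(∫ r in R..(R + H), G r) - (∫ β in Ioo (0:ℝ) 1, ℓ β) * H| ≤ η * H := by
  intro η hη
  by_contra hcon
  push Not at hcon
  have hB0 : 0 ≤ B := (abs_nonneg _).trans (hB 0)
  obtain ⟨m, hm⟩ : ∃ m : ℝ, m = ∫ β in Ioo (0:ℝ) 1, ℓ β := ⟨_, rfl⟩
  rw [← hm] at hcon
  choose R hR H hH1 hH2 hv using fun j : ℕ => hcon (j + 10000)
  have hRinf : Tendsto R atTop atTop := by
    refine tendsto_atTop_mono (fun j => ?_) tendsto_natCast_atTop_atTop
    linarith [hR j]
  have hHinf : Tendsto H atTop atTop :=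
    tendsto_atTop_mono hH1 ((tendsto_rpow_atTop (by norm_num)).comp hRinf)
  have hR1 : ∀ j, 10000 ≤ R j := fun j => by
    have := hR j
    linarith [Nat.cast_nonneg (α := ℝ) j]
  have hHge : ∀ j, 1000 ≤ H j := by
    intro j
    refine le_trans ?_ (hH1 j)
    have h1 : ((10:ℝ) ^ 4) ^ (3 / 4 : ℝ) ≤ (R j) ^ (3 / 4 : ℝ) :=
      Real.rpow_le_rpow (by norm_num) (by norm_num; exact hR1 j) (by norm_num)
    have h2 : ((10:ℝ) ^ 4) ^ (3 / 4 : ℝ) = 1000 := by
      rw [← Real.rpow_natCast, ← Real.rpow_mul (by norm_num)]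
      norm_num
    linarith
  set k : ℕ → ℕ := fun j => ⌈R j⌉₊ with hk
  set N : ℕ → ℕ := fun j => ⌊H j⌋₊ - 2 with hN
  have hk1 : ∀ j, R j ≤ k j ∧ (k j : ℝ) ≤ R j + 1 := fun j =>
    ⟨Nat.le_ceil _, (Nat.ceil_lt_add_one (by linarith [hR1 j])).le⟩
  have hN1 : ∀ j, (N j : ℝ) ≤ H j - 2 ∧ H j - 3 ≤ (N j : ℝ) := by
    intro j
    have h1 := hHge j
    have h3 := (Nat.lt_floor_add_one (H j)).le
    have h4 := Nat.floor_le (show 0 ≤ H j by linarith)
    have h5 : 2 ≤ ⌊H j⌋₊ := Nat.le_floor (by norm_num; linarith)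
    have h6 : ((N j : ℕ) : ℝ) = (⌊H j⌋₊ : ℝ) - 2 := by
      rw [hN]
      dsimp only
      push_cast [h5]
      ring
    rw [h6]
    constructor <;> linarith
  have hNinf : Tendsto N atTop atTop := by
    rw [← tendsto_natCast_atTop_iff (R := ℝ)]
    refine tendsto_atTop_mono (fun j => (hN1 j).2) ?_
    exact tendsto_atTop_add_const_right _ _ hHinf
  have hkN : ∀ᶠ j in atTop, ((k j : ℕ) : ℝ) ^ (5 / 8 : ℝ) ≤ N j := by
    -- `(2 R) ^ (5/8) ≤ R ^ (3/4) / 2 ≤ H - 3`
    have h1 : ∀ᶠ x : ℝ in atTop, (2 * x) ^ (5 / 8 : ℝ) ≤ x ^ (3 / 4 : ℝ) / 2 := by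
      have h2 : Tendsto (fun x : ℝ => x ^ (1 / 8 : ℝ)) atTop atTop := tendsto_rpow_atTop (by norm_num)
      filter_upwards [h2.eventually_ge_atTop (2 * 2 ^ (5 / 8 : ℝ)), eventually_gt_atTop 0] with x hx hx0
      have e1 : x ^ (3 / 4 : ℝ) = x ^ (1 / 8 : ℝ) * x ^ (5 / 8 : ℝ) := by
        rw [← Real.rpow_add hx0]; norm_num
      rw [Real.mul_rpow (by norm_num) hx0.le, e1]
      have h3 : 0 < x ^ (5 / 8 : ℝ) := Real.rpow_pos_of_pos hx0 _
      nlinarith
    filter_upwards [hRinf.eventually h1] with j hj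
    have h2 : (k j : ℝ) ≤ 2 * R j := by linarith [(hk1 j).2, hR1 j]
    refine (Real.rpow_le_rpow (by positivity) h2 (by norm_num)).trans (hj.trans ?_)
    have h3 := (hN1 j).2
    have h4 := hH1 j
    have h5 := hHge j
    linarith
  set g : ℕ → ℝ → ℝ := fun j β => (∑ n ∈ Finset.Ico (k j) (k j + N j), G ((n : ℝ) + β)) / N j with hg
  have hgm : ∀ j, Measurable (g j) := fun j =>
    (Finset.measurable_sum _ fun n _ => hG.comp (by fun_prop)).div_const _
  have hNpos : ∀ j, (0:ℝ) < N j := fun j => by linarith [(hN1 j).2, hHge j]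
  have hgb : ∀ j β, |g j β| ≤ B := by
    intro j β
    rw [hg]; dsimp only
    rw [abs_div, abs_of_pos (hNpos j), div_le_iff₀ (hNpos j)]
    refine (Finset.abs_sum_le_sum_abs _ _).trans ?_
    refine (Finset.sum_le_card_nsmul _ _ B fun n _ => hB _).trans (le_of_eq ?_)
    rw [Nat.card_Ico, Nat.add_sub_cancel_left, nsmul_eq_mul, mul_comm]
  have hlim : Tendsto (fun j => ∫ β in Ioo (0:ℝ) 1, g j β) atTop (𝓝 m) := by
    rw [hm]
    apply tendsto_integral_of_dominated_convergence (fun _ => B)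
    · exact fun j => (hgm j).aestronglyMeasurable
    · simp
    · exact fun j => Eventually.of_forall fun β => by rw [Real.norm_eq_abs]; exact hgb j β
    · rw [ae_restrict_iff' measurableSet_Ioo]
      refine Eventually.of_forall fun β hβ => ?_
      rw [Metric.tendsto_atTop]
      intro ε hε
      obtain ⟨N₀, hN₀⟩ := h β hβ (ε / 2) (by linarith)
      obtain ⟨j₀, hj₀⟩ := eventually_atTop.1 ((hNinf.eventually_ge_atTop N₀).and hkN)
      refine ⟨j₀, fun j hj => ?_⟩
      obtain ⟨h1, h2⟩ := hj₀ j hj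
      rw [Real.dist_eq]
      exact (hN₀ (N j) h1 (k j) h2).trans_lt (by linarith)
  have hint : ∀ j, ∫ β in Ioo (0:ℝ) 1, g j β = (∫ r in (k j : ℝ)..((k j : ℝ) + N j), G r) / N j := by
    intro j
    have e1 : ∫ β in Ioo (0:ℝ) 1, g j β = ∫ β in (0:ℝ)..1, g j β := by
      rw [intervalIntegral.integral_of_le zero_le_one, integral_Ioc_eq_integral_Ioo]
    rw [e1, hg]
    dsimp only
    rw [intervalIntegral.integral_div]
    congr 1
    rw [intervalIntegral.integral_finsetSum]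
    · have e2 : ∀ n : ℕ, ∫ β in (0:ℝ)..1, G ((n : ℝ) + β) = ∫ r in (n : ℝ)..((n + 1 : ℕ) : ℝ), G r := by
        intro n
        rw [intervalIntegral.integral_comp_add_left (fun r => G r) (n : ℝ)]
        push_cast
        rw [add_zero]
      simp only [e2]
      rw [intervalIntegral.sum_integral_adjacent_intervals_Ico (by omega)
        (fun n _ => bint hG hB _ _)]
      push_cast
      rfl
    · intro n _
      exact bint (hG.comp (by fun_prop)) (fun β => hB _) 0 1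
  -- comparison
  have hcmp : ∀ j, |(∫ r in (R j)..(R j + H j), G r) - m * H j| ≤
      8 * B + 3 * |m| + N j * |(∫ β in Ioo (0:ℝ) 1, g j β) - m| := by
    intro j
    have hGi : ∀ p q, IntervalIntegrable G volume p q := fun p q => bint hG hB p q
    have e1 : ∫ r in (R j)..(R j + H j), G r = (∫ r in (R j)..(k j : ℝ), G r) +
        (∫ r in (k j : ℝ)..((k j : ℝ) + N j), G r) + ∫ r in ((k j : ℝ) + N j)..(R j + H j), G r := by
      rw [intervalIntegral.integral_add_adjacent_intervals (hGi _ _) (hGi _ _),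
        intervalIntegral.integral_add_adjacent_intervals (hGi _ _) (hGi _ _)]
    have h1 := intervalIntegral.norm_integral_le_of_norm_le_const (a := R j) (b := (k j : ℝ)) (f := G)
      (C := B) (fun x _ => by rw [Real.norm_eq_abs]; exact hB x)
    have h2 := intervalIntegral.norm_integral_le_of_norm_le_const (a := (k j : ℝ) + N j)
      (b := R j + H j) (f := G) (C := B) (fun x _ => by rw [Real.norm_eq_abs]; exact hB x)
    have q1 : |(k j : ℝ) - R j| ≤ 1 := by
      rw [abs_of_nonneg (by linarith [(hk1 j).1])]; linarith [(hk1 j).2]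
    have q2 : |R j + H j - ((k j : ℝ) + N j)| ≤ 3 := by
      rw [abs_le]
      constructor
      · linarith [(hk1 j).2, (hN1 j).1]
      · linarith [(hk1 j).1, (hN1 j).2]
    rw [Real.norm_eq_abs] at h1 h2
    have h3 : B * |(k j : ℝ) - R j| ≤ B * 1 := mul_le_mul_of_nonneg_left q1 hB0
    have h4 : B * |R j + H j - ((k j : ℝ) + N j)| ≤ B * 3 := mul_le_mul_of_nonneg_left q2 hB0
    have e2 : ∫ r in (k j : ℝ)..((k j : ℝ) + N j), G r = N j * ∫ β in Ioo (0:ℝ) 1, g j β := by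
      rw [hint j]
      field_simp [(hNpos j).ne']
    rw [e1, e2]
    have e3 : (∫ r in (R j)..(k j : ℝ), G r) + N j * (∫ β in Ioo (0:ℝ) 1, g j β) +
        (∫ r in ((k j : ℝ) + N j)..(R j + H j), G r) - m * H j =
        (∫ r in (R j)..(k j : ℝ), G r) + (∫ r in ((k j : ℝ) + N j)..(R j + H j), G r) +
        N j * ((∫ β in Ioo (0:ℝ) 1, g j β) - m) + m * (N j - H j) := by ring
    rw [e3]
    have a1 := abs_add_le ((∫ r in (R j)..(k j : ℝ), G r) + (∫ r in ((k j : ℝ) + N j)..(R j + H j), G r) +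
        N j * ((∫ β in Ioo (0:ℝ) 1, g j β) - m)) (m * (N j - H j))
    have a2 := abs_add_le ((∫ r in (R j)..(k j : ℝ), G r) +
      (∫ r in ((k j : ℝ) + N j)..(R j + H j), G r)) (N j * ((∫ β in Ioo (0:ℝ) 1, g j β) - m))
    have a3 := abs_add_le (∫ r in (R j)..(k j : ℝ), G r) (∫ r in ((k j : ℝ) + N j)..(R j + H j), G r)
    rw [abs_mul, abs_of_pos (hNpos j)] at a2
    rw [abs_mul m] at a1
    have h5 : |(N j : ℝ) - H j| ≤ 3 := by
      rw [abs_le]
      constructor <;> linarith [(hN1 j).1, (hN1 j).2]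
    have h6 : |m| * |(N j : ℝ) - H j| ≤ |m| * 3 := mul_le_mul_of_nonneg_left h5 (abs_nonneg _)
    linarith
  -- contradiction
  have hev1 : ∀ᶠ j in atTop, |(∫ β in Ioo (0:ℝ) 1, g j β) - m| < η / 2 := by
    have := (Metric.tendsto_atTop.1 hlim) (η / 2) (by linarith)
    obtain ⟨j₀, hj₀⟩ := this
    filter_upwards [eventually_ge_atTop j₀] with j hj
    have := hj₀ j hj
    rwa [Real.dist_eq] at this
  obtain ⟨j, hj1, hj2⟩ := (hev1.and (hHinf.eventually_ge_atTop (2 * (8 * B + 3 * |m| + 1) / η))).exists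
  have h1 := hcmp j
  have h2 := hv j
  rw [div_le_iff₀ hη] at hj2
  have h3 : (N j : ℝ) * |(∫ β in Ioo (0:ℝ) 1, g j β) - m| ≤ H j * (η / 2) := by
    apply mul_le_mul (by linarith [(hN1 j).1]) hj1.le (abs_nonneg _) (by linarith [hHge j])
  nlinarith

end Pool.Agent.R306.ShiftMean
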