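import Pool.Agent.R306.CircMain
import Pool.Agent.R306.LogLaw
import Pool.Agent.R306.ShiftMean

/-!
The limit law of the error term of the circle problem, and its occurrence along almost all sequences
`b n * α ^ (a n)`.
-/

set_option autoImplicit false

open MeasureTheory Filter Topology Set Real
open scoped ENNReal NNReal

namespace Pool.Agent.R306.Circ

open Pool.Agent.R306.CatHit Pool.Agent.R306.LogLaw Pool.Agent.R306.ShiftMean
open Pool.Agent.H425R3.JL (Ec)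

open Classical in
/-- the limit law at the translate `β`, as a property of a measure -/
def IsLaw (β : ℝ) (μ : Measure ℝ) : Prop :=
  (∀ x : ℝ, μ {x} = 0) ∧ (∀ u v : ℝ, u < v → 0 < μ (Ioo u v)) ∧
  (∀ f : ℝ → ℝ, Continuous f → (∃ C : ℝ, ∀ x : ℝ, |f x| ≤ C * (1 + x ^ 2)) →
    ∀ η : ℝ, 0 < η → ∃ N₀ : ℕ, ∀ N : ℕ, N₀ ≤ N → ∀ k : ℕ, (k : ℝ) ^ (5 / 8 : ℝ) ≤ N →
      |(∑ n ∈ Finset.Ico k (k + N), f (Ec (((n : ℝ) + β) ^ 2))) / N - ∫ x, f x ∂μ| ≤ η) ∧
  ∀ x η : ℝ, 0 < η → ∃ N₀ : ℕ, ∀ N : ℕ, N₀ ≤ N → ∀ k : ℕ, (k : ℝ) ^ (5 / 8 : ℝ) ≤ N →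
      |(∑ n ∈ Finset.Ico k (k + N), (if Ec (((n : ℝ) + β) ^ 2) ≤ x then (1:ℝ) else 0)) / N -
        μ.real (Iic x)| ≤ η

open Classical in
lemma exists_isLaw {β : ℝ} (hβ : 0 < β) : ∃ μ : Measure ℝ, IsProbabilityMeasure μ ∧ IsLaw β μ := by
  obtain ⟨μ, g, -, -, hden, hpos, -, hf, hd, -⟩ := Pool.Agent.H383.Circ.distr3 (a := 1) (b := 2 * β)
    (c := β ^ 2) one_pos (fun n => by positivity)
  have e0 : ∀ n : ℕ, Pool.Agent.H383.Circ.Cx (1 * n^2 + (2 * β) * n + β ^ 2) /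
      (1 * (n:ℝ)^2 + (2 * β) * n + β ^ 2) ^ (1/4:ℝ) = Ec (((n : ℝ) + β) ^ 2) := by
    intro n
    have e2 : ((n : ℝ) + β) ^ 2 = 1 * (n:ℝ)^2 + (2 * β) * n + β ^ 2 := by ring
    rw [e2]
    rfl
  refine ⟨(μ : Measure ℝ), inferInstance, ?_, hpos, ?_, ?_⟩
  · intro x
    have h1 : (μ : Measure ℝ) ≪ volume := by
      rw [hden]; exact withDensity_absolutelyContinuous _ _
    exact h1 (by simp)
  · intro f hfc hfb η hη
    obtain ⟨N₀, hN₀⟩ := hf f hfc hfb (1 / 8) (by norm_num) η hη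
    refine ⟨N₀, fun N hN k hk => ?_⟩
    have h1 := hN₀ N hN k (by norm_num at hk ⊢; exact hk)
    simp only [e0] at h1
    exact h1
  · intro x η hη
    obtain ⟨N₀, hN₀⟩ := hd (1 / 8) (by norm_num) η hη
    refine ⟨N₀, fun N hN k hk => ?_⟩
    have h1 := hN₀ N hN k (by norm_num at hk ⊢; exact hk) x
    simp only [e0] at h1
    rw [Finset.card_filter] at h1
    push_cast at h1
    convert h1

open Classical in
/-- a measurable choice of the laws -/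
theorem exists_kernel : ∃ K : ℝ → Measure ℝ, Measurable K ∧ (∀ β, IsProbabilityMeasure (K β)) ∧
    ∀ β ∈ Ioo (0:ℝ) 1, IsLaw β (K β) := by
  have hch : ∀ β : ℝ, ∃ μ : Measure ℝ, IsProbabilityMeasure μ ∧ (β ∈ Ioo (0:ℝ) 1 → IsLaw β μ) ∧
      (β ∉ Ioo (0:ℝ) 1 → μ = Measure.dirac 0) := by
    intro β
    by_cases hβ : β ∈ Ioo (0:ℝ) 1
    · obtain ⟨μ, h1, h2⟩ := exists_isLaw hβ.1
      exact ⟨μ, h1, fun _ => h2, fun h => absurd hβ h⟩
    · exact ⟨Measure.dirac 0, inferInstance, fun h => absurd h hβ, fun _ => rfl⟩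
  choose K hK1 hK2 hK3 using hch
  refine ⟨K, ?_, hK1, hK2⟩
  have hpi := @isPiSystem_Iic ℝ _
  refine Measurable.measure_of_isPiSystem_of_isProbabilityMeasure (S := range Iic)
    (borel_eq_generateFrom_Iic ℝ ▸ (BorelSpace.measurable_eq (α := ℝ))) isPiSystem_Iic ?_
  rintro s ⟨x, rfl⟩
  -- the limit of the frequencies
  set F : ℕ → ℝ → ℝ≥0∞ := fun N β => if β ∈ Ioo (0:ℝ) 1 then
    ENNReal.ofReal ((∑ n ∈ Finset.Ico 0 (0 + N), (if Ec (((n : ℝ) + β) ^ 2) ≤ x then (1:ℝ) else 0)) / N)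
    else Measure.dirac (0:ℝ) (Iic x) with hF
  have hFm : ∀ N, Measurable (F N) := by
    intro N
    refine Measurable.ite measurableSet_Ioo ?_ measurable_const
    apply Measurable.ennreal_ofReal
    apply Measurable.div_const
    apply Finset.measurable_sum
    intro n _
    refine Measurable.ite ?_ measurable_const measurable_const
    exact measurableSet_le (Ec_meas.comp (by fun_prop)) measurable_const
  refine measurable_of_tendsto_metrizable hFm ?_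
  rw [tendsto_pi_nhds]
  intro β
  by_cases hβ : β ∈ Ioo (0:ℝ) 1
  · obtain ⟨-, -, -, h4⟩ := hK2 β hβ
    have h5 : Tendsto (fun N : ℕ => (∑ n ∈ Finset.Ico 0 (0 + N),
        (if Ec (((n : ℝ) + β) ^ 2) ≤ x then (1:ℝ) else 0)) / (N : ℝ)) atTop (𝓝 ((K β).real (Iic x))) := by
      rw [Metric.tendsto_atTop]
      intro ε hε
      obtain ⟨N₀, hN₀⟩ := h4 x (ε / 2) (by linarith)
      refine ⟨N₀, fun N hN => ?_⟩
      rw [Real.dist_eq]
      refine (hN₀ N hN 0 ?_).trans_lt (by linarith)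
      rw [Nat.cast_zero, Real.zero_rpow (by norm_num)]
      positivity
    have h6 := (ENNReal.continuous_ofReal.tendsto _).comp h5
    rw [ofReal_measureReal (measure_ne_top _ _)] at h6
    refine h6.congr fun N => ?_
    simp only [Function.comp, hF]
    rw [if_pos hβ]
  · have h7 : K β = Measure.dirac 0 := hK3 β hβ
    rw [h7]
    refine tendsto_const_nhds.congr fun N => ?_
    rw [hF]
    dsimp only
    rw [if_neg hβ]

/-- the cut-off functions -/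
noncomputable def hc (p q x : ℝ) : ℝ := max 0 (min 1 ((q - x) / (q - p)))

lemma hc_cont (p q : ℝ) : Continuous (hc p q) := by
  unfold hc
  fun_prop

lemma hc_nonneg (p q x : ℝ) : 0 ≤ hc p q x := le_max_left _ _

lemma hc_le (p q x : ℝ) : hc p q x ≤ 1 := max_le zero_le_one (min_le_left _ _)

lemma hc_abs (p q x : ℝ) : |hc p q x| ≤ 1 := by
  rw [abs_of_nonneg (hc_nonneg _ _ _)]; exact hc_le _ _ _

lemma hc_one {p q x : ℝ} (hpq : p < q) (hx : x ≤ p) : hc p q x = 1 := by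
  unfold hc
  have : 1 ≤ (q - x) / (q - p) := by
    rw [le_div_iff₀ (by linarith)]; linarith
  rw [min_eq_left this, max_eq_right zero_le_one]

lemma hc_zero {p q x : ℝ} (hpq : p < q) (hx : q ≤ x) : hc p q x = 0 := by
  unfold hc
  have h1 : (q - x) / (q - p) ≤ 0 := div_nonpos_of_nonpos_of_nonneg (by linarith) (by linarith)
  have : min 1 ((q - x) / (q - p)) ≤ 0 := (min_le_right _ _).trans h1
  exact max_eq_left this

lemma hc_lip {p q : ℝ} (hpq : p < q) (x y : ℝ) : |hc p q x - hc p q y| ≤ |x - y| / (q - p) := by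
  unfold hc
  have h1 := abs_max_sub_max_le_max (0:ℝ) (min 1 ((q - x) / (q - p))) 0 (min 1 ((q - y) / (q - p)))
  have h2 := abs_min_sub_min_le_max (1:ℝ) ((q - x) / (q - p)) 1 ((q - y) / (q - p))
  have h3 : |(q - x) / (q - p) - (q - y) / (q - p)| = |x - y| / (q - p) := by
    rw [← sub_div, abs_div, abs_of_pos (by linarith : 0 < q - p)]
    congr 1
    rw [show q - x - (q - y) = -(x - y) by ring, abs_neg]
  have h4 : 0 ≤ |x - y| / (q - p) := div_nonneg (abs_nonneg _) (by linarith)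
  rw [sub_self, abs_zero, h3, max_eq_right h4] at h2
  rw [sub_self, abs_zero, max_eq_right
    (abs_nonneg (min 1 ((q - x) / (q - p)) - min 1 ((q - y) / (q - p))))] at h1
  exact h1.trans h2

/-- crude bound for the number of points -/
lemma Nn_le {T : ℝ} (hT : 1 ≤ T) : Nn (T ^ 2) ≤ 9 * T ^ 2 := by
  set M : ℤ := ⌊T⌋ with hM
  have hM0 : 0 ≤ M := Int.floor_nonneg.2 (by linarith)
  have hMT : (M : ℝ) ≤ T := Int.floor_le T
  have hsub : {p : ℤ × ℤ | (p.1 : ℝ) ^ 2 + (p.2 : ℝ) ^ 2 ≤ T ^ 2} ⊆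
      ((Finset.Icc (-M) M ×ˢ Finset.Icc (-M) M : Finset (ℤ × ℤ)) : Set (ℤ × ℤ)) := by
    rintro ⟨m, n⟩ hp
    have hp' : (m : ℝ) ^ 2 + (n : ℝ) ^ 2 ≤ T ^ 2 := hp
    have key : ∀ k : ℤ, (k : ℝ) ^ 2 ≤ T ^ 2 → -M ≤ k ∧ k ≤ M := by
      intro k hk
      obtain ⟨h3, h4⟩ := abs_le.1 (abs_le_of_sq_le_sq hk (by linarith))
      constructor
      · have : -k ≤ M := Int.le_floor.2 (by push_cast; linarith)
        linarith
      · exact Int.le_floor.2 h4
    rw [Finset.mem_coe, Finset.mem_product, Finset.mem_Icc, Finset.mem_Icc]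
    exact ⟨key m (by nlinarith [sq_nonneg (n : ℝ)]), key n (by nlinarith [sq_nonneg (m : ℝ)])⟩
  have h1 : Nn (T ^ 2) ≤ ((Finset.Icc (-M) M ×ˢ Finset.Icc (-M) M : Finset (ℤ × ℤ)).card : ℝ) := by
    unfold Nn
    have h2 := Nat.card_mono (Finset.finite_toSet (Finset.Icc (-M) M ×ˢ Finset.Icc (-M) M)) hsub
    rw [Nat.card_coe_set_eq, Nat.card_coe_set_eq, Set.ncard_coe_finset] at h2
    exact_mod_cast h2
  refine h1.trans ?_
  rw [Finset.card_product, Int.card_Icc]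
  have h3 : ((M + 1 - -M).toNat : ℝ) = 2 * (M : ℝ) + 1 := by
    have h4 : ((M + 1 - -M).toNat : ℤ) = 2 * M + 1 := by
      rw [Int.toNat_of_nonneg (by linarith)]; ring
    exact_mod_cast h4
  push_cast
  rw [h3]
  have h5 : (0:ℝ) ≤ M := by exact_mod_cast hM0
  nlinarith

/-- the normalised error term has polynomially bounded variation -/
lemma polyVar_E {f : ℝ → ℝ} {L : ℝ} (hL : 0 ≤ L) (hf : ∀ x y, |f x - f y| ≤ L * |x - y|) (m : ℝ) :
    PolyVar (fun r => f (Ec (r ^ 2)) - m) := by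
  have hform : ∀ r : ℝ, 0 < r → Ec (r ^ 2) = Nn (r ^ 2) / √r - Real.pi * (√r) ^ 3 := by
    intro r hr
    have e : (r ^ 2) ^ (1 / 4 : ℝ) = √r := by
      rw [Real.sqrt_eq_rpow, ← Real.rpow_natCast, ← Real.rpow_mul hr.le]
      norm_num
    have hs : 0 < √r := Real.sqrt_pos.2 hr
    have e2 : r ^ 2 = (√r) ^ 4 := by
      have := Real.sq_sqrt hr.le
      calc r ^ 2 = ((√r) ^ 2) ^ 2 := by rw [this]
        _ = _ := by ring
    rw [Ec_eq, e, sub_div]
    congr 1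
    rw [div_eq_iff hs.ne']
    conv_lhs => rw [e2]
    ring
  refine ⟨max (102 * L) 4, le_max_of_le_right (by norm_num), fun T hT => ?_⟩
  have hNn0 : ∀ x, 0 ≤ Nn x := fun x => Nat.cast_nonneg _
  have key : ∀ r ∈ Icc 1 T, ∀ r' ∈ Icc 1 T, r ≤ r' →
      |f (Ec (r' ^ 2)) - m - (f (Ec (r ^ 2)) - m)| ≤
      L * (Nn (r' ^ 2) - Nn (T ^ 2) / √r' + Real.pi * (√r') ^ 3) -
      L * (Nn (r ^ 2) - Nn (T ^ 2) / √r + Real.pi * (√r) ^ 3) := by
    intro r hr r' hr' hrr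
    have hr0 : 0 < r := by linarith [hr.1]
    have hr'0 : 0 < r' := by linarith [hr'.1]
    have hs1 : 1 ≤ √r := Real.one_le_sqrt.2 hr.1
    have hs2 : √r ≤ √r' := Real.sqrt_le_sqrt hrr
    have hA1 : Nn (r ^ 2) ≤ Nn (r' ^ 2) := Nn_mono (pow_le_pow_left₀ hr0.le hrr 2)
    have hA2 : Nn (r ^ 2) ≤ Nn (T ^ 2) := Nn_mono (pow_le_pow_left₀ hr0.le hr.2 2)
    have e1 : f (Ec (r' ^ 2)) - m - (f (Ec (r ^ 2)) - m) = f (Ec (r' ^ 2)) - f (Ec (r ^ 2)) := by ring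
    rw [e1, ← mul_sub]
    refine (hf _ _).trans (mul_le_mul_of_nonneg_left ?_ hL)
    rw [hform r' hr'0, hform r hr0]
    obtain ⟨s, hs⟩ : ∃ s, s = √r := ⟨_, rfl⟩
    obtain ⟨s', hs'⟩ : ∃ s', s' = √r' := ⟨_, rfl⟩
    obtain ⟨A, hA⟩ : ∃ A, A = Nn (r ^ 2) := ⟨_, rfl⟩
    obtain ⟨A', hA'⟩ : ∃ A', A' = Nn (r' ^ 2) := ⟨_, rfl⟩
    obtain ⟨AT, hAT⟩ : ∃ AT, AT = Nn (T ^ 2) := ⟨_, rfl⟩
    have hA0 : 0 ≤ A := by rw [hA]; exact hNn0 _
    rw [← hs] at hs1 hs2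
    rw [← hs'] at hs2
    rw [← hA, ← hA'] at hA1
    rw [← hA, ← hAT] at hA2
    rw [← hs, ← hs', ← hA, ← hA', ← hAT]
    have hs0 : 0 < s := by linarith
    have hs'0 : 0 < s' := by linarith
    have hinv : 1 / s' ≤ 1 / s := one_div_le_one_div_of_le hs0 hs2
    have hinv1 : 1 / s' ≤ 1 := (div_le_one hs'0).2 (by linarith)
    have hcub : s ^ 3 ≤ s' ^ 3 := pow_le_pow_left₀ hs0.le hs2 3
    have hpi := Real.pi_pos
    have e2 : A' / s' - Real.pi * s' ^ 3 - (A / s - Real.pi * s ^ 3) =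
        ((A' - A) * (1 / s') - A * (1 / s - 1 / s')) - Real.pi * (s' ^ 3 - s ^ 3) := by ring
    have e3 : A' - AT / s' + Real.pi * s' ^ 3 - (A - AT / s + Real.pi * s ^ 3) =
        (A' - A) + AT * (1 / s - 1 / s') + Real.pi * (s' ^ 3 - s ^ 3) := by ring
    rw [e2, e3]
    have q1 : (A' - A) * (1 / s') ≤ A' - A := mul_le_of_le_one_right (by linarith) hinv1
    have q2 : 0 ≤ (A' - A) * (1 / s') := mul_nonneg (by linarith) (by positivity)
    have q3 : A * (1 / s - 1 / s') ≤ AT * (1 / s - 1 / s') :=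
      mul_le_mul_of_nonneg_right hA2 (by linarith)
    have q4 : 0 ≤ A * (1 / s - 1 / s') := mul_nonneg hA0 (by linarith)
    have q5 : 0 ≤ Real.pi * (s' ^ 3 - s ^ 3) := mul_nonneg hpi.le (by linarith)
    rw [abs_le]
    constructor <;> linarith
  refine ⟨fun r => L * (Nn (r ^ 2) - Nn (T ^ 2) / √r + Real.pi * (√r) ^ 3), ?_, ?_, key⟩
  · intro r hr r' hr' hrr
    have h1 := key r hr r' hr' hrr
    have h2 := (abs_nonneg _).trans h1
    dsimp only
    linarith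
  · dsimp only
    have hT0 : 0 < T := by linarith
    have h1 := Nn_le hT
    have h2 := hNn0 (1 ^ 2)
    have h3 : 0 ≤ Nn (T ^ 2) / √T := div_nonneg (hNn0 _) (Real.sqrt_nonneg _)
    have hsT : √T ≤ T := by
      rw [Real.sqrt_le_left (by linarith)]
      nlinarith
    have hs0 : 0 ≤ √T := Real.sqrt_nonneg T
    have h4 : (√T) ^ 3 ≤ T ^ 2 := by
      have := Real.sq_sqrt hT0.le
      calc (√T) ^ 3 = (√T) ^ 2 * √T := by ring
        _ = T * √T := by rw [this]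
        _ ≤ T * T := mul_le_mul_of_nonneg_left hsT hT0.le
        _ = T ^ 2 := by ring
    have hpi := Real.pi_le_four
    have hpi0 := Real.pi_pos
    have h5 : Real.pi * (√T) ^ 3 ≤ 4 * T ^ 2 := by
      calc Real.pi * (√T) ^ 3 ≤ 4 * (√T) ^ 3 := mul_le_mul_of_nonneg_right hpi (by positivity)
        _ ≤ 4 * T ^ 2 := by linarith
    rw [← mul_sub, Real.sqrt_one, div_one]
    have h6 : Nn (T ^ 2) - Nn (T ^ 2) / √T + Real.pi * (√T) ^ 3 -
        (Nn (1 ^ 2) - Nn (T ^ 2) + Real.pi * 1 ^ 3) ≤ 102 * T ^ 2 := by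
      have h7 : 0 ≤ T ^ 2 := sq_nonneg T
      have h8 : Real.pi * 1 ^ 3 = Real.pi := by ring
      rw [h8]
      obtain ⟨A, hA⟩ : ∃ A, A = Nn (T ^ 2) := ⟨_, rfl⟩
      obtain ⟨A1, hA1⟩ : ∃ A, A = Nn (T ^ 2) / √T := ⟨_, rfl⟩
      obtain ⟨A2, hA2⟩ : ∃ A, A = Real.pi * (√T) ^ 3 := ⟨_, rfl⟩
      obtain ⟨A3, hA3⟩ : ∃ A, A = Nn (1 ^ 2) := ⟨_, rfl⟩
      rw [← hA1, ← hA2, ← hA, ← hA3]
      rw [← hA] at h1
      rw [← hA1] at h3
      rw [← hA2] at h5
      rw [← hA3] at h2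
      linarith
    calc L * (Nn (T ^ 2) - Nn (T ^ 2) / √T + Real.pi * (√T) ^ 3 -
        (Nn (1 ^ 2) - Nn (T ^ 2) + Real.pi * 1 ^ 3)) ≤ L * (102 * T ^ 2) :=
          mul_le_mul_of_nonneg_left h6 hL
      _ = (102 * L) * T ^ (2:ℝ) := by
          rw [Real.rpow_two]; ring
      _ ≤ max (102 * L) 4 * T ^ (max (102 * L) 4) := by
          apply mul_le_mul (le_max_left _ _) _ (by positivity) (le_max_of_le_right (by norm_num))
          apply Real.rpow_le_rpow_of_exponent_le hT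
          exact (by norm_num : (2:ℝ) ≤ 4).trans (le_max_right _ _)

end Pool.Agent.R306.Circ
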