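import Pool.Agent.R306.CircLaw

/-!
The limit law of the error term of the circle problem along almost all sequences `b n * α ^ (a n)`.
-/

set_option autoImplicit false

open MeasureTheory Filter Topology Set Real
open scoped ENNReal NNReal

namespace Pool.Agent.R306.Circ

open Pool.Agent.R306.CatHit Pool.Agent.R306.LogLaw Pool.Agent.R306.ShiftMean
open Pool.Agent.H425R3.JL (Ec)

/-- weights -/
noncomputable def wt (a b : ℕ → ℝ) (n : ℕ) : ℝ :=
  Real.log (a (n + 1) + Real.log (b (n + 1))) - Real.log (a n + Real.log (b n))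

lemma hlogpt {a b : ℕ → ℝ} (hb : ∀ n, 0 < b n) {α : ℝ} (hα : 0 < α) (n : ℕ) :
    Real.exp (a n * Real.log α + Real.log (b n)) = pt a b n α := by
  unfold pt
  rw [Real.exp_add, Real.exp_log (hb n), Real.rpow_def_of_pos hα, mul_comm (b n),
    mul_comm (Real.log α)]

section kernel

variable {K : ℝ → Measure ℝ} (hKm : Measurable K) (hKp : ∀ β, IsProbabilityMeasure (K β))

include hKm hKp

lemma meas_real (s : Set ℝ) (hs : MeasurableSet s) : Measurable fun β => (K β).real s :=
  ((Measure.measurable_coe hs).comp hKm).ennreal_toReal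

lemma meas_hc (p q : ℝ) : Measurable fun β => ∫ x, hc p q x ∂(K β) := by
  have e : (fun β => ∫ x, hc p q x ∂(K β)) = fun β => (∫⁻ x, ENNReal.ofReal (hc p q x) ∂(K β)).toReal := by
    funext β
    exact integral_eq_lintegral_of_nonneg_ae (Eventually.of_forall fun x => hc_nonneg p q x)
      (hc_cont p q).aestronglyMeasurable
  rw [e]
  exact ((Measure.measurable_lintegral (hc_cont p q).measurable.ennreal_ofReal).comp hKm).ennreal_toReal

lemma int_real (s : Set ℝ) (hs : MeasurableSet s) : IntegrableOn (fun β => (K β).real s) (Ioo 0 1) := by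
  refine Integrable.of_bound (meas_real hKm hKp s hs).aestronglyMeasurable 1
    (Eventually.of_forall fun β => ?_)
  rw [Real.norm_of_nonneg measureReal_nonneg]
  have := hKp β
  exact measureReal_le_one

lemma hc_int_le (p q : ℝ) (β : ℝ) : |∫ x, hc p q x ∂(K β)| ≤ 1 := by
  have := hKp β
  have h := norm_integral_le_of_norm_le_const (μ := K β) (f := hc p q) (C := 1)
    (Eventually.of_forall fun x => by rw [Real.norm_eq_abs]; exact hc_abs p q x)
  simpa using h

lemma int_hc (p q : ℝ) : IntegrableOn (fun β => ∫ x, hc p q x ∂(K β)) (Ioo 0 1) := by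
  refine Integrable.of_bound (meas_hc hKm hKp p q).aestronglyMeasurable 1
    (Eventually.of_forall fun β => ?_)
  rw [Real.norm_eq_abs]
  exact hc_int_le hKm hKp p q β

omit hKm in
lemma hc_integrable (p q β : ℝ) : Integrable (hc p q) (K β) := by
  have := hKp β
  refine Integrable.of_bound (hc_cont p q).aestronglyMeasurable 1 (Eventually.of_forall fun x => ?_)
  rw [Real.norm_eq_abs]
  exact hc_abs p q x

lemma low {p q : ℝ} (hpq : p < q) :
    ∫ β in Ioo (0:ℝ) 1, (K β).real (Iic p) ≤ ∫ β in Ioo (0:ℝ) 1, ∫ x, hc p q x ∂(K β) := by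
  refine setIntegral_mono (int_real hKm hKp _ measurableSet_Iic) (int_hc hKm hKp p q) fun β => ?_
  have := hKp β
  dsimp only
  rw [← integral_indicator_one measurableSet_Iic]
  refine integral_mono (Integrable.indicator (integrable_const _) measurableSet_Iic)
    (hc_integrable hKp p q β) fun x => ?_
  rw [Set.indicator_apply]
  split_ifs with h
  · rw [hc_one hpq h]; exact le_rfl
  · exact hc_nonneg _ _ _

lemma high {p q : ℝ} (hpq : p < q) :
    ∫ β in Ioo (0:ℝ) 1, ∫ x, hc p q x ∂(K β) ≤ ∫ β in Ioo (0:ℝ) 1, (K β).real (Iic q) := by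
  refine setIntegral_mono (int_hc hKm hKp p q) (int_real hKm hKp _ measurableSet_Iic) fun β => ?_
  have := hKp β
  dsimp only
  rw [← integral_indicator_one measurableSet_Iic]
  refine integral_mono (hc_integrable hKp p q β)
    (Integrable.indicator (integrable_const _) measurableSet_Iic) fun x => ?_
  rw [Set.indicator_apply]
  split_ifs with h
  · exact hc_le _ _ _
  · rw [hc_zero hpq (le_of_lt (not_le.1 h))]

end kernel

open Classical in
/-- **the limit law along almost all sequences** -/
theorem lawMain : ∃ μ : ProbabilityMeasure ℝ, (∀ x : ℝ, (μ : Measure ℝ) {x} = 0) ∧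
    (∀ u v : ℝ, u < v → 0 < (μ : Measure ℝ) (Ioo u v)) ∧
    (∀ x η : ℝ, 0 < η → ∃ R₀ : ℝ, ∀ R : ℝ, R₀ ≤ R → ∀ H : ℝ, R ^ (3 / 4 : ℝ) ≤ H → H ≤ R →
      |volume.real {r : ℝ | R < r ∧ r ≤ R + H ∧ P r ≤ x * √r} - (μ : Measure ℝ).real (Iic x) * H| ≤
        η * H) ∧
    ∀ a b : ℕ → ℝ, (∀ n, 1 ≤ a n) → (∀ n, 1 ≤ b n) → Monotone (fun n => a n + Real.log (b n)) →
      Tendsto (fun n => a n + Real.log (b n)) atTop atTop →
      (∃ C : ℝ, ∀ n, a (n + 1) + Real.log (b (n + 1)) ≤ C * (a n + Real.log (b n))) →
      ∀ᵐ α : ℝ, 1 < α → ∀ x : ℝ,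
        Tendsto (fun N => (∑ n ∈ Finset.range N, if P (pt a b n α) ≤ x * √(pt a b n α) then wt a b n
          else 0) / ∑ n ∈ Finset.range N, wt a b n) atTop (𝓝 ((μ : Measure ℝ).real (Iic x))) := by
  obtain ⟨K, hKm, hKp, hKl⟩ := exists_kernel
  set M : Measure ℝ := Measure.bind (volume.restrict (Ioo (0:ℝ) 1)) K with hM
  have hbind : ∀ s : Set ℝ, MeasurableSet s → M s = ∫⁻ β in Ioo (0:ℝ) 1, K β s := fun s hs =>
    Measure.bind_apply hs hKm.aemeasurable
  have hMprob : IsProbabilityMeasure M := by
    constructor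
    rw [hbind _ MeasurableSet.univ]
    have : ∀ β, K β univ = 1 := fun β => by have := hKp β; exact measure_univ
    simp [this]
  have hreal : ∀ s : Set ℝ, MeasurableSet s → M.real s = ∫ β in Ioo (0:ℝ) 1, (K β).real s := by
    intro s hs
    rw [Measure.real, hbind s hs]
    symm
    apply integral_toReal
    · exact ((Measure.measurable_coe hs).comp hKm).aemeasurable
    · exact Eventually.of_forall fun β => by have := hKp β; exact measure_lt_top _ _
  have hatom : ∀ x : ℝ, M {x} = 0 := by
    intro x
    rw [hbind _ (measurableSet_singleton x)]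
    rw [setLIntegral_congr_fun (g := fun _ => 0) measurableSet_Ioo (fun β hβ => (hKl β hβ).1 x)]
    simp
  refine ⟨⟨M, hMprob⟩, hatom, ?_, ?_, ?_⟩
  · intro u v huv
    change 0 < M (Ioo u v)
    rw [hbind _ measurableSet_Ioo]
    have hm : Measurable fun β => K β (Ioo u v) := (Measure.measurable_coe measurableSet_Ioo).comp hKm
    rw [setLIntegral_pos_iff hm]
    have hsub : Ioo (0:ℝ) 1 ⊆ Function.support (fun β => K β (Ioo u v)) ∩ Ioo (0:ℝ) 1 := by
      intro β hβ
      refine ⟨?_, hβ⟩
      rw [Function.mem_support]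
      exact ((hKl β hβ).2.1 u v huv).ne'
    refine lt_of_lt_of_le ?_ (measure_mono hsub)
    rw [Real.volume_Ioo]
    simp
  · -- windows
    intro x η hη
    have hS : MeasurableSet {r : ℝ | Ec (r ^ 2) ≤ x} :=
      measurableSet_le (Ec_meas.comp (by fun_prop)) measurable_const
    have h1 := window_mean (G := {r : ℝ | Ec (r ^ 2) ≤ x}.indicator 1) (B := 1)
      (measurable_one.indicator hS) (fun r => by
        rw [Set.indicator_apply]
        split_ifs <;> simp) (ℓ := fun β => (K β).real (Iic x)) (fun β hβ η hη => by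
        obtain ⟨N₀, hN₀⟩ := (hKl β hβ).2.2.2 x η hη
        refine ⟨N₀, fun N hN k hk => ?_⟩
        have h2 := hN₀ N hN k hk
        have e : ∀ n : ℕ, ({r : ℝ | Ec (r ^ 2) ≤ x}.indicator (1 : ℝ → ℝ)) ((n : ℝ) + β) =
            if Ec (((n : ℝ) + β) ^ 2) ≤ x then (1:ℝ) else 0 := by
          intro n
          rw [Set.indicator_apply]
          rfl
        simp only [e]
        exact h2) η hη
    obtain ⟨R₀, hR₀⟩ := h1
    refine ⟨max R₀ 1, fun R hR H hH1 hH2 => ?_⟩
    have hR1 : 1 ≤ R := (le_max_right _ _).trans hR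
    have hH0 : 0 ≤ H := le_trans (by positivity) hH1
    have h2 := hR₀ R ((le_max_left _ _).trans hR) H hH1 hH2
    have e1 : ∫ r in R..(R + H), ({r : ℝ | Ec (r ^ 2) ≤ x}.indicator (1 : ℝ → ℝ)) r =
        volume.real {r : ℝ | R < r ∧ r ≤ R + H ∧ P r ≤ x * √r} := by
      rw [intervalIntegral.integral_of_le (by linarith), integral_indicator_one hS,
        measureReal_restrict_apply hS]
      congr 1
      ext r
      constructor
      · rintro ⟨g1, g2⟩
        have g1' : Ec (r ^ 2) ≤ x := g1
        have hr0 : 0 < r := by linarith [g2.1]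
        refine ⟨g2.1, g2.2, ?_⟩
        rw [P_eq hr0]
        exact mul_le_mul_of_nonneg_right g1' (Real.sqrt_nonneg _)
      · rintro ⟨g1, g2, g3⟩
        have hr0 : 0 < r := by linarith
        rw [P_eq hr0] at g3
        exact ⟨le_of_mul_le_mul_right g3 (Real.sqrt_pos.2 hr0), g1, g2⟩
    rw [e1] at h2
    change |_ - M.real (Iic x) * H| ≤ _
    rw [hreal _ measurableSet_Iic]
    exact h2
  · -- almost all sequences
    intro a b ha hb hmono hinf hC
    obtain ⟨C, hC⟩ := hC
    have hb0 : ∀ n, 0 < b n := fun n => lt_of_lt_of_le one_pos (hb n)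
    have hlb : ∀ n, 0 ≤ Real.log (b n) := fun n => Real.log_nonneg (hb n)
    have hLsum : ∀ N, ∑ n ∈ Finset.range N, wt a b n =
        Real.log (a N + Real.log (b N)) - Real.log (a 0 + Real.log (b 0)) := by
      intro N
      unfold wt
      exact Finset.sum_range_sub (fun n => Real.log (a n + Real.log (b n))) N
    have hLinf : Tendsto (fun N => ∑ n ∈ Finset.range N, wt a b n) atTop atTop := by
      simp only [hLsum]
      exact tendsto_atTop_add_const_right _ _ (Real.tendsto_log_atTop.comp hinf)
    have hw0 : ∀ n, 0 ≤ wt a b n := by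
      intro n
      unfold wt
      have h1 : 0 < a n + Real.log (b n) := by linarith [ha n, hlb n]
      have := Real.log_le_log h1 (hmono (Nat.le_succ n))
      linarith
    set m : ℚ → ℚ → ℝ := fun p q => ∫ β in Ioo (0:ℝ) 1, ∫ x, hc p q x ∂(K β) with hm
    -- the averages of the cut-off functions
    have key : ∀ p q : ℚ, p < q → ∀ j : ℕ, ∀ᵐ y : ℝ, y ∈ Ioc (1 / ((j : ℝ) + 1)) ((j : ℝ) + 1) →
        Tendsto (fun N => (∑ n ∈ Finset.range N, wt a b n *
          hc p q (Ec ((Real.exp (a n * y + Real.log (b n))) ^ 2))) /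
          ∑ n ∈ Finset.range N, wt a b n) atTop (𝓝 (m p q)) := by
      intro p q hpq j
      have hpq' : (p : ℝ) < q := by exact_mod_cast hpq
      have hgm : Measurable fun r : ℝ => hc p q (Ec (r ^ 2)) - m p q :=
        ((hc_cont _ _).measurable.comp (Ec_meas.comp (by fun_prop))).sub_const _
      have hmb : |m p q| ≤ 1 := by
        have h := norm_setIntegral_le_of_norm_le_const (μ := volume) (s := Ioo (0:ℝ) 1)
          (f := fun β => ∫ x, hc p q x ∂(K β)) (C := 1) (by simp)
          (fun β _ => by rw [Real.norm_eq_abs]; exact hc_int_le hKm hKp p q β)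
        rw [Real.norm_eq_abs] at h
        simpa using h
      have hgb : ∀ r : ℝ, |hc p q (Ec (r ^ 2)) - m p q| ≤ 2 := by
        intro r
        have h1 := abs_sub (hc p q (Ec (r ^ 2))) (m p q)
        have h2 := hc_abs p q (Ec (r ^ 2))
        linarith
      have hW : SmallMeans fun r : ℝ => hc p q (Ec (r ^ 2)) - m p q := by
        intro η hη
        have hGm : Measurable fun r : ℝ => hc p q (Ec (r ^ 2)) :=
          (hc_cont _ _).measurable.comp (Ec_meas.comp (by fun_prop))
        obtain ⟨R₀, hR₀⟩ := window_mean (G := fun r : ℝ => hc p q (Ec (r ^ 2))) (B := 1) hGm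
          (fun r => hc_abs _ _ _) (ℓ := fun β => ∫ x, hc p q x ∂(K β)) (fun β hβ η hη =>
            (hKl β hβ).2.2.1 (hc p q) (hc_cont _ _) ⟨1, fun x => by
              have := hc_abs p q x
              nlinarith [sq_nonneg x]⟩ η hη) η hη
        refine ⟨R₀, fun R hR H hH1 hH2 => ?_⟩
        have h1 := hR₀ R hR H hH1 hH2
        rw [intervalIntegral.integral_sub (ShiftMean.bint hGm (fun r => hc_abs _ _ _) _ _) (by simp),
          intervalIntegral.integral_const, add_sub_cancel_left, smul_eq_mul, mul_comm H]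
        exact h1
      have hV : PolyVar fun r : ℝ => hc p q (Ec (r ^ 2)) - m p q := by
        refine polyVar_E (f := hc p q) (L := 1 / ((q : ℝ) - p))
          (by have : 0 < (q : ℝ) - p := by linarith
              positivity) (fun x y => ?_) (m p q)
        have := hc_lip hpq' x y
        rw [div_mul_eq_mul_div, one_mul]
        exact this
      have hae := ae_interval hgm hgb hW hV ha hlb hmono hinf hC (u := 1 / ((j : ℝ) + 1))
        (v := (j : ℝ) + 1) (by positivity) (by
          rw [div_le_iff₀ (by positivity)]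
          nlinarith [Nat.cast_nonneg (α := ℝ) j])
      filter_upwards [hae] with y hy hyI
      have h1 := (hy hyI).add_const (m p q)
      rw [zero_add] at h1
      refine h1.congr' ?_
      filter_upwards [hLinf.eventually_gt_atTop 0] with N hN
      have e1 : ∑ n ∈ Finset.range N, (Real.log (a (n + 1) + Real.log (b (n + 1))) -
          Real.log (a n + Real.log (b n))) *
          Xf (fun r : ℝ => hc p q (Ec (r ^ 2)) - m p q) (a n) (Real.log (b n)) y =
          (∑ n ∈ Finset.range N, wt a b n * hc p q (Ec ((Real.exp (a n * y + Real.log (b n))) ^ 2))) -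
          (∑ n ∈ Finset.range N, wt a b n) * m p q := by
        rw [Finset.sum_mul, ← Finset.sum_sub_distrib]
        refine Finset.sum_congr rfl fun n _ => ?_
        unfold Xf wt
        ring
      rw [e1]
      have gen : ∀ S W c : ℝ, 0 < W → (S - W * c) / W + c = S / W := by
        intro S W c hW
        rw [sub_div, mul_div_cancel_left₀ _ hW.ne', sub_add_cancel]
      exact gen _ _ _ hN
    have key2 : ∀ᵐ y : ℝ, ∀ (p q : ℚ), p < q → ∀ j : ℕ, y ∈ Ioc (1 / ((j : ℝ) + 1)) ((j : ℝ) + 1) →
        Tendsto (fun N => (∑ n ∈ Finset.range N, wt a b n *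
          hc p q (Ec ((Real.exp (a n * y + Real.log (b n))) ^ 2))) /
          ∑ n ∈ Finset.range N, wt a b n) atTop (𝓝 (m p q)) := by
      rw [ae_all_iff]
      intro p
      rw [ae_all_iff]
      intro q
      by_cases hpq : p < q
      · have h1 := ae_all_iff.2 (key p q hpq)
        filter_upwards [h1] with y hy _ j
        exact hy j
      · exact Eventually.of_forall fun y h => absurd h hpq
    rw [ae_iff] at key2
    have h3 := MeasureTheory.addHaar_image_eq_zero_of_differentiableOn_of_addHaar_eq_zero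
      (volume : Measure ℝ) (f := Real.exp) Real.differentiable_exp.differentiableOn key2
    have key3 : ∀ᵐ α : ℝ, 1 < α → ∀ (p q : ℚ), p < q → Tendsto (fun N => (∑ n ∈ Finset.range N,
        wt a b n * hc p q (Ec ((pt a b n α) ^ 2))) / ∑ n ∈ Finset.range N, wt a b n)
        atTop (𝓝 (m p q)) := by
      rw [ae_iff]
      refine measure_mono_null ?_ h3
      intro α hα
      have hα' : ¬ (1 < α → ∀ (p q : ℚ), p < q → Tendsto (fun N => (∑ n ∈ Finset.range N,
        wt a b n * hc p q (Ec ((pt a b n α) ^ 2))) / ∑ n ∈ Finset.range N, wt a b n)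
        atTop (𝓝 (m p q))) := hα
      rw [Classical.not_imp] at hα'
      obtain ⟨hα1, hα2⟩ := hα'
      have hα0 : 0 < α := by linarith
      refine ⟨Real.log α, ?_, Real.exp_log hα0⟩
      change ¬ _
      intro hall
      apply hα2
      intro p q hpq
      have hl : 0 < Real.log α := Real.log_pos hα1
      obtain ⟨j, hj⟩ := exists_nat_gt (max (1 / Real.log α) (Real.log α))
      have hj1 : 1 / Real.log α < j := (le_max_left _ _).trans_lt hj
      have hj2 : Real.log α < j := (le_max_right _ _).trans_lt hj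
      have h4 := hall p q hpq j ⟨by
        rw [div_lt_iff₀ hl] at hj1
        rw [div_lt_iff₀ (by positivity)]
        nlinarith, by linarith⟩
      refine h4.congr fun N => ?_
      congr 1
      refine Finset.sum_congr rfl fun n _ => ?_
      rw [hlogpt hb0 hα0]
    filter_upwards [key3] with α hα hα1 x
    have hα0 : 0 < α := by linarith
    have hconv := hα hα1
    change Tendsto _ atTop (𝓝 (M.real (Iic x)))
    -- comparison with the cut-off functions
    set W : ℕ → ℝ := fun N => ∑ n ∈ Finset.range N, wt a b n with hW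
    have hlow : ∀ p q : ℚ, p < q → (q : ℝ) ≤ x → ∀ᶠ N in atTop,
        (∑ n ∈ Finset.range N, wt a b n * hc p q (Ec ((pt a b n α) ^ 2))) / W N ≤
        (∑ n ∈ Finset.range N, if P (pt a b n α) ≤ x * √(pt a b n α) then wt a b n else 0) / W N := by
      intro p q hpq hqx
      have hpq' : (p : ℝ) < q := by exact_mod_cast hpq
      filter_upwards [hLinf.eventually_gt_atTop 0] with N hN
      apply div_le_div_of_nonneg_right _ hN.le
      apply Finset.sum_le_sum
      intro n _
      have hp0 : 0 < pt a b n α := mul_pos (hb0 n) (Real.rpow_pos_of_pos hα0 _)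
      split_ifs with h
      · exact mul_le_of_le_one_right (hw0 n) (hc_le _ _ _)
      · rw [P_eq hp0] at h
        push Not at h
        have h5 : x < Ec ((pt a b n α) ^ 2) := lt_of_mul_lt_mul_right h (Real.sqrt_nonneg _)
        rw [hc_zero hpq' (by linarith), mul_zero]
    have hhigh : ∀ p q : ℚ, p < q → x ≤ (p : ℝ) → ∀ᶠ N in atTop,
        (∑ n ∈ Finset.range N, if P (pt a b n α) ≤ x * √(pt a b n α) then wt a b n else 0) / W N ≤
        (∑ n ∈ Finset.range N, wt a b n * hc p q (Ec ((pt a b n α) ^ 2))) / W N := by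
      intro p q hpq hqx
      have hpq' : (p : ℝ) < q := by exact_mod_cast hpq
      filter_upwards [hLinf.eventually_gt_atTop 0] with N hN
      apply div_le_div_of_nonneg_right _ hN.le
      apply Finset.sum_le_sum
      intro n _
      have hp0 : 0 < pt a b n α := mul_pos (hb0 n) (Real.rpow_pos_of_pos hα0 _)
      split_ifs with h
      · rw [P_eq hp0] at h
        have h5 : Ec ((pt a b n α) ^ 2) ≤ x := le_of_mul_le_mul_right h (Real.sqrt_pos.2 hp0)
        rw [hc_one hpq' (by linarith), mul_one]
      · exact mul_nonneg (hw0 n) (hc_nonneg _ _ _)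
    rw [Metric.tendsto_atTop]
    intro ε hε
    -- continuity of the distribution function
    have hleft : ∃ p q : ℚ, p < q ∧ (q : ℝ) ≤ x ∧ M.real (Iic x) - ε / 2 < m p q := by
      have h5 : Tendsto (fun k : ℕ => M (Iic (x - 1 / ((k : ℝ) + 1)))) atTop (𝓝 (M (⋃ k : ℕ, Iic (x - 1 / ((k : ℝ) + 1))))) := by
        apply tendsto_measure_iUnion_atTop
        intro i k hik
        apply Iic_subset_Iic.2
        have : 1 / ((k : ℝ) + 1) ≤ 1 / ((i : ℝ) + 1) := by
          apply one_div_le_one_div_of_le (by positivity)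
          have : (i : ℝ) ≤ k := by exact_mod_cast hik
          linarith
        linarith
      have e5 : (⋃ k : ℕ, Iic (x - 1 / ((k : ℝ) + 1))) = Iio x := by
        ext z
        simp only [mem_iUnion, mem_Iic, mem_Iio]
        constructor
        · rintro ⟨k, hk⟩
          have : 0 < 1 / ((k : ℝ) + 1) := by positivity
          linarith
        · intro hz
          obtain ⟨k, hk⟩ := exists_nat_gt (1 / (x - z))
          refine ⟨k, ?_⟩
          have hd : 0 < x - z := by linarith
          have hk1 : (0:ℝ) < (k:ℝ) + 1 := by positivity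
          have : 1 / ((k : ℝ) + 1) ≤ x - z := by
            rw [div_lt_iff₀ hd] at hk
            rw [div_le_iff₀ hk1]
            nlinarith
          linarith
      have e6 : M (Iio x) = M (Iic x) := by
        rw [← Iio_union_right]
        refine le_antisymm (measure_mono subset_union_left) ?_
        refine (measure_union_le _ _).trans ?_
        rw [hatom x, add_zero]
      rw [e5, e6] at h5
      have h6 := (ENNReal.tendsto_toReal (measure_ne_top M (Iic x))).comp h5
      have h7 : ∀ᶠ k : ℕ in atTop, (M (Iic x)).toReal - ε / 2 < (M (Iic (x - 1 / ((k : ℝ) + 1)))).toReal :=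
        h6.eventually (lt_mem_nhds (by linarith))
      obtain ⟨k, hk⟩ := h7.exists
      have hk1 : 0 < 1 / ((k : ℝ) + 1) := by positivity
      obtain ⟨p, hp1, hp2⟩ := exists_rat_btwn (show x - 1 / ((k : ℝ) + 1) < x by linarith)
      obtain ⟨q, hq1, hq2⟩ := exists_rat_btwn hp2
      refine ⟨p, q, by exact_mod_cast hq1, hq2.le, ?_⟩
      have h8 := low hKm hKp (p := p) (q := q) hq1
      rw [← hreal _ measurableSet_Iic] at h8
      have h9 : M.real (Iic (x - 1 / ((k : ℝ) + 1))) ≤ M.real (Iic (p : ℝ)) :=
        measureReal_mono (Iic_subset_Iic.2 hp1.le)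
      calc M.real (Iic x) - ε / 2 < M.real (Iic (x - 1 / ((k : ℝ) + 1))) := hk
        _ ≤ _ := h9
        _ ≤ _ := h8
    have hright : ∃ p q : ℚ, p < q ∧ x ≤ (p : ℝ) ∧ m p q < M.real (Iic x) + ε / 2 := by
      have h5 : Tendsto (fun k : ℕ => M (Iic (x + 1 / ((k : ℝ) + 1)))) atTop (𝓝 (M (⋂ k : ℕ, Iic (x + 1 / ((k : ℝ) + 1))))) := by
        apply tendsto_measure_iInter_atTop
        · intro k; exact measurableSet_Iic.nullMeasurableSet
        · intro i k hik
          apply Iic_subset_Iic.2
          have : 1 / ((k : ℝ) + 1) ≤ 1 / ((i : ℝ) + 1) := by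
            apply one_div_le_one_div_of_le (by positivity)
            have : (i : ℝ) ≤ k := by exact_mod_cast hik
            linarith
          linarith
        · exact ⟨0, measure_ne_top _ _⟩
      have e5 : (⋂ k : ℕ, Iic (x + 1 / ((k : ℝ) + 1))) = Iic x := by
        ext z
        simp only [mem_iInter, mem_Iic]
        constructor
        · intro h
          by_contra hcon
          push Not at hcon
          obtain ⟨k, hk⟩ := exists_nat_gt (1 / (z - x))
          have hd : 0 < z - x := by linarith
          have hk1 : (0:ℝ) < (k:ℝ) + 1 := by positivity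
          have h6 : 1 / ((k : ℝ) + 1) < z - x := by
            rw [div_lt_iff₀ hd] at hk
            rw [div_lt_iff₀ hk1]
            nlinarith
          have := h k
          linarith
        · intro hz k
          have : 0 < 1 / ((k : ℝ) + 1) := by positivity
          linarith
      rw [e5] at h5
      have h6 := (ENNReal.tendsto_toReal (measure_ne_top M (Iic x))).comp h5
      have h7 : ∀ᶠ k : ℕ in atTop, (M (Iic (x + 1 / ((k : ℝ) + 1)))).toReal < (M (Iic x)).toReal + ε / 2 :=
        h6.eventually (gt_mem_nhds (by linarith))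
      obtain ⟨k, hk⟩ := h7.exists
      have hk1 : 0 < 1 / ((k : ℝ) + 1) := by positivity
      obtain ⟨p, hp1, hp2⟩ := exists_rat_btwn (show x < x + 1 / ((k : ℝ) + 1) by linarith)
      obtain ⟨q, hq1, hq2⟩ := exists_rat_btwn hp2
      refine ⟨p, q, by exact_mod_cast hq1, hp1.le, ?_⟩
      have h8 := high hKm hKp (p := p) (q := q) hq1
      rw [← hreal _ measurableSet_Iic] at h8
      have h9 : M.real (Iic (q : ℝ)) ≤ M.real (Iic (x + 1 / ((k : ℝ) + 1))) :=
        measureReal_mono (Iic_subset_Iic.2 hq2.le)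
      calc m p q ≤ _ := h8
        _ ≤ _ := h9
        _ < _ := hk
    obtain ⟨p, q, hpq, hqx, hm1⟩ := hleft
    obtain ⟨p', q', hpq', hqx', hm2⟩ := hright
    have g1 := (hconv p q hpq).eventually (lt_mem_nhds hm1)
    have g2 := (hconv p' q' hpq').eventually (gt_mem_nhds hm2)
    obtain ⟨N₀, hN₀⟩ := eventually_atTop.1 (((hlow p q hpq hqx).and (hhigh p' q' hpq' hqx')).and (g1.and g2))
    refine ⟨N₀, fun N hN => ?_⟩
    obtain ⟨⟨k1, k2⟩, k3, k4⟩ := hN₀ N hN
    rw [Real.dist_eq, abs_lt]
    constructor <;> linarith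

end Pool.Agent.R306.Circ
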