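import Pool.Agent.R306.CatHit

/-!
Hausdorff dimension of the parameters whose points meet a sparse set of unit intervals infinitely often.
-/

set_option autoImplicit false

open MeasureTheory Filter Topology Set Real
open scoped ENNReal NNReal

namespace Pool.Agent.R306.DimB

open Pool.Agent.R306.CatHit

open Classical in
/-- sums over a sparse set -/
lemma tail_sum {Bad : Set ℕ} {C η s : ℝ} (hC : 0 ≤ C) (hs : 0 < s) (hsη : 0 < s - 1 + η)
    (h : ∀ K : ℕ, 1 ≤ K → (((Finset.Ico K (2 * K)).filter (fun m => m ∈ Bad)).card : ℝ) ≤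
      C * (K : ℝ) ^ (1 - η)) :
    ∃ C' : ℝ, 0 < C' ∧ ∀ M : ℕ, 1 ≤ M →
      ∑' m : ℕ, (if m ∈ Bad ∧ M ≤ m then ENNReal.ofReal ((m : ℝ) ^ (-s)) else 0) ≤
        ENNReal.ofReal (C' * (M : ℝ) ^ (-(s - 1 + η))) := by
  set t : ℝ := s - 1 + η with ht
  set q : ℝ := (2 : ℝ) ^ (-t) with hq
  have hq0 : 0 < q := Real.rpow_pos_of_pos (by norm_num) _
  have hq1 : q < 1 := Real.rpow_lt_one_of_one_lt_of_neg (by norm_num) (by linarith)
  refine ⟨(C + 1) * (1 - q)⁻¹, by have : 0 < 1 - q := by linarith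
                                  positivity, fun M hM => ?_⟩
  have hM0 : (0:ℝ) < M := by exact_mod_cast hM
  -- the block sums
  have hblock : ∀ i : ℕ, ∑' m : ℕ, (if m ∈ Bad ∧ m ∈ Finset.Ico (2 ^ i * M) (2 * (2 ^ i * M)) then
      ENNReal.ofReal ((m : ℝ) ^ (-s)) else 0) ≤
      ENNReal.ofReal ((C + 1) * (M : ℝ) ^ (-t) * q ^ i) := by
    intro i
    set K : ℕ := 2 ^ i * M with hK
    have hK1 : 1 ≤ K := Nat.one_le_iff_ne_zero.2 (by positivity)
    have hK0 : (0:ℝ) < K := by exact_mod_cast hK1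
    have e1 : ∑' m : ℕ, (if m ∈ Bad ∧ m ∈ Finset.Ico K (2 * K) then
        ENNReal.ofReal ((m : ℝ) ^ (-s)) else 0) =
        ∑ m ∈ (Finset.Ico K (2 * K)).filter (fun m => m ∈ Bad), ENNReal.ofReal ((m : ℝ) ^ (-s)) := by
      rw [tsum_eq_sum (s := (Finset.Ico K (2 * K)).filter (fun m => m ∈ Bad))]
      · apply Finset.sum_congr rfl
        intro m hm
        rw [Finset.mem_filter] at hm
        rw [if_pos ⟨hm.2, hm.1⟩]
      · intro m hm
        rw [Finset.mem_filter] at hm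
        rw [if_neg]
        rintro ⟨h1, h2⟩
        exact hm ⟨h2, h1⟩
    rw [e1]
    have h2 : ∀ m ∈ (Finset.Ico K (2 * K)).filter (fun m => m ∈ Bad),
        ENNReal.ofReal ((m : ℝ) ^ (-s)) ≤ ENNReal.ofReal ((K : ℝ) ^ (-s)) := by
      intro m hm
      rw [Finset.mem_filter, Finset.mem_Ico] at hm
      apply ENNReal.ofReal_le_ofReal
      have hKm : (K : ℝ) ≤ m := by exact_mod_cast hm.1.1
      exact Real.rpow_le_rpow_of_nonpos hK0 hKm (by linarith)
    refine (Finset.sum_le_card_nsmul _ _ _ h2).trans ?_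
    rw [nsmul_eq_mul, ← ENNReal.ofReal_natCast, ← ENNReal.ofReal_mul (by positivity)]
    apply ENNReal.ofReal_le_ofReal
    calc (((Finset.Ico K (2 * K)).filter (fun m => m ∈ Bad)).card : ℝ) * (K : ℝ) ^ (-s)
        ≤ ((C + 1) * (K : ℝ) ^ (1 - η)) * (K : ℝ) ^ (-s) := by
          apply mul_le_mul_of_nonneg_right _ (by positivity)
          refine (h K hK1).trans ?_
          apply mul_le_mul_of_nonneg_right (by linarith) (by positivity)
      _ = (C + 1) * (K : ℝ) ^ (-t) := by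
          rw [mul_assoc, ← Real.rpow_add hK0]
          congr 2
          rw [ht]; ring
      _ = (C + 1) * (M : ℝ) ^ (-t) * q ^ i := by
          have e2 : (K : ℝ) = (2:ℝ) ^ i * M := by rw [hK]; push_cast; ring
          rw [e2, Real.mul_rpow (by positivity) hM0.le, hq, ← Real.rpow_natCast, ← Real.rpow_natCast,
            ← Real.rpow_mul (by norm_num), ← Real.rpow_mul (by norm_num)]
          rw [show (i : ℝ) * -t = -t * i by ring]
          ring
  calc ∑' m : ℕ, (if m ∈ Bad ∧ M ≤ m then ENNReal.ofReal ((m : ℝ) ^ (-s)) else 0)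
      ≤ ∑' m : ℕ, ∑' i : ℕ, (if m ∈ Bad ∧ m ∈ Finset.Ico (2 ^ i * M) (2 * (2 ^ i * M)) then
          ENNReal.ofReal ((m : ℝ) ^ (-s)) else 0) := by
        apply ENNReal.tsum_le_tsum
        intro m
        by_cases hm : m ∈ Bad ∧ M ≤ m
        · rw [if_pos hm]
          have hmM : m / M ≠ 0 := by
            have := Nat.div_pos hm.2 (by omega)
            omega
          set i₀ : ℕ := Nat.log 2 (m / M) with hi
          have h1 : 2 ^ i₀ ≤ m / M := Nat.pow_log_le_self 2 hmM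
          have h2 : m / M < 2 ^ (i₀ + 1) := Nat.lt_pow_succ_log_self (by norm_num) _
          have h3 : 2 ^ i₀ * M ≤ m := (Nat.le_div_iff_mul_le (by omega)).1 h1
          have h4 : m < 2 ^ (i₀ + 1) * M := (Nat.div_lt_iff_lt_mul (by omega)).1 h2
          have h5 : m ∈ Bad ∧ m ∈ Finset.Ico (2 ^ i₀ * M) (2 * (2 ^ i₀ * M)) := by
            refine ⟨hm.1, Finset.mem_Ico.2 ⟨h3, ?_⟩⟩
            rw [pow_succ] at h4
            calc m < 2 ^ i₀ * 2 * M := h4
              _ = 2 * (2 ^ i₀ * M) := by ring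
          refine le_trans (le_of_eq ?_) (ENNReal.le_tsum i₀)
          rw [if_pos h5]
        · rw [if_neg hm]
          exact zero_le
    _ = ∑' i : ℕ, ∑' m : ℕ, (if m ∈ Bad ∧ m ∈ Finset.Ico (2 ^ i * M) (2 * (2 ^ i * M)) then
          ENNReal.ofReal ((m : ℝ) ^ (-s)) else 0) := ENNReal.tsum_comm
    _ ≤ ∑' i : ℕ, ENNReal.ofReal ((C + 1) * (M : ℝ) ^ (-t) * q ^ i) :=
        ENNReal.tsum_le_tsum hblock
    _ = ENNReal.ofReal ((C + 1) * (1 - q)⁻¹ * (M : ℝ) ^ (-t)) := by
        rw [← ENNReal.ofReal_tsum_of_nonneg (fun i => by positivity)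
          ((summable_geometric_of_lt_one hq0.le hq1).mul_left _), tsum_mul_left,
          tsum_geometric_of_lt_one hq0.le hq1]
        congr 1
        ring

open Classical in
/-- **dimension bound** for the parameters in a compact interval -/
theorem dim_Icc {a b : ℕ → ℝ} (ha : ∀ n, 1 ≤ a n) (hb : ∀ n, 0 < b n) {A B : ℝ} (hA : 0 < A)
    (hinf : Tendsto (fun n : ℕ => Real.log (pt a b n A) / Real.log n) atTop atTop)
    {Bad : Set ℕ} {C η s : ℝ} (hC : 0 ≤ C) (hs : 0 < s) (hsη : 0 < s - 1 + η)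
    (h : ∀ K : ℕ, 1 ≤ K → (((Finset.Ico K (2 * K)).filter (fun m => m ∈ Bad)).card : ℝ) ≤
      C * (K : ℝ) ^ (1 - η)) :
    μH[s] {α : ℝ | α ∈ Icc A B ∧ ∃ᶠ n in atTop, ∃ m ∈ Bad,
      (m : ℝ) ≤ (pt a b n α) ^ 2 ∧ (pt a b n α) ^ 2 < m + 1} = 0 := by
  obtain ⟨C', hC', htail⟩ := tail_sum hC hs hsη h
  set t : ℝ := s - 1 + η with ht
  rcases lt_or_ge B A with hBA | hBA
  · have : {α : ℝ | α ∈ Icc A B ∧ ∃ᶠ n in atTop, ∃ m ∈ Bad,
      (m : ℝ) ≤ (pt a b n α) ^ 2 ∧ (pt a b n α) ^ 2 < m + 1} = ∅ := by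
      apply eq_empty_of_forall_notMem
      rintro α ⟨hα, _⟩
      linarith [hα.1, hα.2]
    rw [this, measure_empty]
  have hB : 0 < B := by linarith
  have hpt : ∀ n x, 0 < x → 0 < pt a b n x := fun n x hx =>
    mul_pos (hb n) (Real.rpow_pos_of_pos hx _)
  -- growth of the points at the left end
  have hgrow : ∀ᶠ n : ℕ in atTop, 2 * ((n : ℝ) ^ (2 / t)) ≤ (pt a b n A) ^ 2 := by
    have h1 := hinf.eventually_ge_atTop (1 / t + 1)
    filter_upwards [h1, eventually_ge_atTop 2] with n hn hn2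
    have hn0 : (2:ℝ) ≤ n := by exact_mod_cast hn2
    have hln : 0 < Real.log n := Real.log_pos (by linarith)
    rw [le_div_iff₀ hln] at hn
    have h2 : (n : ℝ) ^ (1 / t + 1) ≤ pt a b n A := by
      rw [← Real.exp_log (hpt n A hA), Real.rpow_def_of_pos (by linarith)]
      apply Real.exp_le_exp.2
      linarith
    calc 2 * ((n : ℝ) ^ (2 / t)) ≤ (n : ℝ) ^ (2:ℝ) * (n : ℝ) ^ (2 / t) := by
          apply mul_le_mul_of_nonneg_right _ (by positivity)
          norm_num
          nlinarith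
      _ = ((n : ℝ) ^ (1 / t + 1)) ^ 2 := by
          rw [← Real.rpow_add (by linarith), ← Real.rpow_natCast, ← Real.rpow_mul (by linarith)]
          congr 1
          push_cast
          ring
      _ ≤ (pt a b n A) ^ 2 := pow_le_pow_left₀ (by positivity) h2 2
  obtain ⟨n₁, hn₁⟩ := eventually_atTop.1 (hgrow.and (eventually_ge_atTop 1))
  -- the majorants
  set Mn : ℕ → ℕ := fun n => ⌊(pt a b n A) ^ 2⌋₊ with hMn
  have hMn1 : ∀ n, n₁ ≤ n → (n : ℝ) ^ (2 / t) ≤ Mn n ∧ 1 ≤ Mn n := by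
    intro n hn
    obtain ⟨h1, h2⟩ := hn₁ n hn
    have hn0 : (1:ℝ) ≤ n := by exact_mod_cast h2
    have h3 : (1:ℝ) ≤ (n : ℝ) ^ (2 / t) := Real.one_le_rpow hn0 (by positivity)
    have h4 := (Nat.sub_one_lt_floor ((pt a b n A) ^ 2)).le
    have h5 : (n : ℝ) ^ (2 / t) ≤ Mn n := by
      rw [hMn]
      dsimp only
      linarith
    refine ⟨h5, ?_⟩
    have h6 : (1:ℝ) ≤ Mn n := h3.trans h5
    exact_mod_cast h6
  set f : ℕ → ℝ≥0∞ := fun n => if n₁ ≤ n then
    ENNReal.ofReal (B ^ s * (C' * (n : ℝ) ^ (-2 : ℝ))) else 0 with hf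
  have hfsum : ∑' n, f n ≠ ∞ := by
    have hsm : Summable fun n : ℕ => B ^ s * (C' * (n : ℝ) ^ (-2 : ℝ)) :=
      ((Real.summable_nat_rpow.2 (by norm_num)).mul_left C').mul_left _
    refine ne_top_of_le_ne_top ?_ (ENNReal.tsum_le_tsum (g := fun n : ℕ =>
      ENNReal.ofReal (B ^ s * (C' * (n : ℝ) ^ (-2 : ℝ)))) fun n => ?_)
    · rw [← ENNReal.ofReal_tsum_of_nonneg (fun n => by positivity) hsm]
      exact ENNReal.ofReal_ne_top
    · rw [hf]
      dsimp only
      split_ifs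
      · exact le_rfl
      · exact zero_le
  -- the covering sets
  set T : ℕ → ℕ → Set ℝ := fun n m => if n₁ ≤ n ∧ m ∈ Bad then
    {α : ℝ | α ∈ Icc A B ∧ (m : ℝ) ≤ (pt a b n α) ^ 2 ∧ (pt a b n α) ^ 2 < m + 1} else ∅ with hT
  have hmono : ∀ n x y, 0 < x → x ≤ y → pt a b n x ≤ pt a b n y := by
    intro n x y hx hxy
    unfold pt
    exact mul_le_mul_of_nonneg_left (Real.rpow_le_rpow hx.le hxy (by linarith [ha n])) (hb n).le
  have hdiam : ∀ n m, Metric.ediam (T n m) ≤ if m ∈ Bad ∧ Mn n ≤ m ∧ n₁ ≤ n then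
      ENNReal.ofReal (B / m) else 0 := by
    intro n m
    by_cases hc : n₁ ≤ n ∧ m ∈ Bad
    swap
    · rw [hT]
      dsimp only
      rw [if_neg hc, Metric.ediam_empty]
      exact zero_le
    have hTe : T n m = {α : ℝ | α ∈ Icc A B ∧ (m : ℝ) ≤ (pt a b n α) ^ 2 ∧
        (pt a b n α) ^ 2 < m + 1} := by
      rw [hT]
      dsimp only
      rw [if_pos hc]
    by_cases hne : (T n m).Nonempty
    swap
    · rw [not_nonempty_iff_eq_empty.1 hne, Metric.ediam_empty]
      exact zero_le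
    obtain ⟨α₁, hα₁⟩ := hne
    rw [hTe] at hα₁
    have hMm : Mn n ≤ m := by
      have h1 : pt a b n A ≤ pt a b n α₁ := hmono n A α₁ hA hα₁.1.1
      have h2 : (pt a b n A) ^ 2 < m + 1 :=
        (pow_le_pow_left₀ (hpt n A hA).le h1 2).trans_lt hα₁.2.2
      have h3 : Mn n < m + 1 := by
        rw [hMn]
        dsimp only
        rw [Nat.floor_lt (by positivity)]
        push_cast
        exact h2
      omega
    rw [if_pos ⟨hc.2, hMm, hc.1⟩]
    have hm1 : 1 ≤ m := (hMn1 n hc.1).2.trans hMm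
    have hm0 : (0:ℝ) < m := by exact_mod_cast hm1
    -- distances
    have hd : ∀ x ∈ T n m, ∀ y ∈ T n m, x ≤ y → y - x ≤ B / m := by
      intro x hx y hy hxy
      rw [hTe] at hx hy
      have hx0 : 0 < x := lt_of_lt_of_le hA hx.1.1
      have hy0 : 0 < y := lt_of_lt_of_le hA hy.1.1
      have hr1 : 1 ≤ y / x := (one_le_div hx0).2 hxy
      have e1 : (pt a b n y) ^ 2 = (pt a b n x) ^ 2 * (y / x) ^ (2 * a n) := by
        unfold pt
        rw [Real.div_rpow hy0.le hx0.le]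
        have hxp : 0 < x ^ (a n) := Real.rpow_pos_of_pos hx0 _
        have e2 : x ^ (2 * a n) = (x ^ (a n)) ^ 2 := by
          rw [← Real.rpow_natCast, ← Real.rpow_mul hx0.le]; congr 1; push_cast; ring
        have e3 : y ^ (2 * a n) = (y ^ (a n)) ^ 2 := by
          rw [← Real.rpow_natCast, ← Real.rpow_mul hy0.le]; congr 1; push_cast; ring
        rw [e2, e3]
        field_simp
      have h1 : (m : ℝ) * (y / x) ^ (2 * a n) < m + 1 := by
        calc (m : ℝ) * (y / x) ^ (2 * a n) ≤ (pt a b n x) ^ 2 * (y / x) ^ (2 * a n) :=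
              mul_le_mul_of_nonneg_right hx.2.1 (by positivity)
          _ = (pt a b n y) ^ 2 := e1.symm
          _ < m + 1 := hy.2.2
      have h2 : y / x ≤ (y / x) ^ (2 * a n) := by
        conv_lhs => rw [← Real.rpow_one (y / x)]
        exact Real.rpow_le_rpow_of_exponent_le hr1 (by linarith [ha n])
      have h3 : (m : ℝ) * (y / x) < m + 1 := lt_of_le_of_lt (mul_le_mul_of_nonneg_left h2 hm0.le) h1
      have h4 : (m : ℝ) * (y - x) < x := by
        have e4 : (m : ℝ) * (y / x) = m * y / x := by ring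
        rw [e4, div_lt_iff₀ hx0] at h3
        nlinarith
      rw [le_div_iff₀ hm0]
      have : x ≤ B := hx.1.2
      linarith
    apply Metric.ediam_le
    intro x hx y hy
    rw [edist_dist, Real.dist_eq]
    apply ENNReal.ofReal_le_ofReal
    rcases le_total x y with hxy | hxy
    · rw [abs_sub_comm, abs_of_nonneg (by linarith)]
      exact hd x hx y hy hxy
    · rw [abs_of_nonneg (by linarith)]
      exact hd y hy x hx hxy
  have hrow : ∀ n, ∑' m : ℕ, Metric.ediam (T n m) ^ s ≤ f n := by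
    intro n
    by_cases hn : n₁ ≤ n
    swap
    · have h1 : ∀ m, Metric.ediam (T n m) ^ s = 0 := by
        intro m
        have h2 := hdiam n m
        rw [if_neg (fun h => hn h.2.2)] at h2
        rw [le_antisymm h2 (zero_le), ENNReal.zero_rpow_of_pos hs]
      simp only [h1, tsum_zero]
      exact zero_le
    obtain ⟨g1, g2⟩ := hMn1 n hn
    have hn1 : 1 ≤ n := (hn₁ n hn).2
    have hn0 : (0:ℝ) < n := by exact_mod_cast hn1
    have h1 : ∀ m : ℕ, Metric.ediam (T n m) ^ s ≤ ENNReal.ofReal (B ^ s) *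
        (if m ∈ Bad ∧ Mn n ≤ m then ENNReal.ofReal ((m : ℝ) ^ (-s)) else 0) := by
      intro m
      refine (ENNReal.rpow_le_rpow (hdiam n m) hs.le).trans ?_
      by_cases hc : m ∈ Bad ∧ Mn n ≤ m
      · rw [if_pos ⟨hc.1, hc.2, hn⟩, if_pos hc]
        have hm1 : 1 ≤ m := g2.trans hc.2
        have hm0 : (0:ℝ) < m := by exact_mod_cast hm1
        rw [ENNReal.ofReal_rpow_of_pos (by positivity), ← ENNReal.ofReal_mul (by positivity),
          Real.div_rpow hB.le hm0.le, Real.rpow_neg hm0.le]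
        exact le_of_eq (by rw [div_eq_mul_inv])
      · rw [if_neg hc, if_neg (fun h => hc ⟨h.1, h.2.1⟩), ENNReal.zero_rpow_of_pos hs]
        simp
    calc ∑' m : ℕ, Metric.ediam (T n m) ^ s
        ≤ ∑' m : ℕ, ENNReal.ofReal (B ^ s) *
          (if m ∈ Bad ∧ Mn n ≤ m then ENNReal.ofReal ((m : ℝ) ^ (-s)) else 0) :=
          ENNReal.tsum_le_tsum h1
      _ = ENNReal.ofReal (B ^ s) * ∑' m : ℕ,
          (if m ∈ Bad ∧ Mn n ≤ m then ENNReal.ofReal ((m : ℝ) ^ (-s)) else 0) :=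
          ENNReal.tsum_mul_left
      _ ≤ ENNReal.ofReal (B ^ s) * ENNReal.ofReal (C' * (Mn n : ℝ) ^ (-t)) := by
          gcongr
          exact htail (Mn n) g2
      _ ≤ f n := by
          rw [hf]
          dsimp only
          rw [if_pos hn, ← ENNReal.ofReal_mul (by positivity)]
          apply ENNReal.ofReal_le_ofReal
          apply mul_le_mul_of_nonneg_left _ (by positivity)
          apply mul_le_mul_of_nonneg_left _ hC'.le
          calc (Mn n : ℝ) ^ (-t) ≤ ((n : ℝ) ^ (2 / t)) ^ (-t) :=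
                Real.rpow_le_rpow_of_nonpos (Real.rpow_pos_of_pos hn0 _) g1 (by linarith)
            _ = (n : ℝ) ^ (-2 : ℝ) := by
                rw [← Real.rpow_mul hn0.le]
                congr 1
                field_simp
  have htot : ∀ N : ℕ, ∑' p : ℕ × ℕ, Metric.ediam (T (p.1 + N) p.2) ^ s ≤ ∑' k, f (k + N) := by
    intro N
    rw [ENNReal.tsum_prod']
    exact ENNReal.tsum_le_tsum fun k => hrow (k + N)
  have htail0 : Tendsto (fun N => ∑' k, f (k + N)) atTop (𝓝 0) := ENNReal.tendsto_sum_nat_add f hfsum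
  have hr0 : Tendsto (fun N => (∑' k, f (k + N)) ^ (1 / s)) atTop (𝓝 0) := by
    have h1 := (ENNReal.continuous_rpow_const (y := 1 / s)).tendsto 0
    rw [ENNReal.zero_rpow_of_pos (by positivity)] at h1
    exact h1.comp htail0
  have hmain := MeasureTheory.Measure.hausdorffMeasure_le_liminf_tsum (X := ℝ) (ι := fun _ : ℕ => ℕ × ℕ)
    s {α : ℝ | α ∈ Icc A B ∧ ∃ᶠ n in atTop, ∃ m ∈ Bad,
      (m : ℝ) ≤ (pt a b n α) ^ 2 ∧ (pt a b n α) ^ 2 < m + 1} (l := atTop)
    (fun N => (∑' k, f (k + N)) ^ (1 / s)) hr0 (fun N p => T (p.1 + N) p.2) ?_ ?_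
  · refine le_antisymm (hmain.trans ?_) (zero_le)
    have h2 : liminf (fun N => ∑' k, f (k + N)) atTop = 0 := htail0.liminf_eq
    rw [← h2]
    exact liminf_le_liminf (Eventually.of_forall fun N => htot N)
  · refine Eventually.of_forall fun N p => ?_
    have h1 : Metric.ediam (T (p.1 + N) p.2) ^ s ≤ ∑' k, f (k + N) :=
      (ENNReal.le_tsum (f := fun p : ℕ × ℕ => Metric.ediam (T (p.1 + N) p.2) ^ s) p).trans (htot N)
    calc Metric.ediam (T (p.1 + N) p.2) = (Metric.ediam (T (p.1 + N) p.2) ^ s) ^ (1 / s) := by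
          rw [← ENNReal.rpow_mul, mul_one_div_cancel hs.ne', ENNReal.rpow_one]
      _ ≤ _ := ENNReal.rpow_le_rpow h1 (by positivity)
  · refine Eventually.of_forall fun N => ?_
    rintro α ⟨hα, hfr⟩
    obtain ⟨n, hn, m, hm, h1, h2⟩ := frequently_atTop.1 hfr (max N n₁)
    rw [mem_iUnion]
    refine ⟨(n - N, m), ?_⟩
    have e : n - N + N = n := by
      have := (le_max_left N n₁).trans hn
      omega
    change α ∈ T (n - N + N) m
    rw [e, hT]
    dsimp only
    rw [if_pos ⟨(le_max_right N n₁).trans hn, hm⟩]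
    exact ⟨hα, h1, h2⟩

end Pool.Agent.R306.DimB
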