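import Pool.Agent.R306.Win
import Pool.Agent.R306.DimB
import Pool.Agent.R306.AEHit
import Pool.Agent.H383.Full3
import Pool.Agent.Y969.QM4

/-!
The error term of the circle problem along `b n * α ^ (a n)`: measure, dimension and category.
-/

set_option autoImplicit false

open MeasureTheory Filter Topology Set Real
open scoped ENNReal NNReal

namespace Pool.Agent.R306.Circ

open Pool.Agent.R306.CatHit Pool.Agent.R306.DimB Pool.Agent.R306.AEHit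
open Pool.Agent.H425R3.JL (Ec)

/-- the number of integer points with `|p| ^ 2 ≤ x` -/
noncomputable def Nn (x : ℝ) : ℝ := (Nat.card {p : ℤ × ℤ // (p.1 : ℝ) ^ 2 + (p.2 : ℝ) ^ 2 ≤ x} : ℝ)

/-- the number of integer points in the disc of radius `R` -/
noncomputable def F (R : ℝ) : ℝ :=
  (Nat.card {p : ℤ × ℤ // (p.1 : ℝ) ^ 2 + (p.2 : ℝ) ^ 2 ≤ R ^ 2} : ℝ)

/-- the error term -/
noncomputable def P (R : ℝ) : ℝ := F R - Real.pi * R ^ 2

lemma fin (x : ℝ) : {p : ℤ × ℤ | (p.1 : ℝ) ^ 2 + (p.2 : ℝ) ^ 2 ≤ x}.Finite := by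
  have h : {p : ℤ × ℤ | (p.1 : ℝ) ^ 2 + (p.2 : ℝ) ^ 2 ≤ x} ⊆
      (Set.Icc (-⌈|x| + 1⌉) ⌈|x| + 1⌉) ×ˢ (Set.Icc (-⌈|x| + 1⌉) ⌈|x| + 1⌉) := by
    rintro ⟨m, n⟩ hp
    have hp' : (m : ℝ) ^ 2 + (n : ℝ) ^ 2 ≤ x := hp
    have hx : x ≤ |x| := le_abs_self x
    have h0 : 0 ≤ |x| := abs_nonneg x
    have key : ∀ k : ℤ, (k : ℝ) ^ 2 ≤ |x| → -⌈|x| + 1⌉ ≤ k ∧ k ≤ ⌈|x| + 1⌉ := by
      intro k hk
      have h1 : |(k : ℝ)| ≤ |x| + 1 := by
        rw [← sq_abs] at hk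
        nlinarith [abs_nonneg (k : ℝ)]
      have h2 := Int.le_ceil (|x| + 1)
      obtain ⟨h3, h4⟩ := abs_le.1 h1
      constructor
      · have : (-(⌈|x| + 1⌉ : ℤ) : ℝ) ≤ k := by push_cast; linarith
        exact_mod_cast this
      · have : (k : ℝ) ≤ (⌈|x| + 1⌉ : ℤ) := by linarith
        exact_mod_cast this
    refine ⟨key m ?_, key n ?_⟩
    · nlinarith [sq_nonneg (n : ℝ)]
    · nlinarith [sq_nonneg (m : ℝ)]
  exact ((Set.finite_Icc _ _).prod (Set.finite_Icc _ _)).subset h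

lemma Nn_mono : Monotone Nn := by
  intro x y hxy
  unfold Nn
  have h : {p : ℤ × ℤ | (p.1 : ℝ) ^ 2 + (p.2 : ℝ) ^ 2 ≤ x} ⊆
      {p : ℤ × ℤ | (p.1 : ℝ) ^ 2 + (p.2 : ℝ) ^ 2 ≤ y} := fun p hp => le_trans hp hxy
  exact_mod_cast Nat.card_mono (fin y) h

lemma F_eq (R : ℝ) : F R = Nn (R ^ 2) := rfl

lemma F_mono : MonotoneOn F (Ioi 0) := by
  intro x hx y _ hxy
  rw [F_eq, F_eq]
  exact Nn_mono (pow_le_pow_left₀ (le_of_lt hx) hxy 2)

lemma Ec_eq (x : ℝ) : Ec x = (Nn x - Real.pi * x) / x ^ (1 / 4 : ℝ) := rfl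

lemma Ec_meas : Measurable Ec := by
  have : Ec = fun x => (Nn x - Real.pi * x) / x ^ (1 / 4 : ℝ) := rfl
  rw [this]
  exact (Nn_mono.measurable.sub (measurable_const.mul measurable_id)).div
    (measurable_id.pow_const _)

lemma P_eq {R : ℝ} (hR : 0 < R) : P R = Ec (R ^ 2) * √R := by
  have e : (R ^ 2) ^ (1 / 4 : ℝ) = √R := by
    rw [Real.sqrt_eq_rpow, ← Real.rpow_natCast, ← Real.rpow_mul hR.le]
    norm_num
  rw [Ec_eq, e, P, F_eq, div_mul_cancel₀ _ (Real.sqrt_pos.2 hR).ne']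

open Classical in
/-- frequencies of large values -/
lemma freq_up (V : ℝ) : ∀ β ∈ Ioo (0:ℝ) 1, ∃ p : ℝ, 0 < p ∧ ∀ η : ℝ, 0 < η →
    ∃ N₀ : ℕ, ∀ N : ℕ, N₀ ≤ N → ∀ k : ℕ, (k : ℝ) ^ (3 / 4 : ℝ) ≤ N →
      |(((Finset.Ico k (k + N)).filter (fun n : ℕ => (n : ℝ) + β ∈
        {R : ℝ | 0 < R ∧ V < Ec (R ^ 2)})).card : ℝ) / N - p| ≤ η := by
  intro β hβ
  obtain ⟨μ, g, -, -, -, hpos, -, -, hd, -⟩ := Pool.Agent.H383.Circ.distr3 (a := 1) (b := 2 * β)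
    (c := β ^ 2) one_pos (fun n => by have := hβ.1; positivity)
  refine ⟨1 - (μ : Measure ℝ).real (Iic V), ?_, ?_⟩
  · have h1 : (μ : Measure ℝ).real (Iic V) + (μ : Measure ℝ).real (Ioi V) = 1 := by
      have hdisj : Disjoint (Iic V) (Ioi V) := Set.Iic_disjoint_Ioi le_rfl
      rw [← measureReal_union hdisj measurableSet_Ioi, Iic_union_Ioi]
      simp
    have h2 : 0 < (μ : Measure ℝ).real (Ioi V) := by
      have h3 : 0 < (μ : Measure ℝ) (Ioi V) :=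
        (hpos V (V + 1) (by linarith)).trans_le (measure_mono fun x hx => hx.1)
      exact ENNReal.toReal_pos h3.ne' (measure_ne_top _ _)
    linarith
  · intro η hη
    obtain ⟨N₀, hN₀⟩ := hd (1 / 4) (by norm_num) η hη
    refine ⟨max N₀ 1, fun N hN k hk => ?_⟩
    have hN1 : 1 ≤ N := (le_max_right _ _).trans hN
    have hNpos : (0:ℝ) < N := by exact_mod_cast hN1
    have h1 := hN₀ N ((le_max_left _ _).trans hN) k (by norm_num at hk ⊢; exact hk) V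
    have e : (((Finset.Ico k (k + N)).filter (fun n : ℕ => (n : ℝ) + β ∈
        {R : ℝ | 0 < R ∧ V < Ec (R ^ 2)})).card : ℝ) = N -
        (((Finset.Ico k (k + N)).filter (fun n : ℕ =>
            Pool.Agent.H383.Circ.Cx (1 * n^2 + (2 * β) * n + β ^ 2) /
              (1 * (n:ℝ)^2 + (2 * β) * n + β ^ 2) ^ (1/4:ℝ) ≤ V)).card : ℝ) := by
      have h2 := Finset.card_filter_add_card_filter_not (s := Finset.Ico k (k + N))
        (fun n : ℕ => Pool.Agent.H383.Circ.Cx (1 * n^2 + (2 * β) * n + β ^ 2) /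
              (1 * (n:ℝ)^2 + (2 * β) * n + β ^ 2) ^ (1/4:ℝ) ≤ V)
      rw [Nat.card_Ico, Nat.add_sub_cancel_left] at h2
      have h3 : ((Finset.Ico k (k + N)).filter (fun n : ℕ => (n : ℝ) + β ∈
          {R : ℝ | 0 < R ∧ V < Ec (R ^ 2)})) = ((Finset.Ico k (k + N)).filter (fun n : ℕ =>
          ¬ (Pool.Agent.H383.Circ.Cx (1 * n^2 + (2 * β) * n + β ^ 2) /
              (1 * (n:ℝ)^2 + (2 * β) * n + β ^ 2) ^ (1/4:ℝ) ≤ V))) := by
        apply Finset.filter_congr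
        intro n _
        have hb := hβ.1
        have e2 : ((n : ℝ) + β) ^ 2 = 1 * (n:ℝ)^2 + (2 * β) * n + β ^ 2 := by ring
        rw [not_le, mem_ofPred_eq, e2]
        constructor
        · exact fun h => h.2
        · exact fun h => ⟨by positivity, h⟩
      rw [h3]
      have h4 : (((Finset.Ico k (k + N)).filter (fun n : ℕ =>
          Pool.Agent.H383.Circ.Cx (1 * n^2 + (2 * β) * n + β ^ 2) /
              (1 * (n:ℝ)^2 + (2 * β) * n + β ^ 2) ^ (1/4:ℝ) ≤ V)).card : ℝ) +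
          (((Finset.Ico k (k + N)).filter (fun n : ℕ =>
          ¬ (Pool.Agent.H383.Circ.Cx (1 * n^2 + (2 * β) * n + β ^ 2) /
              (1 * (n:ℝ)^2 + (2 * β) * n + β ^ 2) ^ (1/4:ℝ) ≤ V))).card : ℝ) = N := by
        exact_mod_cast h2
      linarith
    rw [e, sub_div, div_self hNpos.ne', ← abs_neg]
    refine le_trans (le_of_eq ?_) h1
    congr 1
    ring

open Classical in
/-- frequencies of large negative values -/
lemma freq_down (V : ℝ) : ∀ β ∈ Ioo (0:ℝ) 1, ∃ p : ℝ, 0 < p ∧ ∀ η : ℝ, 0 < η →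
    ∃ N₀ : ℕ, ∀ N : ℕ, N₀ ≤ N → ∀ k : ℕ, (k : ℝ) ^ (3 / 4 : ℝ) ≤ N →
      |(((Finset.Ico k (k + N)).filter (fun n : ℕ => (n : ℝ) + β ∈
        {R : ℝ | 0 < R ∧ Ec (R ^ 2) ≤ V})).card : ℝ) / N - p| ≤ η := by
  intro β hβ
  obtain ⟨μ, g, -, -, -, hpos, -, -, hd, -⟩ := Pool.Agent.H383.Circ.distr3 (a := 1) (b := 2 * β)
    (c := β ^ 2) one_pos (fun n => by have := hβ.1; positivity)
  refine ⟨(μ : Measure ℝ).real (Iic V), ?_, ?_⟩
  · have h3 : 0 < (μ : Measure ℝ) (Iic V) :=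
      (hpos (V - 1) V (by linarith)).trans_le (measure_mono fun x hx => hx.2.le)
    exact ENNReal.toReal_pos h3.ne' (measure_ne_top _ _)
  · intro η hη
    obtain ⟨N₀, hN₀⟩ := hd (1 / 4) (by norm_num) η hη
    refine ⟨N₀, fun N hN k hk => ?_⟩
    have h1 := hN₀ N hN k (by norm_num at hk ⊢; exact hk) V
    have h3 : ((Finset.Ico k (k + N)).filter (fun n : ℕ => (n : ℝ) + β ∈
        {R : ℝ | 0 < R ∧ Ec (R ^ 2) ≤ V})) = ((Finset.Ico k (k + N)).filter (fun n : ℕ =>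
        (Pool.Agent.H383.Circ.Cx (1 * n^2 + (2 * β) * n + β ^ 2) /
            (1 * (n:ℝ)^2 + (2 * β) * n + β ^ 2) ^ (1/4:ℝ) ≤ V))) := by
      apply Finset.filter_congr
      intro n _
      have hb := hβ.1
      have e2 : ((n : ℝ) + β) ^ 2 = 1 * (n:ℝ)^2 + (2 * β) * n + β ^ 2 := by ring
      rw [mem_ofPred_eq, e2]
      constructor
      · exact fun h => h.2
      · exact fun h => ⟨by positivity, h⟩
    rw [h3]
    exact h1

/-- almost all parameters -/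
theorem ae_hit {a b : ℕ → ℝ} {α₀ : ℝ} (h0 : 0 ≤ α₀) (ha : ∀ n, 1 ≤ a n) (hb : ∀ n, 0 < b n)
    (hinf : ∀ α : ℝ, α₀ < α → Tendsto (fun n => pt a b n α) atTop atTop)
    {H : Set ℝ} (hH : MeasurableSet H)
    (h : ∃ c : ℝ, 0 < c ∧ ∀ δ : ℝ, 0 < δ → ∃ X₀ : ℝ, ∀ X : ℝ, X₀ ≤ X →
      ENNReal.ofReal (c * δ * X) ≤ volume (H ∩ Ico X ((1 + δ) * X))) :
    ∀ᵐ α : ℝ, α₀ < α → ∃ᶠ n in atTop, pt a b n α ∈ H := by
  obtain ⟨c, hc, hden⟩ := h
  have hW := winDens_log hH hc hden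
  have hGm : MeasurableSet {z : ℝ | Real.exp z ∈ H} := hH.preimage Real.measurable_exp
  have hlogpt : ∀ n : ℕ, ∀ y : ℝ, Real.exp (a n * y + Real.log (b n)) = pt a b n (Real.exp y) := by
    intro n y
    unfold pt
    rw [Real.exp_add, Real.exp_log (hb n), ← Real.exp_mul, mul_comm (b n), mul_comm y]
  have key : ∀ m : ℕ, ∀ᵐ y : ℝ, Real.log (α₀ + 1 / (m + 1)) < y →
      ∃ᶠ n in atTop, a n * y + Real.log (b n) ∈ {z : ℝ | Real.exp z ∈ H} := by
    intro m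
    have hm : 0 < α₀ + 1 / ((m : ℝ) + 1) := by positivity
    refine ae_line ha ?_ hGm (by positivity) hW
    intro y hy
    have hy1 : α₀ < Real.exp y := by
      have h1 : α₀ + 1 / ((m : ℝ) + 1) < Real.exp y := (Real.log_lt_iff_lt_exp hm).1 hy
      have : 0 < 1 / ((m : ℝ) + 1) := by positivity
      linarith
    have h2 := Real.tendsto_log_atTop.comp (hinf _ hy1)
    refine h2.congr fun n => ?_
    simp only [Function.comp]
    rw [← hlogpt, Real.log_exp]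
  have key2 : ∀ᵐ y : ℝ, ∀ m : ℕ, Real.log (α₀ + 1 / (m + 1)) < y →
      ∃ᶠ n in atTop, a n * y + Real.log (b n) ∈ {z : ℝ | Real.exp z ∈ H} := ae_all_iff.2 key
  rw [ae_iff] at key2 ⊢
  have h3 := MeasureTheory.addHaar_image_eq_zero_of_differentiableOn_of_addHaar_eq_zero
    (volume : Measure ℝ) (f := Real.exp) Real.differentiable_exp.differentiableOn key2
  refine measure_mono_null ?_ h3
  intro α hα
  have hα' : ¬ (α₀ < α → ∃ᶠ n in atTop, pt a b n α ∈ H) := hα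
  push Not at hα'
  obtain ⟨hα1, hα2⟩ := hα'
  have hα0 : 0 < α := by linarith
  refine ⟨Real.log α, ?_, Real.exp_log hα0⟩
  change ¬ _
  intro hall
  obtain ⟨m, hm⟩ := exists_nat_gt (1 / (α - α₀))
  have hd : 0 < α - α₀ := by linarith
  have hm1 : (0:ℝ) < (m:ℝ) + 1 := by positivity
  have h4 : α₀ + 1 / ((m : ℝ) + 1) < α := by
    have h5 : 1 / ((m : ℝ) + 1) < α - α₀ := by
      rw [div_lt_iff₀ hd] at hm
      rw [div_lt_iff₀ hm1]
      nlinarith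
    linarith
  have h6 := hall m (Real.log_lt_log (by positivity) h4)
  refine (h6.mono fun n hn => ?_ : ∃ᶠ n in atTop, pt a b n α ∈ H) hα2
  have h7 : Real.exp (a n * Real.log α + Real.log (b n)) ∈ H := hn
  rw [hlogpt, Real.exp_log hα0] at h7
  exact h7

end Pool.Agent.R306.Circ
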