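import Mathlib

/-!
A measurable set with a positive proportion in arbitrarily distant windows of constant length is met
by almost all dilations of a set of positive density.
-/

set_option autoImplicit false

open MeasureTheory Filter Topology Set

namespace Pool.Agent.R306

/-- `Λ` contains at least `c s x` points of `[x, (1 + s) x]` at mutual distances at least `1`, for all
`s > 0` and all `x ≥ x₀(s)` -/
def ThickWith (c : ℝ) (Λ : Set ℝ) : Prop := ∀ s : ℝ, 0 < s → ∃ x₀ : ℝ, ∀ x : ℝ, x₀ ≤ x →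
  ∃ S : Finset ℝ, (∀ l ∈ S, l ∈ Λ ∧ x ≤ l ∧ l ≤ (1 + s) * x) ∧
    (∀ l ∈ S, ∀ l' ∈ S, l ≠ l' → 1 ≤ |l - l'|) ∧ c * s * x ≤ (S.card : ℝ)

/-- arbitrarily far to the right there are windows of radius `h` of which `U` contains at least half -/
def HalfWindows (U : Set ℝ) (h : ℝ) : Prop := ∀ T₀ : ℝ, ∃ T : ℝ, T₀ ≤ T ∧
  ENNReal.ofReal h ≤ volume (U ∩ Icc (T - h) (T + h))

lemma vol_pre {l : ℝ} (hl : 0 < l) (β : ℝ) (s : Set ℝ) :
    volume {α : ℝ | α * l + β ∈ s} = ENNReal.ofReal (1 / l) * volume s := by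
  have e : {α : ℝ | α * l + β ∈ s} = (fun α : ℝ => α * l) ⁻¹' ((fun x : ℝ => x + β) ⁻¹' s) := by
    ext α; simp
  rw [e, Real.volume_preimage_mul_right hl.ne', measure_preimage_add_right,
    abs_of_pos (inv_pos.2 hl), one_div]

/-- the covering estimate -/
lemma cover {Λ : Set ℝ} {c : ℝ} (hc : 0 < c) (hΛ : ThickWith c Λ) (β : ℝ) {U : Set ℝ}
    (hU : MeasurableSet U) {h : ℝ} (hh : 0 < h) (hW : HalfWindows U h) {x r : ℝ} (hx : 8 * h ≤ x)
    (hr : 0 < r) (hrx : r ≤ x / 2) :
    ∃ V : Set ℝ, MeasurableSet V ∧ V ⊆ Metric.closedBall x r ∧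
      (∀ α ∈ V, ∃ l ∈ Λ, α * l + β ∈ U) ∧
      ENNReal.ofReal (c * h / (2 * x) * r) ≤ volume V := by
  have hx0 : 0 < x := by linarith
  set p : ℝ := x - r with hp
  set q : ℝ := x + r with hq
  have hp0 : 0 < p := by rw [hp]; linarith
  have hpx : p ≤ x := by rw [hp]; linarith
  have hph : 4 * h ≤ p := by rw [hp]; linarith
  have hq0 : 0 < q := by rw [hq]; linarith
  set s : ℝ := r / p with hs
  have hs0 : 0 < s := div_pos hr hp0
  have hs1 : s ≤ 1 := by rw [hs, div_le_one hp0]; rw [hp]; linarith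
  obtain ⟨x₀, hx₀⟩ := hΛ s hs0
  -- `(1 + s) / q * (T - β + h) ≤ (T - β - h) / p` for large `T`
  have hqs : (1 + s) * p < q := by
    rw [hs, add_mul, div_mul_cancel₀ _ hp0.ne', hp, hq]; linarith
  obtain ⟨M, hM⟩ : ∃ M : ℝ, M = ((1 + s) * p * h + q * h) / (q - (1 + s) * p) := ⟨_, rfl⟩
  have hqq : 0 < q - (1 + s) * p := by linarith
  obtain ⟨T, hT, hvol⟩ := hW (max (M + β) (max (q * x₀ + β) (β + h + 1)))
  have hT1 : M + β ≤ T := (le_max_left _ _).trans hT
  have hT2 : q * x₀ + β ≤ T := ((le_max_left _ _).trans (le_max_right _ _)).trans hT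
  have hT3 : β + h + 1 ≤ T := ((le_max_right _ _).trans (le_max_right _ _)).trans hT
  set A : ℝ := T - β - h with hA
  set B : ℝ := T - β + h with hB
  have hA0 : 0 < A := by rw [hA]; linarith
  have hB0 : 0 < B := by rw [hB]; linarith
  have hAB : B = A + 2 * h := by rw [hA, hB]; ring
  have hkey : (1 + s) * p * B ≤ q * A := by
    have h1 : M ≤ T - β := by linarith
    rw [hM, div_le_iff₀ hqq] at h1
    rw [hA, hB]
    nlinarith
  set y : ℝ := B / q with hy
  have hy0 : 0 < y := div_pos hB0 hq0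
  have hyx : x₀ ≤ y := by
    rw [hy, le_div_iff₀ hq0, hB]; nlinarith
  have hyA : (1 + s) * y ≤ A / p := by
    rw [hy, le_div_iff₀ hp0, ← mul_div_assoc, div_mul_eq_mul_div, div_le_iff₀ hq0]
    nlinarith
  obtain ⟨S, hS1, hS2, hS3⟩ := hx₀ y hyx
  set G : Set ℝ := U ∩ Icc (T - h) (T + h) with hG
  have hGm : MeasurableSet G := hU.inter measurableSet_Icc
  set W : ℝ → Set ℝ := fun l => {α : ℝ | α * l + β ∈ G} with hWd
  have hl : ∀ l ∈ S, 0 < l ∧ y ≤ l ∧ l ≤ A / p := fun l hl =>
    ⟨hy0.trans_le (hS1 l hl).2.1, (hS1 l hl).2.1, (hS1 l hl).2.2.trans hyA⟩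
  have hWm : ∀ l ∈ S, MeasurableSet (W l) := by
    intro l _
    have : W l = (fun α : ℝ => α * l + β) ⁻¹' G := rfl
    rw [this]
    exact hGm.preimage (by fun_prop)
  have hWIcc : ∀ l ∈ S, ∀ α ∈ W l, A ≤ α * l ∧ α * l ≤ B := by
    intro l _ α hα
    have h1 : α * l + β ∈ G := hα
    obtain ⟨_, h2, h3⟩ := h1
    constructor
    · rw [hA]; linarith
    · rw [hB]; linarith
  refine ⟨⋃ l ∈ S, W l, Finset.measurableSet_biUnion _ hWm, ?_, ?_, ?_⟩
  · intro α hα
    simp only [mem_iUnion] at hα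
    obtain ⟨l, hlS, hα⟩ := hα
    obtain ⟨h1, h2⟩ := hWIcc l hlS α hα
    obtain ⟨l0, l1, l2⟩ := hl l hlS
    rw [Real.closedBall_eq_Icc]
    constructor
    · -- `p ≤ A / l ≤ α`
      change p ≤ α
      rw [le_div_iff₀ hp0] at l2
      by_contra hcon
      push Not at hcon
      have h5 : α * l < p * l := mul_lt_mul_of_pos_right hcon l0
      linarith
    · change α ≤ q
      rw [hy, div_le_iff₀ hq0] at l1
      by_contra hcon
      push Not at hcon
      have h5 : q * l < α * l := mul_lt_mul_of_pos_right hcon l0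
      linarith
  · intro α hα
    simp only [mem_iUnion] at hα
    obtain ⟨l, hlS, hα⟩ := hα
    exact ⟨l, (hS1 l hlS).1, hα.1⟩
  · -- the windows are disjoint
    have hdis : (S : Set ℝ).PairwiseDisjoint W := by
      have key : ∀ l ∈ S, ∀ l' ∈ S, l < l' → Disjoint (W l) (W l') := by
        intro l hlS l' hlS' hlt
        rw [Set.disjoint_left]
        intro α h1 h2
        obtain ⟨a1, a2⟩ := hWIcc l hlS α h1
        obtain ⟨b1, b2⟩ := hWIcc l' hlS' α h2
        have hgap := hS2 l hlS l' hlS' hlt.ne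
        rw [abs_of_neg (by linarith)] at hgap
        obtain ⟨l0, _, l2⟩ := hl l hlS
        obtain ⟨l0', _, l2'⟩ := hl l' hlS'
        rw [le_div_iff₀ hp0] at l2 l2'
        -- `α ≥ A / l ≥ p`, so `α l' ≥ α l + α ≥ A + p > B`
        have hαp : p ≤ α := by
          by_contra hcon
          push Not at hcon
          have h5 : α * l < p * l := mul_lt_mul_of_pos_right hcon l0
          linarith
        have h3 : α * l + α * 1 ≤ α * l' := by
          rw [← mul_add]
          exact mul_le_mul_of_nonneg_left (by linarith) (by linarith)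
        linarith
      intro l hlS l' hlS' hne
      rcases lt_or_gt_of_ne hne with h1 | h1
      · exact key l hlS l' hlS' h1
      · exact (key l' hlS' l hlS h1).symm
    rw [measure_biUnion_finset hdis hWm]
    have h1 : ∀ l ∈ S, ENNReal.ofReal (h / ((1 + s) * y)) ≤ volume (W l) := by
      intro l hlS
      obtain ⟨l0, l1, l2⟩ := hl l hlS
      have hl3 : l ≤ (1 + s) * y := (hS1 l hlS).2.2
      change _ ≤ volume {α : ℝ | α * l + β ∈ G}
      rw [vol_pre l0]
      calc ENNReal.ofReal (h / ((1 + s) * y)) ≤ ENNReal.ofReal (1 / l * h) := by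
            apply ENNReal.ofReal_le_ofReal
            rw [div_mul_eq_mul_div, one_mul]
            exact div_le_div_of_nonneg_left hh.le l0 hl3
        _ = ENNReal.ofReal (1 / l) * ENNReal.ofReal h := ENNReal.ofReal_mul (by positivity)
        _ ≤ _ := by gcongr
    calc ENNReal.ofReal (c * h / (2 * x) * r)
        ≤ ENNReal.ofReal (S.card * (h / ((1 + s) * y))) := by
          apply ENNReal.ofReal_le_ofReal
          have h2 : c * s * y * (h / ((1 + s) * y)) ≤ S.card * (h / ((1 + s) * y)) :=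
            mul_le_mul_of_nonneg_right hS3 (by positivity)
          refine le_trans ?_ h2
          have h3 : c * s * y * (h / ((1 + s) * y)) = c * h * (s / (1 + s)) := by
            field_simp
          rw [h3]
          have h4 : r / (2 * x) ≤ s / (1 + s) := by
            rw [hs, div_le_div_iff₀ (by positivity) (by positivity)]
            have e1 : r / p * (2 * x) = r * (2 * x) / p := by ring
            rw [e1, le_div_iff₀ hp0]
            have e2 : r * (1 + r / p) * p = r * (p + r) := by field_simp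
            rw [e2]
            have : p + r ≤ 2 * x := by rw [hp]; linarith
            nlinarith
          calc c * h / (2 * x) * r = c * h * (r / (2 * x)) := by ring
            _ ≤ c * h * (s / (1 + s)) := by
                apply mul_le_mul_of_nonneg_left h4 (by positivity)
      _ = ∑ _l ∈ S, ENNReal.ofReal (h / ((1 + s) * y)) := by
          rw [Finset.sum_const, nsmul_eq_mul, ENNReal.ofReal_mul (by positivity), ENNReal.ofReal_natCast]
      _ ≤ ∑ l ∈ S, volume (W l) := Finset.sum_le_sum h1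

/-- almost all dilations of a thick set meet `U` -/
theorem ae_dilation {Λ : Set ℝ} {c : ℝ} (hc : 0 < c) (hΛ : ThickWith c Λ) (β : ℝ) {U : Set ℝ}
    (hU : MeasurableSet U) {h₀ : ℝ} (hh₀ : 0 < h₀) (hW : ∀ h : ℝ, 0 < h → h ≤ h₀ → HalfWindows U h) :
    ∀ᵐ α : ℝ, 0 < α → ∃ l ∈ Λ, α * l + β ∈ U := by
  set B : Set ℝ := {α : ℝ | ¬ (0 < α → ∃ l ∈ Λ, α * l + β ∈ U)} with hB
  rw [ae_iff]
  change volume B = 0
  by_contra hne
  have hBpos : B ⊆ Ioi 0 := by
    intro α hα
    have h1 : ¬ (0 < α → ∃ l ∈ Λ, α * l + β ∈ U) := hα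
    push Not at h1
    exact h1.1
  have hd := Besicovitch.ae_tendsto_measure_inter_div (volume : Measure ℝ) B
  have hpos : ∀ᵐ x ∂(volume.restrict B), (0 : ℝ) < x := by
    have h1 : ∀ᵐ x ∂(volume.restrict (Ioi (0 : ℝ))), x ∈ Ioi (0 : ℝ) :=
      ae_restrict_mem measurableSet_Ioi
    exact ae_mono (Measure.restrict_mono hBpos le_rfl) h1
  have hex : ∃ x : ℝ, 0 < x ∧ Tendsto (fun r => volume (B ∩ Metric.closedBall x r) /
      volume (Metric.closedBall x r)) (𝓝[>] 0) (𝓝 1) := by
    have h2 := hpos.and hd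
    have : (ae (volume.restrict B)).NeBot := by
      rw [ae_neBot]
      intro h0
      exact hne (by simpa using congrArg (fun μ : Measure ℝ => μ univ) h0)
    exact h2.exists
  obtain ⟨x, hx0, hlim⟩ := hex
  set h : ℝ := min h₀ (x / 8) with hh
  have hh0 : 0 < h := lt_min hh₀ (by linarith)
  have hhx : 8 * h ≤ x := by
    have : h ≤ x / 8 := min_le_right _ _
    linarith
  have hWh := hW h hh0 (min_le_left _ _)
  set k : ℝ := c * h / (2 * x) with hk
  have hk0 : 0 < k := by positivity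
  have hle : ∀ᶠ r in 𝓝[>] (0 : ℝ), volume (B ∩ Metric.closedBall x r) /
      volume (Metric.closedBall x r) ≤ ENNReal.ofReal (1 - k / 2) := by
    have hev : ∀ᶠ r in 𝓝[>] (0 : ℝ), r ≤ x / 2 := by
      filter_upwards [Ioc_mem_nhdsGT (show (0 : ℝ) < x / 2 by linarith)] with r hr
      exact hr.2
    filter_upwards [hev, self_mem_nhdsWithin] with r hr1 hr0
    have hr0 : 0 < r := hr0
    obtain ⟨V, hVm, hVs, hVU, hVv⟩ := cover hc hΛ β hU hh0 hWh hhx hr0 hr1
    have hsub : B ∩ Metric.closedBall x r ⊆ Metric.closedBall x r \ V := by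
      rintro α ⟨h1, h2⟩
      refine ⟨h2, fun h3 => h1 fun _ => hVU α h3⟩
    have hvb : volume (Metric.closedBall x r) = ENNReal.ofReal (2 * r) := Real.volume_closedBall x r
    have h4 : volume (B ∩ Metric.closedBall x r) ≤ ENNReal.ofReal (2 * r - k * r) := by
      refine (measure_mono hsub).trans ?_
      rw [measure_sdiff hVs hVm.nullMeasurableSet
        (ne_top_of_le_ne_top (by rw [hvb]; exact ENNReal.ofReal_ne_top) (measure_mono hVs)),
        hvb, ENNReal.ofReal_sub _ (by positivity)]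
      exact tsub_le_tsub_left hVv _
    rw [hvb]
    refine ENNReal.div_le_of_le_mul ?_
    refine h4.trans ?_
    rw [← ENNReal.ofReal_mul' (by positivity)]
    apply ENNReal.ofReal_le_ofReal
    apply le_of_eq
    ring
  have h5 : (1 : ENNReal) ≤ ENNReal.ofReal (1 - k / 2) := le_of_tendsto hlim hle
  have h6 : ENNReal.ofReal (1 - k / 2) < 1 := by
    rw [← ENNReal.ofReal_one]
    exact (ENNReal.ofReal_lt_ofReal_iff one_pos).2 (by linarith)
  exact absurd h5 (not_le.2 h6)

end Pool.Agent.R306
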