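import Pool.Agent.R306.Near

/-!
The Lindelöf exponent along the geometric progressions `α ^ n`, for all `α > 1` outside a meager set.
-/

set_option autoImplicit false

open MeasureTheory Filter Topology Set Real

namespace Pool.Agent.R306

lemma UU_open {ν : ℝ} (hν : 0 ≤ ν) (N : ℝ) : IsOpen (UU ν N) := by
  have e2 : UU ν N = Ioi N ∩ {x : ℝ | (x / 2) ^ ν < Z x} := rfl
  rw [e2]
  have hc : Continuous fun x : ℝ => (x / 2) ^ ν :=
    (continuous_id.div_const 2).rpow_const fun x => Or.inr hν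
  exact isOpen_Ioi.inter (isOpen_lt hc Z_cont)

/-- arbitrarily large points with near-maximal values -/
lemma exists_large {θ : ℝ} (hθ : Exponent θ) (hmin : ∀ θ' : ℝ, 0 ≤ θ' → Exponent θ' → θ ≤ θ')
    {δ : ℝ} (hδ : 0 < δ) (hδθ : δ ≤ θ) (N : ℝ) : ∃ t, t ∈ UU (θ - δ) N := by
  have hpi := Real.pi_pos
  have hh : 0 < min (1 / 2) (1 / 2 * δ / (10 * π)) := lt_min (by norm_num) (by positivity)
  obtain ⟨T, _, hv⟩ := windows hθ hmin hδ hδθ N _ hh le_rfl 0
  by_contra hcon
  push Not at hcon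
  have e : UU (θ - δ) N = ∅ := eq_empty_of_forall_notMem hcon
  rw [e, empty_inter, measure_empty] at hv
  exact absurd hv (not_le.2 (ENNReal.ofReal_pos.2 hh))

/-- every open interval of ratios reaches all large numbers -/
lemma reach {a b : ℝ} (ha : 1 ≤ a) (hab : a < b) : ∃ t₀ : ℝ, ∀ t : ℝ, t₀ ≤ t →
    ∃ n : ℕ, ∃ x ∈ Ioo a b, x ^ n = t := by
  -- choose `a < a' < b`
  obtain ⟨a', h1, h2⟩ := exists_between hab
  have ha' : 1 < a' := by linarith
  have ha0 : 0 < a' := by linarith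
  have hr : 1 < b / a' := (one_lt_div ha0).2 h2
  obtain ⟨n₀, hn₀⟩ := pow_unbounded_of_one_lt a' hr
  refine ⟨a' ^ (n₀ + 1), fun t ht => ?_⟩
  have ht1 : 1 < t := lt_of_lt_of_le (one_lt_pow₀ ha' (by omega)) ht
  -- the largest `n` with `a' ^ n ≤ t`
  obtain ⟨m, hm1, hm2⟩ := exists_nat_pow_near ht1.le ha'
  have hn : n₀ + 1 ≤ m := by
    by_contra hcon
    push Not at hcon
    have h3 : a' ^ (m + 1) ≤ a' ^ (n₀ + 1) := pow_le_pow_right₀ ha'.le (by omega)
    linarith
  have hm0 : m ≠ 0 := by omega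
  have hb : t < b ^ m := by
    have h4 : a' < (b / a') ^ m := hn₀.trans_le (pow_le_pow_right₀ hr.le (by omega))
    have h5 : a' ^ (m + 1) < b ^ m := by
      rw [pow_succ]
      rw [div_pow, lt_div_iff₀ (by positivity)] at h4
      linarith [mul_comm a' (a' ^ m)]
    linarith
  have hcont : ContinuousOn (fun x : ℝ => x ^ m) (Icc a b) := (continuous_pow m).continuousOn
  have ham : a ^ m < t := lt_of_lt_of_le (pow_lt_pow_left₀ h1 (by linarith) hm0) hm1
  obtain ⟨x, hx, hxt⟩ := intermediate_value_Ioo hab.le hcont ⟨ham, hb⟩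
  exact ⟨m, x, hx, hxt⟩

/-- **generic geometric progressions** -/
theorem residual_exponent : ∀ᶠ α in residual ℝ, 1 < α → ∀ κ : ℝ, 0 ≤ κ →
    (ExponentOn {t : ℝ | ∃ n : ℕ, t = α ^ n} κ ↔ Exponent κ) := by
  obtain ⟨θ, hθ0, hθ, hmin⟩ := least
  rcases eq_or_lt_of_le hθ0 with h0 | h0
  · refine Eventually.of_forall fun α _ κ hκ => ⟨fun _ => exponent_mono (by linarith) hθ,
      fun h => exponentOn_of h _⟩
  have key : ∀ᶠ α in residual ℝ, ∀ m N : ℕ, 1 < α → ∃ n : ℕ, α ^ n ∈ UU (θ - θ / (m + 1)) N := by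
    rw [eventually_countable_forall]
    intro m
    rw [eventually_countable_forall]
    intro N
    have hm : (0 : ℝ) < (m : ℝ) + 1 := by positivity
    have hδ : 0 < θ / ((m : ℝ) + 1) := by positivity
    have hδθ : θ / ((m : ℝ) + 1) ≤ θ := div_le_self hθ0 (by linarith [Nat.cast_nonneg (α := ℝ) m])
    set V : Set ℝ := UU (θ - θ / (m + 1)) N with hV
    have hVo : IsOpen V := UU_open (by linarith) N
    set D : Set ℝ := Iio 1 ∪ (Ioi 1 ∩ ⋃ n : ℕ, (fun x : ℝ => x ^ n) ⁻¹' V) with hD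
    have hDo : IsOpen D := isOpen_Iio.union
      (isOpen_Ioi.inter (isOpen_iUnion fun n => hVo.preimage (continuous_pow n)))
    have hDd : Dense D := by
      rw [dense_iff_inter_open]
      intro O hO hne
      -- an open interval in `O` on one side of `1`
      obtain ⟨x, hx⟩ := hne
      obtain ⟨r, hr, hball⟩ := Metric.isOpen_iff.1 hO x hx
      rcases lt_or_ge x 1 with hx1 | hx1
      · exact ⟨x, hx, Or.inl hx1⟩
      · obtain ⟨t₀, ht₀⟩ := reach (a := x) (b := x + r) hx1 (by linarith)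
        obtain ⟨t, ht⟩ := exists_large hθ hmin hδ hδθ (max t₀ N)
        obtain ⟨n, y, hy, hyt⟩ := ht₀ t ((le_max_left _ _).trans ht.1.le)
        refine ⟨y, hball ?_, Or.inr ⟨lt_of_le_of_lt hx1 hy.1, ?_⟩⟩
        · rw [Metric.mem_ball, Real.dist_eq, abs_of_pos (by linarith [hy.1])]
          linarith [hy.2]
        · rw [mem_iUnion]
          refine ⟨n, ?_⟩
          change y ^ n ∈ V
          rw [hyt]
          exact ⟨(le_max_right _ _).trans_lt ht.1, ht.2⟩
    have hres : D ∈ residual ℝ := residual_of_dense_open hDo hDd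
    filter_upwards [hres] with α hα hα1
    rcases hα with h1 | ⟨_, h2⟩
    · exact absurd hα1 (not_lt.2 (le_of_lt h1))
    · rw [mem_iUnion] at h2
      exact h2
  filter_upwards [key] with α hα hα0 κ hκ
  refine ⟨fun hE => ?_, fun h => exponentOn_of h _⟩
  by_contra hcon
  have hlt : κ < θ := by
    by_contra h1
    push Not at h1
    exact hcon (exponent_mono h1 hθ)
  obtain ⟨m, hm⟩ := exists_nat_gt (2 * θ / (θ - κ))
  have hd : 0 < θ - κ := by linarith
  have hm1 : (0 : ℝ) < (m : ℝ) + 1 := by positivity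
  have h2 : θ / ((m : ℝ) + 1) ≤ (θ - κ) / 2 := by
    rw [div_lt_iff₀ hd] at hm
    rw [div_le_iff₀ hm1]
    nlinarith
  refine contra (ν := θ - θ / (m + 1)) hκ (by linarith) ?_ hE
  intro N
  obtain ⟨n, hn⟩ := hα m N hα0
  exact ⟨α ^ n, ⟨n, rfl⟩, hn⟩

end Pool.Agent.R306
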