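import Pool.Agent.R306.Near
import Pool.Agent.W479.BU.Msz
import Pool.Agent.W32.SD.SMelG
import Pool.Agent.W335.SD.SMel
import Pool.Agent.W352.SD.SPlan
import Pool.Agent.W261.SD.SGamLow
import Pool.Agent.W356.SD.Big
import Pool.Agent.W108.SD.SRep
import Pool.Agent.W85.SD.Small
import Pool.Agent.W688.SD.SAN

/-!
Values of zeta along almost all geometric progressions.
-/

set_option autoImplicit false

open MeasureTheory Filter Topology Set Real

namespace Pool.Agent.R306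

theorem san : Pool.Agent.H24R2.DZ.SAN :=
  Pool.Agent.W688.SD.san (Pool.Agent.W32.SD.smelG Pool.W335.SD.smel)
    Pool.Agent.W352.SD.splan Pool.Agent.W261.SD.sgamlow
    Pool.Agent.W356.SD.sbig Pool.Agent.W108.SD.srep Pool.Agent.W85.SD.ssmall

/-- the mean square on the critical line -/
theorem ms : ∃ C T0 : ℝ, 0 < C ∧ 3 ≤ T0 ∧ ∀ T : ℝ, T0 ≤ T →
    ∫ t in (T / 4)..(4 * T), Z t ^ 2 ≤ C * T * Real.log T := by
  obtain ⟨C, T0, hC, hT0, h⟩ := Pool.Agent.W479.BU.ms_half san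
  refine ⟨C, T0, hC, hT0, fun T hT => ?_⟩
  have h1 := h T (1 / 2) hT le_rfl (by norm_num)
  have e : ∀ t : ℝ, Z t = ‖riemannZeta (((1 / 2 : ℝ) : ℂ) + t * Complex.I)‖ := by
    intro t; unfold Z; push_cast; rfl
  simp only [e]
  exact h1

lemma Zint (a b : ℝ) : IntervalIntegrable (fun t => Z t ^ 2) volume a b :=
  (Z_cont.pow 2).intervalIntegrable a b

lemma Zint_div {a b : ℝ} (ha : 0 < a) (hab : a ≤ b) :
    IntervalIntegrable (fun t => Z t ^ 2 / t) volume a b := by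
  apply ContinuousOn.intervalIntegrable
  rw [uIcc_of_le hab]
  apply ContinuousOn.div (Z_cont.pow 2).continuousOn continuousOn_id
  intro x hx
  exact (ha.trans_le hx.1).ne'

/-- dyadic blocks -/
lemma block : ∃ C : ℝ, 0 < C ∧ ∀ j : ℕ, ∫ t in ((2:ℝ) ^ j)..((2:ℝ) ^ (j + 1)), Z t ^ 2 / t ≤
    C * ((j : ℝ) + 1) := by
  obtain ⟨C, T0, hC, hT0, h⟩ := ms
  obtain ⟨J, hJ⟩ := pow_unbounded_of_one_lt T0 (show (1:ℝ) < 2 by norm_num)
  obtain ⟨M, hM⟩ : ∃ M : ℝ, ∀ j ∈ Finset.range J,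
      ∫ t in ((2:ℝ) ^ j)..((2:ℝ) ^ (j + 1)), Z t ^ 2 / t ≤ M := by
    refine ⟨∑ j ∈ Finset.range J, |∫ t in ((2:ℝ) ^ j)..((2:ℝ) ^ (j + 1)), Z t ^ 2 / t|, ?_⟩
    intro j hj
    exact (le_abs_self _).trans (Finset.single_le_sum
      (f := fun j : ℕ => |∫ t in ((2:ℝ) ^ j)..((2:ℝ) ^ (j + 1)), Z t ^ 2 / t|)
      (fun i _ => abs_nonneg _) hj)
  refine ⟨max M (max C 1), lt_of_lt_of_le one_pos ((le_max_right _ _).trans (le_max_right _ _)),
    fun j => ?_⟩
  have hK : 0 < max M (max C 1) :=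
    lt_of_lt_of_le one_pos ((le_max_right _ _).trans (le_max_right _ _))
  rcases lt_or_ge j J with hj | hj
  · refine (hM j (Finset.mem_range.2 hj)).trans ((le_max_left M (max C 1)).trans ?_)
    exact le_mul_of_one_le_right hK.le (by linarith [Nat.cast_nonneg (α := ℝ) j])
  · set T : ℝ := 2 ^ j with hT
    have hT1 : T0 ≤ T := hJ.le.trans (pow_le_pow_right₀ (by norm_num) hj)
    have hTp : 0 < T := by linarith
    have e : (2:ℝ) ^ (j + 1) = 2 * T := by rw [pow_succ, hT]; ring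
    rw [e]
    have h1 := h T hT1
    have h2 : ∫ t in T..(2 * T), Z t ^ 2 / t ≤ ∫ t in T..(2 * T), 1 / T * Z t ^ 2 := by
      refine intervalIntegral.integral_mono_on (by linarith) (Zint_div hTp (by linarith))
        ((Zint _ _).const_mul _) ?_
      intro t ht
      rw [div_eq_inv_mul, one_div]
      exact mul_le_mul_of_nonneg_right (inv_anti₀ hTp ht.1) (sq_nonneg _)
    rw [intervalIntegral.integral_const_mul] at h2
    have h3 : ∫ t in T..(2 * T), Z t ^ 2 ≤ ∫ t in (T / 4)..(4 * T), Z t ^ 2 := by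
      refine intervalIntegral.integral_mono_interval (by linarith) (by linarith) (by linarith) ?_
        (Zint _ _)
      exact Eventually.of_forall fun t => sq_nonneg _
    have h4 : Real.log T ≤ (j : ℝ) + 1 := by
      rw [hT, Real.log_pow]
      have := Real.log_two_lt_d9
      have h5 : (0:ℝ) ≤ j := Nat.cast_nonneg j
      nlinarith
    have hlog : 0 ≤ Real.log T := Real.log_nonneg (by linarith)
    calc ∫ t in T..(2 * T), Z t ^ 2 / t ≤ 1 / T * (C * T * Real.log T) :=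
          h2.trans (mul_le_mul_of_nonneg_left (h3.trans h1) (by positivity))
      _ = C * Real.log T := by field_simp
      _ ≤ C * ((j : ℝ) + 1) := mul_le_mul_of_nonneg_left h4 hC.le
      _ ≤ _ := mul_le_mul_of_nonneg_right ((le_max_left _ _).trans (le_max_right _ _)) (by positivity)

lemma dyadic : ∃ C : ℝ, 0 < C ∧ ∀ J : ℕ, ∫ t in (1:ℝ)..((2:ℝ) ^ J), Z t ^ 2 / t ≤
    C * (J : ℝ) ^ 2 := by
  obtain ⟨C, hC, h⟩ := block
  refine ⟨C, hC, fun J => ?_⟩
  induction J with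
  | zero => simp
  | succ J ih =>
    have h2J : (1:ℝ) ≤ 2 ^ J := one_le_pow₀ (by norm_num)
    have e := intervalIntegral.integral_add_adjacent_intervals
      (Zint_div (a := 1) (b := 2 ^ J) one_pos h2J)
      (Zint_div (a := 2 ^ J) (b := 2 ^ (J + 1)) (by positivity)
        (pow_le_pow_right₀ (by norm_num) (by omega)))
    rw [← e]
    have h3 := h J
    have h4 : C * (J : ℝ) ^ 2 + C * ((J : ℝ) + 1) ≤ C * ((J + 1 : ℕ) : ℝ) ^ 2 := by
      push_cast
      have : (0:ℝ) ≤ J := Nat.cast_nonneg J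
      nlinarith
    linarith

/-- mean square of `ζ(1/2 + i x ^ n)` in `x` -/
lemma mean_pow (k : ℕ) : ∃ C : ℝ, 0 < C ∧ ∀ n : ℕ, 1 ≤ n →
    ∫ x in (1:ℝ)..((2:ℝ) ^ k), Z (x ^ n) ^ 2 ≤ C * n := by
  obtain ⟨C, hC, h⟩ := dyadic
  refine ⟨2 ^ k * C * (k ^ 2 + 1), by positivity, fun n hn => ?_⟩
  have hn0 : (0:ℝ) < n := by exact_mod_cast hn
  have h2k : (1:ℝ) ≤ 2 ^ k := one_le_pow₀ (by norm_num)
  -- change of variables
  have hcv : ∫ x in (1:ℝ)..((2:ℝ) ^ k), (Z (x ^ n) ^ 2 / x ^ n) * ((n : ℝ) * x ^ (n - 1)) =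
      ∫ t in ((1:ℝ) ^ n)..(((2:ℝ) ^ k) ^ n), Z t ^ 2 / t := by
    have hd : ∀ x ∈ uIcc (1:ℝ) (2 ^ k), HasDerivAt (fun x : ℝ => x ^ n) ((n : ℝ) * x ^ (n - 1)) x :=
      fun x _ => hasDerivAt_pow n x
    have hc1 : ContinuousOn (fun x : ℝ => (n : ℝ) * x ^ (n - 1)) (uIcc (1:ℝ) (2 ^ k)) := by
      fun_prop
    have hc2 : ContinuousOn (fun t : ℝ => Z t ^ 2 / t)
        ((fun x : ℝ => x ^ n) '' uIcc (1:ℝ) (2 ^ k)) := by
      apply ContinuousOn.div (Z_cont.pow 2).continuousOn continuousOn_id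
      rintro t ⟨x, hx, rfl⟩
      rw [uIcc_of_le h2k] at hx
      have : 0 < x := by linarith [hx.1]
      change x ^ n ≠ 0
      positivity
    exact intervalIntegral.integral_comp_mul_deriv' hd hc1 hc2
  have hpt : ∀ x : ℝ, 1 ≤ x → (Z (x ^ n) ^ 2 / x ^ n) * ((n : ℝ) * x ^ (n - 1)) =
      (n : ℝ) * (Z (x ^ n) ^ 2 / x) := by
    intro x hx
    have hx0 : 0 < x := by linarith
    have e : x ^ n = x ^ (n - 1) * x := by
      rw [← pow_succ]; congr 1; omega
    rw [e]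
    field_simp
  have h1 : ∫ x in (1:ℝ)..((2:ℝ) ^ k), (n : ℝ) / 2 ^ k * Z (x ^ n) ^ 2 ≤
      ∫ x in (1:ℝ)..((2:ℝ) ^ k), (Z (x ^ n) ^ 2 / x ^ n) * ((n : ℝ) * x ^ (n - 1)) := by
    refine intervalIntegral.integral_mono_on h2k ?_ ?_ ?_
    · apply Continuous.intervalIntegrable
      exact continuous_const.mul ((Z_cont.comp (continuous_pow n)).pow 2)
    · apply ContinuousOn.intervalIntegrable
      rw [uIcc_of_le h2k]
      apply ContinuousOn.mul
      · apply ContinuousOn.div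
        · exact ((Z_cont.comp (continuous_pow n)).pow 2).continuousOn
        · exact (continuous_pow n).continuousOn
        · intro x hx
          have : 0 < x := by linarith [hx.1]
          positivity
      · fun_prop
    · intro x hx
      rw [hpt x hx.1]
      have hx0 : 0 < x := by linarith [hx.1]
      rw [div_mul_eq_mul_div, mul_div_assoc]
      apply mul_le_mul_of_nonneg_left _ hn0.le
      exact div_le_div_of_nonneg_left (sq_nonneg _) hx0 hx.2
  rw [intervalIntegral.integral_const_mul, hcv, one_pow, ← pow_mul] at h1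
  have h2 := h (k * n)
  have h3 : (n : ℝ) / 2 ^ k * ∫ x in (1:ℝ)..((2:ℝ) ^ k), Z (x ^ n) ^ 2 ≤
      C * ((k * n : ℕ) : ℝ) ^ 2 := h1.trans h2
  have h4 : (0:ℝ) < 2 ^ k := by positivity
  rw [div_mul_eq_mul_div, div_le_iff₀ h4] at h3
  push_cast at h3
  have h5 : (n : ℝ) * ∫ x in (1:ℝ)..((2:ℝ) ^ k), Z (x ^ n) ^ 2 ≤
      (n : ℝ) * (2 ^ k * C * (k ^ 2 + 1) * n) := by
    refine h3.trans ?_
    have : C * ((k : ℝ) * n) ^ 2 * 2 ^ k ≤ (n : ℝ) * (2 ^ k * C * (k ^ 2 + 1) * n) := by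
      have e : (n : ℝ) * (2 ^ k * C * (k ^ 2 + 1) * n) - C * ((k : ℝ) * n) ^ 2 * 2 ^ k =
        2 ^ k * C * n ^ 2 := by ring
      have : 0 ≤ 2 ^ k * C * (n:ℝ) ^ 2 := by positivity
      linarith
    exact this
  exact le_of_mul_le_mul_left h5 hn0

/-- **almost all geometric progressions** -/
theorem ae_pow : ∀ᵐ α : ℝ, 1 < α → ∀ ε : ℝ, 0 < ε → ∀ᶠ n : ℕ in atTop,
    Z (α ^ n) ≤ (n : ℝ) ^ (1 + ε) := by
  have key : ∀ m k : ℕ, ∀ᵐ α : ℝ, ∀ᶠ n : ℕ in atTop,
      ¬ (α ∈ Ioc 1 ((2:ℝ) ^ k) ∧ (n : ℝ) ^ (1 + 1 / ((m : ℝ) + 1)) < Z (α ^ n)) := by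
    intro m k
    set e : ℝ := 1 / ((m : ℝ) + 1) with he
    have he0 : 0 < e := by positivity
    obtain ⟨C, hC, h⟩ := mean_pow k
    set E : ℕ → Set ℝ := fun n => {α : ℝ | α ∈ Ioc 1 ((2:ℝ) ^ k) ∧
      (n : ℝ) ^ (1 + e) < Z (α ^ n)} with hE
    have h2k : (1:ℝ) ≤ 2 ^ k := one_le_pow₀ (by norm_num)
    have hEv : ∀ n : ℕ, 1 ≤ n → volume (E n) ≤ ENNReal.ofReal (C * (n : ℝ) ^ (-(1 + 2 * e))) := by
      intro n hn
      have hn0 : (0:ℝ) < n := by exact_mod_cast hn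
      have hEm : MeasurableSet (E n) := by
        apply measurableSet_Ioc.inter
        exact measurableSet_lt measurable_const (Z_cont.comp (continuous_pow n)).measurable
      have hV : 0 < (n : ℝ) ^ (2 * (1 + e)) := Real.rpow_pos_of_pos hn0 _
      have h1 : ENNReal.ofReal ((n : ℝ) ^ (2 * (1 + e))) * volume (E n) ≤
          ENNReal.ofReal (C * n) := by
        have h2 : ENNReal.ofReal ((n : ℝ) ^ (2 * (1 + e))) * volume (E n) ≤
            ∫⁻ x in E n, ENNReal.ofReal (Z (x ^ n) ^ 2) := by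
          rw [← setLIntegral_const]
          refine setLIntegral_mono' hEm fun x hx => ?_
          apply ENNReal.ofReal_le_ofReal
          have e3 : (n : ℝ) ^ (2 * (1 + e)) = ((n : ℝ) ^ (1 + e)) ^ 2 := by
            rw [← Real.rpow_natCast, ← Real.rpow_mul hn0.le]
            congr 1; push_cast; ring
          rw [e3]
          exact pow_le_pow_left₀ (by positivity) hx.2.le 2
        refine h2.trans ?_
        have hsub : E n ⊆ Ioc 1 ((2:ℝ) ^ k) := fun x hx => hx.1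
        refine (lintegral_mono_set hsub).trans ?_
        have hint : IntegrableOn (fun x : ℝ => Z (x ^ n) ^ 2) (Ioc 1 ((2:ℝ) ^ k)) := by
          rw [← intervalIntegrable_iff_integrableOn_Ioc_of_le h2k]
          exact ((Z_cont.comp (continuous_pow n)).pow 2).intervalIntegrable _ _
        rw [← ofReal_integral_eq_lintegral_ofReal hint (Eventually.of_forall fun x => sq_nonneg _)]
        apply ENNReal.ofReal_le_ofReal
        rw [← intervalIntegral.integral_of_le h2k]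
        exact h n hn
      have h3 : volume (E n) ≤ ENNReal.ofReal (C * n) / ENNReal.ofReal ((n : ℝ) ^ (2 * (1 + e))) := by
        rw [ENNReal.le_div_iff_mul_le (Or.inl (ENNReal.ofReal_pos.2 hV).ne')
          (Or.inl ENNReal.ofReal_ne_top), mul_comm]
        exact h1
      refine h3.trans ?_
      rw [← ENNReal.ofReal_div_of_pos hV]
      apply ENNReal.ofReal_le_ofReal
      rw [mul_div_assoc]
      apply mul_le_mul_of_nonneg_left _ hC.le
      have e4 : (n : ℝ) / (n : ℝ) ^ (2 * (1 + e)) = (n : ℝ) ^ (-(1 + 2 * e)) := by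
        rw [show (n : ℝ) / (n : ℝ) ^ (2 * (1 + e)) = (n : ℝ) ^ (1:ℝ) / (n : ℝ) ^ (2 * (1 + e)) by
          rw [Real.rpow_one], ← Real.rpow_sub hn0]
        congr 1; ring
      exact e4.le
    have hsum : ∑' n, volume (E n) ≠ ⊤ := by
      have hs : Summable fun n : ℕ => C * (n : ℝ) ^ (-(1 + 2 * e)) :=
        (Real.summable_nat_rpow.2 (by linarith)).mul_left C
      have h0 : volume (E 0) ≠ ⊤ := ne_top_of_le_ne_top (by
        rw [Real.volume_Ioc]; exact ENNReal.ofReal_ne_top)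
        (measure_mono (fun x hx => hx.1 : E 0 ⊆ Ioc 1 ((2:ℝ) ^ k)))
      rw [tsum_eq_zero_add' ENNReal.summable]
      refine ENNReal.add_ne_top.2 ⟨h0, ?_⟩
      refine ne_top_of_le_ne_top ?_ (ENNReal.tsum_le_tsum fun n => hEv (n + 1) (by omega))
      have hs' := (summable_nat_add_iff 1).2 hs
      rw [← ENNReal.ofReal_tsum_of_nonneg (fun n => by positivity) hs']
      exact ENNReal.ofReal_ne_top
    exact ae_eventually_notMem hsum
  have key2 : ∀ᵐ α : ℝ, ∀ m k : ℕ, ∀ᶠ n : ℕ in atTop,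
      ¬ (α ∈ Ioc 1 ((2:ℝ) ^ k) ∧ (n : ℝ) ^ (1 + 1 / ((m : ℝ) + 1)) < Z (α ^ n)) := by
    rw [ae_all_iff]
    intro m
    rw [ae_all_iff]
    intro k
    exact key m k
  filter_upwards [key2] with α hα hα1 ε hε
  obtain ⟨m, hm⟩ := exists_nat_gt (1 / ε)
  obtain ⟨k, hk⟩ := pow_unbounded_of_one_lt α (show (1:ℝ) < 2 by norm_num)
  have hm1 : (0:ℝ) < (m : ℝ) + 1 := by positivity
  have hme : 1 / ((m : ℝ) + 1) ≤ ε := by
    rw [div_lt_iff₀ hε] at hm
    rw [div_le_iff₀ hm1]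
    nlinarith
  filter_upwards [hα m k, eventually_ge_atTop 1] with n hn hn1
  have h1 : Z (α ^ n) ≤ (n : ℝ) ^ (1 + 1 / ((m : ℝ) + 1)) := by
    by_contra hcon
    push Not at hcon
    exact hn ⟨⟨hα1, hk.le⟩, hcon⟩
  refine h1.trans ?_
  exact Real.rpow_le_rpow_of_exponent_le (by exact_mod_cast hn1) (by linarith)

end Pool.Agent.R306
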