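import Pool.Agent.R306.Geo
import Pool.Agent.R306.GeoAE

/-!
The sequences `α ^ (a n)` with real exponents `a n`, `a (n + 1) / a n → 1`.
-/

set_option autoImplicit false

open MeasureTheory Filter Topology Set Real

namespace Pool.Agent.R306

/-- every open interval of ratios reaches all large numbers -/
lemma reachR {e : ℕ → ℝ} (he : Tendsto e atTop atTop)
    (her : Tendsto (fun n => e (n + 1) / e n) atTop (𝓝 1)) {a b : ℝ} (ha : 1 ≤ a) (hab : a < b) :
    ∃ t₀ : ℝ, ∀ t : ℝ, t₀ ≤ t → ∃ n : ℕ, ∃ x ∈ Ioo a b, x ^ (e n) = t := by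
  obtain ⟨a', h1, h2⟩ := exists_between hab
  have ha' : 1 < a' := by linarith
  have ha0 : 0 < a' := by linarith
  have hb0 : 0 < b := by linarith
  have hla : 0 < Real.log a' := Real.log_pos ha'
  have hlb : Real.log a' < Real.log b := Real.log_lt_log ha0 h2
  have hr : 1 < Real.log b / Real.log a' := (one_lt_div hla).2 hlb
  have hev1 : ∀ᶠ n in atTop, e (n + 1) / e n < Real.log b / Real.log a' :=
    her.eventually (gt_mem_nhds hr)
  have hev2 : ∀ᶠ n in atTop, 1 ≤ e n := he.eventually_ge_atTop 1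
  obtain ⟨n₀, hn₀⟩ := eventually_atTop.1 (hev1.and hev2)
  refine ⟨a' ^ (e n₀), fun t ht => ?_⟩
  have ht1 : 1 < t := lt_of_lt_of_le (Real.one_lt_rpow ha' (by linarith [(hn₀ n₀ le_rfl).2])) ht
  have ht0 : 0 < t := by linarith
  -- the first `m ≥ n₀` with `t < a' ^ e (m + 1)`
  have hlim : Tendsto (fun n => a' ^ (e n)) atTop atTop :=
    (tendsto_rpow_atTop_of_base_gt_one a' ha').comp he
  have hex : ∃ m : ℕ, n₀ ≤ m ∧ t < a' ^ (e (m + 1)) := by
    have h3 : ∀ᶠ n in atTop, t < a' ^ (e (n + 1)) :=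
      ((tendsto_add_atTop_iff_nat 1).2 hlim).eventually_gt_atTop t
    obtain ⟨m, hm1, hm2⟩ := (h3.and (eventually_ge_atTop n₀)).exists
    exact ⟨m, hm2, hm1⟩
  classical
  set m := Nat.find hex with hm
  obtain ⟨hm1, hm2⟩ := Nat.find_spec hex
  rw [← hm] at hm1 hm2
  have hm3 : a' ^ (e m) ≤ t := by
    rcases eq_or_lt_of_le hm1 with h3 | h3
    · rw [← h3]; exact ht
    · by_contra hcon
      push Not at hcon
      have h4 : m - 1 < m := by omega
      refine Nat.find_min hex (hm ▸ h4) ⟨by omega, ?_⟩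
      rw [show m - 1 + 1 = m by omega]
      exact hcon
  obtain ⟨g1, g2⟩ := hn₀ m hm1
  have hem : 0 < e m := by linarith
  have hlt : t < b ^ (e m) := by
    refine hm2.trans ?_
    rw [div_lt_div_iff₀ hem hla] at g1
    rw [← Real.exp_log ha0, ← Real.exp_log hb0, ← Real.exp_mul, ← Real.exp_mul]
    apply Real.exp_lt_exp.2
    linarith
  refine ⟨m, t ^ (1 / e m), ⟨?_, ?_⟩, ?_⟩
  · have h5 : a' ≤ t ^ (1 / e m) := by
      calc a' = (a' ^ (e m)) ^ (1 / e m) := by
            rw [← Real.rpow_mul ha0.le, mul_one_div_cancel hem.ne', Real.rpow_one]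
        _ ≤ t ^ (1 / e m) := Real.rpow_le_rpow (by positivity) hm3 (by positivity)
    linarith
  · calc t ^ (1 / e m) < (b ^ (e m)) ^ (1 / e m) :=
          Real.rpow_lt_rpow ht0.le hlt (by positivity)
      _ = b := by rw [← Real.rpow_mul hb0.le, mul_one_div_cancel hem.ne', Real.rpow_one]
  · rw [← Real.rpow_mul ht0.le, one_div_mul_cancel hem.ne', Real.rpow_one]

/-- **generic ratios** -/
theorem residual_exponentR {e : ℕ → ℝ} (he : Tendsto e atTop atTop)
    (her : Tendsto (fun n => e (n + 1) / e n) atTop (𝓝 1)) :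
    ∀ᶠ α in residual ℝ, 1 < α → ∀ κ : ℝ, 0 ≤ κ →
    (ExponentOn {t : ℝ | ∃ n : ℕ, t = α ^ (e n)} κ ↔ Exponent κ) := by
  obtain ⟨θ, hθ0, hθ, hmin⟩ := least
  rcases eq_or_lt_of_le hθ0 with h0 | h0
  · refine Eventually.of_forall fun α _ κ hκ => ⟨fun _ => exponent_mono (by linarith) hθ,
      fun h => exponentOn_of h _⟩
  have key : ∀ᶠ α in residual ℝ, ∀ m N : ℕ, 1 < α →
      ∃ n : ℕ, α ^ (e n) ∈ UU (θ - θ / (m + 1)) N := by
    rw [eventually_countable_forall]
    intro m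
    rw [eventually_countable_forall]
    intro N
    have hm : (0 : ℝ) < (m : ℝ) + 1 := by positivity
    have hδ : 0 < θ / ((m : ℝ) + 1) := by positivity
    have hδθ : θ / ((m : ℝ) + 1) ≤ θ := div_le_self hθ0 (by linarith [Nat.cast_nonneg (α := ℝ) m])
    set V : Set ℝ := UU (θ - θ / (m + 1)) N with hV
    have hVo : IsOpen V := UU_open (by linarith) N
    set D : Set ℝ := Iio 1 ∪ ⋃ n : ℕ, (Ioi 1 ∩ (fun x : ℝ => x ^ (e n)) ⁻¹' V) with hD
    have hDo : IsOpen D := by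
      refine isOpen_Iio.union (isOpen_iUnion fun n => ?_)
      have hc : ContinuousOn (fun x : ℝ => x ^ (e n)) (Ioi 1) := by
        apply ContinuousOn.rpow_const continuousOn_id
        intro x hx
        left
        have : (1:ℝ) < x := hx
        change x ≠ 0
        linarith
      exact hc.isOpen_inter_preimage isOpen_Ioi hVo
    have hDd : Dense D := by
      rw [dense_iff_inter_open]
      intro O hO hne
      obtain ⟨x, hx⟩ := hne
      obtain ⟨r, hr, hball⟩ := Metric.isOpen_iff.1 hO x hx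
      rcases lt_or_ge x 1 with hx1 | hx1
      · exact ⟨x, hx, Or.inl hx1⟩
      · obtain ⟨t₀, ht₀⟩ := reachR he her (a := x) (b := x + r) hx1 (by linarith)
        obtain ⟨t, ht⟩ := exists_large hθ hmin hδ hδθ (max t₀ N)
        obtain ⟨n, y, hy, hyt⟩ := ht₀ t ((le_max_left _ _).trans ht.1.le)
        refine ⟨y, hball ?_, Or.inr ?_⟩
        · rw [Metric.mem_ball, Real.dist_eq, abs_of_pos (by linarith [hy.1])]
          linarith [hy.2]
        · rw [mem_iUnion]
          refine ⟨n, lt_of_le_of_lt hx1 hy.1, ?_⟩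
          change y ^ (e n) ∈ V
          rw [hyt]
          exact ⟨(le_max_right _ _).trans_lt ht.1, ht.2⟩
    have hres : D ∈ residual ℝ := residual_of_dense_open hDo hDd
    filter_upwards [hres] with α hα hα1
    rcases hα with h1 | h2
    · exact absurd hα1 (not_lt.2 (le_of_lt h1))
    · rw [mem_iUnion] at h2
      obtain ⟨n, _, h3⟩ := h2
      exact ⟨n, h3⟩
  filter_upwards [key] with α hα hα0 κ hκ
  refine ⟨fun hE => ?_, fun h => exponentOn_of h _⟩
  by_contra hcon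
  have hlt : κ < θ := by
    by_contra h1
    push Not at h1
    exact hcon (exponent_mono h1 hθ)
  obtain ⟨m, hm⟩ := exists_nat_gt (2 * θ / (θ - κ))
  have hd : 0 < θ - κ := by linarith
  have hm1 : (0 : ℝ) < (m : ℝ) + 1 := by positivity
  have h2 : θ / ((m : ℝ) + 1) ≤ (θ - κ) / 2 := by
    rw [div_lt_iff₀ hd] at hm
    rw [div_le_iff₀ hm1]
    nlinarith
  refine contra (ν := θ - θ / (m + 1)) hκ (by linarith) ?_ hE
  intro N
  obtain ⟨n, hn⟩ := hα m N hα0
  exact ⟨α ^ (e n), ⟨n, rfl⟩, hn⟩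

/-- mean square of `ζ(1/2 + i x ^ a)` in `x` -/
lemma mean_rpow (k : ℕ) : ∃ C : ℝ, 0 < C ∧ ∀ a : ℝ, 1 ≤ a →
    ∫ x in (1:ℝ)..((2:ℝ) ^ k), Z (x ^ a) ^ 2 ≤ C * a := by
  obtain ⟨C, hC, h⟩ := dyadic
  refine ⟨2 ^ k * C * ((k + 1) ^ 2), by positivity, fun a ha => ?_⟩
  have ha0 : (0:ℝ) < a := by linarith
  have h2k : (1:ℝ) ≤ 2 ^ k := one_le_pow₀ (by norm_num)
  have hpow : Continuous fun x : ℝ => x ^ a := Real.continuous_rpow_const ha0.le
  -- change of variables
  have hcv : ∫ x in (1:ℝ)..((2:ℝ) ^ k), (Z (x ^ a) ^ 2 / x ^ a) * (a * x ^ (a - 1)) =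
      ∫ t in ((1:ℝ) ^ a)..(((2:ℝ) ^ k) ^ a), Z t ^ 2 / t := by
    have hd : ∀ x ∈ uIcc (1:ℝ) (2 ^ k), HasDerivAt (fun x : ℝ => x ^ a) (a * x ^ (a - 1)) x := by
      intro x hx
      rw [uIcc_of_le h2k] at hx
      exact Real.hasDerivAt_rpow_const (Or.inl (by linarith [hx.1]))
    have hc1 : ContinuousOn (fun x : ℝ => a * x ^ (a - 1)) (uIcc (1:ℝ) (2 ^ k)) := by
      rw [uIcc_of_le h2k]
      apply continuousOn_const.mul
      apply ContinuousOn.rpow_const continuousOn_id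
      intro x hx
      left
      change x ≠ 0
      linarith [hx.1]
    have hc2 : ContinuousOn (fun t : ℝ => Z t ^ 2 / t)
        ((fun x : ℝ => x ^ a) '' uIcc (1:ℝ) (2 ^ k)) := by
      apply ContinuousOn.div (Z_cont.pow 2).continuousOn continuousOn_id
      rintro t ⟨x, hx, rfl⟩
      rw [uIcc_of_le h2k] at hx
      have : 0 < x := by linarith [hx.1]
      change x ^ a ≠ 0
      positivity
    exact intervalIntegral.integral_comp_mul_deriv' hd hc1 hc2
  have hpt : ∀ x : ℝ, 1 ≤ x → (Z (x ^ a) ^ 2 / x ^ a) * (a * x ^ (a - 1)) =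
      a * (Z (x ^ a) ^ 2 / x) := by
    intro x hx
    have hx0 : 0 < x := by linarith
    have e : x ^ a = x ^ (a - 1) * x := by
      rw [← Real.rpow_add_one hx0.ne']; congr 1; ring
    have hp : 0 < x ^ (a - 1) := Real.rpow_pos_of_pos hx0 _
    rw [div_mul_eq_mul_div, div_eq_iff (by positivity : x ^ a ≠ 0)]
    have e2 : a * (Z (x ^ a) ^ 2 / x) * x ^ a = a * Z (x ^ a) ^ 2 * (x ^ a / x) := by ring
    have e3 : x ^ a / x = x ^ (a - 1) := by
      rw [div_eq_iff hx0.ne', e]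
    rw [e2, e3]
    ring
  have h1 : ∫ x in (1:ℝ)..((2:ℝ) ^ k), a / 2 ^ k * Z (x ^ a) ^ 2 ≤
      ∫ x in (1:ℝ)..((2:ℝ) ^ k), (Z (x ^ a) ^ 2 / x ^ a) * (a * x ^ (a - 1)) := by
    refine intervalIntegral.integral_mono_on h2k ?_ ?_ ?_
    · apply Continuous.intervalIntegrable
      exact continuous_const.mul ((Z_cont.comp hpow).pow 2)
    · apply ContinuousOn.intervalIntegrable
      rw [uIcc_of_le h2k]
      apply ContinuousOn.mul
      · apply ContinuousOn.div
        · exact ((Z_cont.comp hpow).pow 2).continuousOn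
        · exact hpow.continuousOn
        · intro x hx
          have : 0 < x := by linarith [hx.1]
          positivity
      · apply continuousOn_const.mul
        apply ContinuousOn.rpow_const continuousOn_id
        intro x hx
        left
        change x ≠ 0
        linarith [hx.1]
    · intro x hx
      rw [hpt x hx.1]
      have hx0 : 0 < x := by linarith [hx.1]
      rw [div_mul_eq_mul_div, mul_div_assoc]
      apply mul_le_mul_of_nonneg_left _ ha0.le
      exact div_le_div_of_nonneg_left (sq_nonneg _) hx0 hx.2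
  rw [intervalIntegral.integral_const_mul, hcv, Real.one_rpow] at h1
  -- the upper end point is at most a power of two
  set J : ℕ := ⌈(k : ℝ) * a⌉₊ with hJ
  have hJ1 : (k : ℝ) * a ≤ J := Nat.le_ceil _
  have hJ2 : (J : ℝ) ≤ (k + 1) * a := by
    have := (Nat.ceil_lt_add_one (show (0:ℝ) ≤ (k : ℝ) * a by positivity)).le
    rw [← hJ] at this
    linarith
  have hend : ((2:ℝ) ^ k) ^ a ≤ 2 ^ J := by
    rw [← Real.rpow_natCast, ← Real.rpow_mul (by norm_num), ← Real.rpow_natCast]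
    exact Real.rpow_le_rpow_of_exponent_le (by norm_num) hJ1
  have h1e : (1:ℝ) ≤ ((2:ℝ) ^ k) ^ a := Real.one_le_rpow h2k ha0.le
  have h2 : ∫ t in (1:ℝ)..(((2:ℝ) ^ k) ^ a), Z t ^ 2 / t ≤ ∫ t in (1:ℝ)..((2:ℝ) ^ J), Z t ^ 2 / t := by
    refine intervalIntegral.integral_mono_interval le_rfl h1e hend ?_
      (Zint_div one_pos (h1e.trans hend))
    rw [EventuallyLE, ae_restrict_iff' measurableSet_Ioc]
    refine Eventually.of_forall fun t ht => ?_
    have : 0 < t := by linarith [ht.1]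
    change 0 ≤ Z t ^ 2 / t
    positivity
  have h3 : a / 2 ^ k * ∫ x in (1:ℝ)..((2:ℝ) ^ k), Z (x ^ a) ^ 2 ≤ C * (((k : ℝ) + 1) * a) ^ 2 := by
    refine (h1.trans h2).trans ((h J).trans ?_)
    apply mul_le_mul_of_nonneg_left _ hC.le
    exact pow_le_pow_left₀ (by positivity) hJ2 2
  have h4 : (0:ℝ) < 2 ^ k := by positivity
  rw [div_mul_eq_mul_div, div_le_iff₀ h4] at h3
  have h5 : a * ∫ x in (1:ℝ)..((2:ℝ) ^ k), Z (x ^ a) ^ 2 ≤
      a * (2 ^ k * C * ((k + 1) ^ 2) * a) := by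
    refine h3.trans (le_of_eq ?_)
    ring
  exact le_of_mul_le_mul_left h5 ha0

/-- **almost all ratios** -/
theorem ae_rpow {e : ℕ → ℝ} (he : ∀ᶠ n in atTop, 1 ≤ e n) :
    ∀ᵐ α : ℝ, 1 < α → ∀ ε : ℝ, 0 < ε → ∀ᶠ n : ℕ in atTop,
    Z (α ^ (e n)) ≤ (e n) ^ (1 / 2 : ℝ) * (n : ℝ) ^ (1 / 2 + ε) := by
  have key : ∀ m k : ℕ, ∀ᵐ α : ℝ, ∀ᶠ n : ℕ in atTop,
      ¬ ((1 ≤ n ∧ 1 ≤ e n) ∧ α ∈ Ioc 1 ((2:ℝ) ^ k) ∧
        (e n) ^ (1 / 2 : ℝ) * (n : ℝ) ^ (1 / 2 + 1 / ((m : ℝ) + 1)) < Z (α ^ (e n))) := by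
    intro m k
    set d : ℝ := 1 / ((m : ℝ) + 1) with hd
    have hd0 : 0 < d := by positivity
    obtain ⟨C, hC, h⟩ := mean_rpow k
    set E : ℕ → Set ℝ := fun n => {α : ℝ | (1 ≤ n ∧ 1 ≤ e n) ∧ α ∈ Ioc 1 ((2:ℝ) ^ k) ∧
      (e n) ^ (1 / 2 : ℝ) * (n : ℝ) ^ (1 / 2 + d) < Z (α ^ (e n))} with hE
    have h2k : (1:ℝ) ≤ 2 ^ k := one_le_pow₀ (by norm_num)
    have hEv : ∀ n : ℕ, volume (E n) ≤ ENNReal.ofReal (C * (n : ℝ) ^ (-(1 + 2 * d))) := by
      intro n
      by_cases hn : 1 ≤ n ∧ 1 ≤ e n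
      swap
      · have : E n = ∅ := eq_empty_of_forall_notMem fun α hα => hn hα.1
        rw [this, measure_empty]
        exact bot_le
      obtain ⟨hn1, hen⟩ := hn
      have hn0 : (0:ℝ) < n := by exact_mod_cast hn1
      have he0 : 0 < e n := by linarith
      have hpow : Continuous fun x : ℝ => x ^ (e n) := Real.continuous_rpow_const he0.le
      have hEm : MeasurableSet (E n) := by
        have e1 : E n = Ioc 1 ((2:ℝ) ^ k) ∩ {α : ℝ | (e n) ^ (1 / 2 : ℝ) * (n : ℝ) ^ (1 / 2 + d) <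
            Z (α ^ (e n))} := by
          ext α
          constructor
          · rintro ⟨_, h2, h3⟩; exact ⟨h2, h3⟩
          · rintro ⟨h2, h3⟩; exact ⟨⟨hn1, hen⟩, h2, h3⟩
        rw [e1]
        exact measurableSet_Ioc.inter (measurableSet_lt measurable_const
          (Z_cont.comp hpow).measurable)
      have hV : 0 < e n * (n : ℝ) ^ (1 + 2 * d) := mul_pos he0 (Real.rpow_pos_of_pos hn0 _)
      have h1 : ENNReal.ofReal (e n * (n : ℝ) ^ (1 + 2 * d)) * volume (E n) ≤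
          ENNReal.ofReal (C * e n) := by
        have h2 : ENNReal.ofReal (e n * (n : ℝ) ^ (1 + 2 * d)) * volume (E n) ≤
            ∫⁻ x in E n, ENNReal.ofReal (Z (x ^ (e n)) ^ 2) := by
          rw [← setLIntegral_const]
          refine setLIntegral_mono' hEm fun x hx => ?_
          apply ENNReal.ofReal_le_ofReal
          have e3 : e n * (n : ℝ) ^ (1 + 2 * d) =
              ((e n) ^ (1 / 2 : ℝ) * (n : ℝ) ^ (1 / 2 + d)) ^ 2 := by
            rw [mul_pow, ← Real.rpow_natCast, ← Real.rpow_natCast, ← Real.rpow_mul he0.le,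
              ← Real.rpow_mul hn0.le]
            norm_num
            left
            congr 1; ring
          rw [e3]
          exact pow_le_pow_left₀ (by positivity) hx.2.2.le 2
        refine h2.trans ?_
        have hsub : E n ⊆ Ioc 1 ((2:ℝ) ^ k) := fun x hx => hx.2.1
        refine (lintegral_mono_set hsub).trans ?_
        have hint : IntegrableOn (fun x : ℝ => Z (x ^ (e n)) ^ 2) (Ioc 1 ((2:ℝ) ^ k)) := by
          rw [← intervalIntegrable_iff_integrableOn_Ioc_of_le h2k]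
          exact ((Z_cont.comp hpow).pow 2).intervalIntegrable _ _
        rw [← ofReal_integral_eq_lintegral_ofReal hint (Eventually.of_forall fun x => sq_nonneg _)]
        apply ENNReal.ofReal_le_ofReal
        rw [← intervalIntegral.integral_of_le h2k]
        exact h (e n) hen
      have h3 : volume (E n) ≤ ENNReal.ofReal (C * e n) /
          ENNReal.ofReal (e n * (n : ℝ) ^ (1 + 2 * d)) := by
        rw [ENNReal.le_div_iff_mul_le (Or.inl (ENNReal.ofReal_pos.2 hV).ne')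
          (Or.inl ENNReal.ofReal_ne_top), mul_comm]
        exact h1
      refine h3.trans ?_
      rw [← ENNReal.ofReal_div_of_pos hV]
      apply ENNReal.ofReal_le_ofReal
      rw [Real.rpow_neg hn0.le]
      have hp : 0 < (n : ℝ) ^ (1 + 2 * d) := Real.rpow_pos_of_pos hn0 _
      apply le_of_eq
      field_simp
    have hsum : ∑' n, volume (E n) ≠ ⊤ := by
      have hs : Summable fun n : ℕ => C * (n : ℝ) ^ (-(1 + 2 * d)) :=
        (Real.summable_nat_rpow.2 (by linarith)).mul_left C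
      refine ne_top_of_le_ne_top ?_ (ENNReal.tsum_le_tsum fun n => hEv n)
      rw [← ENNReal.ofReal_tsum_of_nonneg (fun n => by positivity) hs]
      exact ENNReal.ofReal_ne_top
    exact ae_eventually_notMem hsum
  have key2 : ∀ᵐ α : ℝ, ∀ m k : ℕ, ∀ᶠ n : ℕ in atTop,
      ¬ ((1 ≤ n ∧ 1 ≤ e n) ∧ α ∈ Ioc 1 ((2:ℝ) ^ k) ∧
        (e n) ^ (1 / 2 : ℝ) * (n : ℝ) ^ (1 / 2 + 1 / ((m : ℝ) + 1)) < Z (α ^ (e n))) := by
    rw [ae_all_iff]
    intro m
    rw [ae_all_iff]
    intro k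
    exact key m k
  filter_upwards [key2] with α hα hα1 ε hε
  obtain ⟨m, hm⟩ := exists_nat_gt (1 / ε)
  obtain ⟨k, hk⟩ := pow_unbounded_of_one_lt α (show (1:ℝ) < 2 by norm_num)
  have hm1 : (0:ℝ) < (m : ℝ) + 1 := by positivity
  have hme : 1 / ((m : ℝ) + 1) ≤ ε := by
    rw [div_lt_iff₀ hε] at hm
    rw [div_le_iff₀ hm1]
    nlinarith
  filter_upwards [hα m k, eventually_ge_atTop 1, he] with n hn hn1 hen
  have h1 : Z (α ^ (e n)) ≤ (e n) ^ (1 / 2 : ℝ) * (n : ℝ) ^ (1 / 2 + 1 / ((m : ℝ) + 1)) := by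
    by_contra hcon
    push Not at hcon
    exact hn ⟨⟨hn1, hen⟩, ⟨hα1, hk.le⟩, hcon⟩
  refine h1.trans ?_
  apply mul_le_mul_of_nonneg_left _ (Real.rpow_nonneg (by linarith) _)
  exact Real.rpow_le_rpow_of_exponent_le (by exact_mod_cast hn1) (by linarith)

/-- for almost all ratios the exponent of the sequence is zero -/
theorem ae_exponent_zero {e : ℕ → ℝ} {c : ℝ} (hc : 0 < c) (he : ∀ᶠ n : ℕ in atTop, (n : ℝ) ^ c ≤ e n) :
    ∀ᵐ α : ℝ, 1 < α → ExponentOn {t : ℝ | ∃ n : ℕ, t = α ^ (e n)} 0 := by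
  have he1 : ∀ᶠ n : ℕ in atTop, 1 ≤ e n := by
    filter_upwards [he, eventually_ge_atTop 1] with n hn hn1
    refine le_trans ?_ hn
    exact Real.one_le_rpow (by exact_mod_cast hn1) hc.le
  filter_upwards [ae_rpow he1] with α hα hα1 ε hε
  have h1 := hα hα1 1 one_pos
  -- `e ^ (1/2) n ^ (3/2) ≤ e ^ A ≤ α ^ (ε e)` for large `n`
  set A : ℝ := 1 / 2 + 3 / 2 / c with hA
  have hlog : 0 < Real.log α := Real.log_pos hα1
  have hetop : Tendsto e atTop atTop := by
    have h2 : Tendsto (fun n : ℕ => (n : ℝ) ^ c) atTop atTop :=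
      (tendsto_rpow_atTop hc).comp tendsto_natCast_atTop_atTop
    exact tendsto_atTop_mono' _ he h2
  have hgrow : ∀ᶠ x : ℝ in atTop, x ^ A ≤ Real.exp (ε * Real.log α * x) := by
    have h3 := isLittleO_rpow_exp_pos_mul_atTop A (show 0 < ε * Real.log α by positivity)
    filter_upwards [h3.bound one_pos, eventually_ge_atTop 0] with x hx hx0
    rw [Real.norm_of_nonneg (Real.rpow_nonneg hx0 _), Real.norm_of_nonneg (Real.exp_pos _).le,
      one_mul] at hx
    exact hx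
  have hev := (hetop.eventually hgrow)
  obtain ⟨n₀, hn₀⟩ := eventually_atTop.1 (((h1.and he).and he1).and (hev.and (eventually_ge_atTop 1)))
  set M : ℝ := ∑ n ∈ Finset.range n₀, Z (α ^ (e n)) with hM
  refine ⟨max M 1, ?_⟩
  rintro t ⟨n, rfl⟩
  have hp : 1 ≤ (1 + |α ^ (e n)|) ^ (0 + ε) :=
    Real.one_le_rpow (by linarith [abs_nonneg (α ^ (e n))]) (by linarith)
  have hm0 : 0 ≤ max M 1 := le_trans zero_le_one (le_max_right _ _)
  rcases lt_or_ge n n₀ with hn | hn
  · have h4 : Z (α ^ (e n)) ≤ M := Finset.single_le_sum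
      (f := fun n : ℕ => Z (α ^ (e n))) (fun i _ => Z_nonneg _) (Finset.mem_range.2 hn)
    calc Z (α ^ (e n)) ≤ max M 1 := h4.trans (le_max_left _ _)
      _ ≤ _ := le_mul_of_one_le_right hm0 hp
  · obtain ⟨⟨⟨g1, g2⟩, g3⟩, g4, g5⟩ := hn₀ n hn
    have hn1 : (1:ℝ) ≤ n := by exact_mod_cast g5
    have hn0 : (0:ℝ) < n := by linarith
    have he0 : 0 < e n := by linarith
    have h5 : (n : ℝ) ^ (1 / 2 + 1 : ℝ) ≤ (e n) ^ (3 / 2 / c) := by
      have : (n : ℝ) ≤ (e n) ^ (1 / c) := by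
        calc (n : ℝ) = ((n : ℝ) ^ c) ^ (1 / c) := by
              rw [← Real.rpow_mul hn0.le, mul_one_div_cancel hc.ne', Real.rpow_one]
          _ ≤ _ := Real.rpow_le_rpow (by positivity) g2 (by positivity)
      calc (n : ℝ) ^ (1 / 2 + 1 : ℝ) ≤ ((e n) ^ (1 / c)) ^ (1 / 2 + 1 : ℝ) :=
            Real.rpow_le_rpow hn0.le this (by norm_num)
        _ = (e n) ^ (3 / 2 / c) := by
            rw [← Real.rpow_mul he0.le]; congr 1; ring
    have h6 : Z (α ^ (e n)) ≤ (e n) ^ A := by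
      calc Z (α ^ (e n)) ≤ (e n) ^ (1 / 2 : ℝ) * (n : ℝ) ^ (1 / 2 + 1 : ℝ) := g1
        _ ≤ (e n) ^ (1 / 2 : ℝ) * (e n) ^ (3 / 2 / c) :=
            mul_le_mul_of_nonneg_left h5 (by positivity)
        _ = _ := by rw [← Real.rpow_add he0]
    have h7 : Real.exp (ε * Real.log α * e n) = (α ^ (e n)) ^ ε := by
      rw [← Real.rpow_mul (by linarith), Real.rpow_def_of_pos (by linarith)]
      congr 1; ring
    have hα0 : 0 < α ^ (e n) := Real.rpow_pos_of_pos (by linarith) _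
    calc Z (α ^ (e n)) ≤ (α ^ (e n)) ^ ε := by rw [← h7]; exact h6.trans g4
      _ ≤ (1 + |α ^ (e n)|) ^ (0 + ε) := by
          rw [zero_add, abs_of_pos hα0]
          exact Real.rpow_le_rpow hα0.le (by linarith) hε.le
      _ ≤ max M 1 * (1 + |α ^ (e n)|) ^ (0 + ε) :=
          le_mul_of_one_le_left (by positivity) (le_max_right _ _)

end Pool.Agent.R306
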