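import Mathlib

/-!
Almost everywhere convergence of weighted averages from a variance bound.
-/

set_option autoImplicit false

open MeasureTheory Filter Topology Set Real
open scoped ENNReal

namespace Pool.Agent.R306.LogAE

/-- a.e. convergence of weighted averages to zero from a bound `C (L + 1)` for the second moments -/
theorem ae_avg {D : ℕ → ℝ → ℝ} (hDm : ∀ n, Measurable (D n)) {B : ℝ} (hB : ∀ n y, |D n y| ≤ B)
    {w : ℕ → ℝ} (hw0 : ∀ n, 0 ≤ w n) {c₀ : ℝ} (hwc : ∀ n, w n ≤ c₀)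
    (hL : Tendsto (fun N => ∑ n ∈ Finset.range N, w n) atTop atTop) {u v C : ℝ} (huv : u ≤ v)
    (hvar : ∀ N, ∫ y in u..v, (∑ n ∈ Finset.range N, w n * D n y) ^ 2 ≤
      C * ((∑ n ∈ Finset.range N, w n) + 1)) :
    ∀ᵐ y : ℝ, y ∈ Ioc u v → Tendsto (fun N => (∑ n ∈ Finset.range N, w n * D n y) /
      ∑ n ∈ Finset.range N, w n) atTop (𝓝 0) := by
  set L : ℕ → ℝ := fun N => ∑ n ∈ Finset.range N, w n with hLd
  set S : ℕ → ℝ → ℝ := fun N y => ∑ n ∈ Finset.range N, w n * D n y with hS
  have hL0 : ∀ N, 0 ≤ L N := fun N => Finset.sum_nonneg fun n _ => hw0 n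
  have hLmono : Monotone L := by
    intro M N hMN
    exact Finset.sum_le_sum_of_subset_of_nonneg (Finset.range_mono hMN) fun n _ _ => hw0 n
  have hSm : ∀ N, Measurable (S N) := fun N =>
    Finset.measurable_sum _ fun n _ => (hDm n).const_mul _
  have hB0 : 0 ≤ B := (abs_nonneg _).trans (hB 0 0)
  have hc0 : 0 ≤ c₀ := (hw0 0).trans (hwc 0)
  have hSb : ∀ N y, |S N y| ≤ B * L N := by
    intro N y
    rw [hS, hLd]
    dsimp only
    rw [Finset.mul_sum]
    refine (Finset.abs_sum_le_sum_abs _ _).trans (Finset.sum_le_sum fun n _ => ?_)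
    rw [abs_mul, abs_of_nonneg (hw0 n), mul_comm]
    exact mul_le_mul_of_nonneg_right (hB n y) (hw0 n)
  have hSdiff : ∀ M N y, M ≤ N → |S N y - S M y| ≤ B * (L N - L M) := by
    intro M N y hMN
    have e1 : S N y - S M y = ∑ n ∈ Finset.Ico M N, w n * D n y := by
      rw [hS]; dsimp only; rw [Finset.sum_Ico_eq_sub _ hMN]
    have e2 : L N - L M = ∑ n ∈ Finset.Ico M N, w n := by
      rw [hLd]; dsimp only; rw [Finset.sum_Ico_eq_sub _ hMN]
    rw [e1, e2, Finset.mul_sum]
    refine (Finset.abs_sum_le_sum_abs _ _).trans (Finset.sum_le_sum fun n _ => ?_)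
    rw [abs_mul, abs_of_nonneg (hw0 n), mul_comm]
    exact mul_le_mul_of_nonneg_right (hB n y) (hw0 n)
  -- the subsequence
  have hex : ∀ k : ℕ, ∃ N : ℕ, ((k : ℝ) + 1) ^ 2 ≤ L N := fun k =>
    (hL.eventually_ge_atTop (((k : ℝ) + 1) ^ 2)).exists
  classical
  set K : ℕ → ℕ := fun k => Nat.find (hex k) with hK
  have hK1 : ∀ k : ℕ, ((k : ℝ) + 1) ^ 2 ≤ L (K k) := fun k => Nat.find_spec (hex k)
  have hK2 : ∀ k, L (K k) ≤ ((k : ℝ) + 1) ^ 2 + c₀ := by
    intro k
    have hpos : 0 < K k := by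
      rcases Nat.eq_zero_or_pos (K k) with h | h
      · exfalso
        have h1 := hK1 k
        rw [h] at h1
        have : L 0 = 0 := by simp [hLd]
        rw [this] at h1
        nlinarith [Nat.cast_nonneg (α := ℝ) k]
      · exact h
    have h1 : K k - 1 < K k := by omega
    have h2 := Nat.find_min (hex k) h1
    push Not at h2
    have h3 : L (K k) = L (K k - 1) + w (K k - 1) := by
      rw [hLd]; dsimp only
      rw [← Finset.sum_range_succ]
      congr 2
      omega
    linarith [hwc (K k - 1)]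
  have hKmono : Monotone K := by
    intro i j hij
    apply Nat.find_min'
    refine le_trans ?_ (hK1 j)
    have : (i : ℝ) ≤ j := by exact_mod_cast hij
    nlinarith [Nat.cast_nonneg (α := ℝ) i]
  -- the normalised sums along the subsequence are square summable
  have hC0 : 0 ≤ C := by
    have h1 := hvar 0
    simp at h1
    exact h1
  have hint : ∀ N, ∫⁻ y in Ioc u v, ENNReal.ofReal ((S N y / L N) ^ 2) ≤
      ENNReal.ofReal (C * (L N + 1) / L N ^ 2) := by
    intro N
    have hm1 : Integrable (fun y => (S N y) ^ 2) (volume.restrict (Ioc u v)) := by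
      refine Integrable.of_bound ((hSm N).pow_const 2).aestronglyMeasurable ((B * L N) ^ 2)
        (Eventually.of_forall fun y => ?_)
      rw [Real.norm_of_nonneg (sq_nonneg _), ← sq_abs]
      exact pow_le_pow_left₀ (abs_nonneg _) (hSb N y) 2
    have hm2 : Integrable (fun y => (S N y / L N) ^ 2) (volume.restrict (Ioc u v)) := by
      have e : (fun y => (S N y / L N) ^ 2) = fun y => (S N y) ^ 2 / (L N) ^ 2 := by
        funext y; rw [div_pow]
      rw [e]
      exact hm1.div_const _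
    rw [← ofReal_integral_eq_lintegral_ofReal hm2 (Eventually.of_forall fun y => sq_nonneg _)]
    apply ENNReal.ofReal_le_ofReal
    have e : ∫ y in Ioc u v, (S N y / L N) ^ 2 = (∫ y in u..v, (S N y) ^ 2) / (L N) ^ 2 := by
      rw [intervalIntegral.integral_of_le huv, ← integral_div]
      congr 1
      funext y; rw [div_pow]
    rw [e]
    exact div_le_div_of_nonneg_right (hvar N) (sq_nonneg _)
  have hsum : ∑' k, ∫⁻ y in Ioc u v, ENNReal.ofReal ((S (K k) y / L (K k)) ^ 2) ≠ ∞ := by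
    have hs : Summable fun k : ℕ => 2 * C * (((k : ℝ) + 1) ^ 2)⁻¹ := by
      have h1 : Summable fun k : ℕ => (((k : ℝ) + 1) ^ 2)⁻¹ := by
        have h2 := (summable_nat_add_iff 1).2 (Real.summable_nat_pow_inv.2 (show 1 < 2 by norm_num))
        refine h2.congr fun k => ?_
        push_cast
        rfl
      exact h1.mul_left _
    refine ne_top_of_le_ne_top ?_ (ENNReal.tsum_le_tsum (g := fun k : ℕ =>
      ENNReal.ofReal (2 * C * (((k : ℝ) + 1) ^ 2)⁻¹)) fun k => ?_)
    · rw [← ENNReal.ofReal_tsum_of_nonneg (fun k => by positivity) hs]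
      exact ENNReal.ofReal_ne_top
    · refine (hint (K k)).trans (ENNReal.ofReal_le_ofReal ?_)
      have h1 := hK1 k
      have hk1 : (1:ℝ) ≤ ((k : ℝ) + 1) ^ 2 := by nlinarith [Nat.cast_nonneg (α := ℝ) k]
      have h2 : 1 ≤ L (K k) := hk1.trans h1
      have hLp : 0 < L (K k) := by linarith
      rw [div_le_iff₀ (by positivity)]
      have h3 : L (K k) ≤ (((k : ℝ) + 1) ^ 2)⁻¹ * L (K k) ^ 2 := by
        rw [inv_mul_eq_div, le_div_iff₀ (by positivity)]
        nlinarith
      calc C * (L (K k) + 1) ≤ C * (2 * L (K k)) := by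
            apply mul_le_mul_of_nonneg_left _ hC0; linarith
        _ ≤ C * (2 * ((((k : ℝ) + 1) ^ 2)⁻¹ * L (K k) ^ 2)) := by
            apply mul_le_mul_of_nonneg_left _ hC0; linarith
        _ = _ := by ring
  have hae : ∀ᵐ y ∂(volume.restrict (Ioc u v)), ∑' k, ENNReal.ofReal ((S (K k) y / L (K k)) ^ 2) ≠ ∞ := by
    have hmeas : ∀ k, Measurable fun y => ENNReal.ofReal ((S (K k) y / L (K k)) ^ 2) := fun k =>
      (((hSm (K k)).div_const _).pow_const 2).ennreal_ofReal
    have h1 : ∫⁻ y in Ioc u v, ∑' k, ENNReal.ofReal ((S (K k) y / L (K k)) ^ 2) ≠ ∞ := by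
      rw [lintegral_tsum fun k => (hmeas k).aemeasurable]
      exact hsum
    have h2 := ae_lt_top (Measurable.ennreal_tsum hmeas) h1
    filter_upwards [h2] with y hy
    exact hy.ne
  rw [ae_restrict_iff' measurableSet_Ioc] at hae
  filter_upwards [hae] with y hy hyI
  have hsq := hy hyI
  -- the subsequence tends to zero
  have hsub : Tendsto (fun k => S (K k) y / L (K k)) atTop (𝓝 0) := by
    have h1 := ENNReal.tendsto_atTop_zero_of_tsum_ne_top hsq
    have h2 : Tendsto (fun k => (S (K k) y / L (K k)) ^ 2) atTop (𝓝 0) := by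
      have h3 := (ENNReal.tendsto_toReal (ENNReal.zero_ne_top)).comp h1
      refine (h3.congr fun k => ?_)
      simp only [Function.comp]
      rw [ENNReal.toReal_ofReal (sq_nonneg _)]
    have h4 := (Real.continuous_sqrt.tendsto 0).comp h2
    rw [Real.sqrt_zero] at h4
    rw [tendsto_zero_iff_abs_tendsto_zero]
    refine h4.congr fun k => ?_
    simp only [Function.comp]
    rw [Real.sqrt_sq_eq_abs]
  -- interpolation
  rw [Metric.tendsto_atTop]
  intro ε hε
  obtain ⟨k₁, hk₁⟩ := (Metric.tendsto_atTop.1 hsub) (ε / 2) (by linarith)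
  obtain ⟨k₂, hk₂⟩ := exists_nat_gt (2 * B * (3 + c₀) / ε)
  set k₀ := max (max k₁ k₂) 1 with hk₀
  refine ⟨K k₀, fun N hN => ?_⟩
  -- the last `k` with `K k ≤ N`
  have hKinf : Tendsto K atTop atTop := by
    apply tendsto_atTop_mono' atTop (f₁ := fun k => K k) (Eventually.of_forall fun k => le_rfl)
    rw [tendsto_atTop]
    intro M
    obtain ⟨k, hk⟩ := exists_nat_gt (L M)
    filter_upwards [eventually_ge_atTop k] with j hj
    by_contra hcon
    push Not at hcon
    have h1 := hK1 j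
    have h2 : L (K j) ≤ L M := hLmono hcon.le
    have h3 : (k : ℝ) ≤ j := by exact_mod_cast hj
    nlinarith [Nat.cast_nonneg (α := ℝ) j]
  have hex2 : ∃ k, k₀ ≤ k ∧ N < K (k + 1) := by
    obtain ⟨k, hk⟩ := (((tendsto_add_atTop_iff_nat 1).2 hKinf).eventually_gt_atTop N).and
      (eventually_ge_atTop k₀) |>.exists
    exact ⟨k, hk.2, hk.1⟩
  set k := Nat.find hex2 with hkd
  obtain ⟨hkk, hNk⟩ := Nat.find_spec hex2
  rw [← hkd] at hkk hNk
  have hKN : K k ≤ N := by
    rcases eq_or_lt_of_le hkk with h | h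
    · rw [← h]; exact hN
    · have h1 : k - 1 < k := by omega
      have h2 := Nat.find_min hex2 (hkd ▸ h1)
      push Not at h2
      have h3 := h2 (by omega)
      rwa [show k - 1 + 1 = k by omega] at h3
  have hk1 : k₁ ≤ k := ((le_max_left _ _).trans (le_max_left _ _)).trans hkk
  have hk2 : k₂ ≤ k := ((le_max_right _ _).trans (le_max_left _ _)).trans hkk
  have hkk1 : (1:ℝ) ≤ k := by exact_mod_cast (le_max_right _ _).trans hkk
  have hb1 := hk₁ k hk1
  rw [Real.dist_eq, sub_zero] at hb1 ⊢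
  have hLN : L (K k) ≤ L N := hLmono hKN
  have hLN2 : L N ≤ L (K (k + 1)) := hLmono hNk.le
  have hLk := hK1 k
  have hLk0 : 0 < L (K k) := lt_of_lt_of_le (by positivity) hLk
  have hLN0 : 0 < L N := hLk0.trans_le hLN
  have hdiff : L N - L (K k) ≤ (3 + c₀) * ((k : ℝ) + 1) := by
    have h1 := hK2 (k + 1)
    push_cast at h1
    nlinarith
  have h5 : |S N y| ≤ |S (K k) y| + B * ((3 + c₀) * ((k : ℝ) + 1)) := by
    have h6 := hSdiff (K k) N y hKN
    have h7 : |S N y| ≤ |S (K k) y| + |S N y - S (K k) y| := by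
      have := abs_add_le (S (K k) y) (S N y - S (K k) y)
      simpa using this
    have h8 : B * (L N - L (K k)) ≤ B * ((3 + c₀) * ((k : ℝ) + 1)) :=
      mul_le_mul_of_nonneg_left hdiff hB0
    linarith
  rw [abs_div, abs_of_pos hLN0, div_lt_iff₀ hLN0]
  have h9 : |S (K k) y| < ε / 2 * L (K k) := by
    rw [abs_div, abs_of_pos hLk0, div_lt_iff₀ hLk0] at hb1
    exact hb1
  have h10 : B * ((3 + c₀) * ((k : ℝ) + 1)) ≤ ε / 2 * L (K k) := by
    have h11 : 2 * B * (3 + c₀) / ε < k + 1 := by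
      have : (k₂ : ℝ) ≤ k := by exact_mod_cast hk2
      linarith
    rw [div_lt_iff₀ hε] at h11
    have h12 : B * (3 + c₀) ≤ ε / 2 * ((k : ℝ) + 1) := by linarith
    calc B * ((3 + c₀) * ((k : ℝ) + 1)) = B * (3 + c₀) * ((k : ℝ) + 1) := by ring
      _ ≤ ε / 2 * ((k : ℝ) + 1) * ((k : ℝ) + 1) := by
          apply mul_le_mul_of_nonneg_right h12 (by positivity)
      _ = ε / 2 * ((k : ℝ) + 1) ^ 2 := by ring
      _ ≤ ε / 2 * L (K k) := by
          apply mul_le_mul_of_nonneg_left hLk (by positivity)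
  have h13 : ε / 2 * L (K k) ≤ ε / 2 * L N := mul_le_mul_of_nonneg_left hLN (by positivity)
  linarith

end Pool.Agent.R306.LogAE
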