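import Pool.Agent.H983R4.GL.Z3
import Pool.Agent.R306.Dil

/-!
The Lindelöf exponent along almost all dilations and shifts of a thick set.
-/

set_option autoImplicit false

open MeasureTheory Filter Topology Set Real

namespace Pool.Agent.R306

/-- `|ζ(1/2 + it)|` -/
noncomputable def Z (t : ℝ) : ℝ := ‖riemannZeta (1 / 2 + t * Complex.I)‖

/-- `|ζ(1/2 + it)| = O((1 + |t|)^(κ + ε))` for every `ε > 0` -/
def Exponent (κ : ℝ) : Prop := ∀ ε : ℝ, 0 < ε → ∃ C : ℝ, ∀ t : ℝ, Z t ≤ C * (1 + |t|) ^ (κ + ε)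

/-- the same for `t` in `Λ` -/
def ExponentOn (Λ : Set ℝ) (κ : ℝ) : Prop := ∀ ε : ℝ, 0 < ε → ∃ C : ℝ, ∀ t ∈ Λ,
  Z t ≤ C * (1 + |t|) ^ (κ + ε)

lemma Z_cont : Continuous Z := by
  unfold Z
  refine Continuous.norm ?_
  rw [continuous_iff_continuousAt]
  intro t
  have hne : (1 / 2 + (t : ℂ) * Complex.I) ≠ 1 := by
    intro h
    have := congrArg Complex.re h
    norm_num at this
  have h1 : ContinuousAt riemannZeta (1 / 2 + (t : ℂ) * Complex.I) :=
    (differentiableAt_riemannZeta hne).continuousAt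
  have h2 : ContinuousAt (fun t : ℝ => (1 / 2 + (t : ℂ) * Complex.I : ℂ)) t := by fun_prop
  exact ContinuousAt.comp (g := riemannZeta) (f := fun t : ℝ => (1 / 2 + (t : ℂ) * Complex.I : ℂ)) h1 h2

lemma Z_nonneg (t : ℝ) : 0 ≤ Z t := norm_nonneg _

lemma exponent_mono {κ κ' : ℝ} (h : κ ≤ κ') (hE : Exponent κ) : Exponent κ' := by
  intro ε hε
  obtain ⟨C, hC⟩ := hE ε hε
  refine ⟨|C|, fun t => (hC t).trans ?_⟩
  have h1 : 1 ≤ 1 + |t| := by linarith [abs_nonneg t]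
  calc C * (1 + |t|) ^ (κ + ε) ≤ |C| * (1 + |t|) ^ (κ + ε) :=
        mul_le_mul_of_nonneg_right (le_abs_self C) (by positivity)
    _ ≤ |C| * (1 + |t|) ^ (κ' + ε) := mul_le_mul_of_nonneg_left
        (Real.rpow_le_rpow_of_exponent_le h1 (by linarith)) (abs_nonneg C)

lemma exponentOn_of {κ : ℝ} (h : Exponent κ) (Λ : Set ℝ) : ExponentOn Λ κ := fun ε hε => by
  obtain ⟨C, hC⟩ := h ε hε
  exact ⟨C, fun t _ => hC t⟩

/-- the large values -/
def UU (ν N : ℝ) : Set ℝ := {x : ℝ | N < x ∧ (x / 2) ^ ν < Z x}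

lemma UU_meas (ν N : ℝ) : MeasurableSet (UU ν N) := by
  have h1 : MeasurableSet {x : ℝ | N < x} := measurableSet_Ioi
  have h2 : MeasurableSet {x : ℝ | (x / 2) ^ ν < Z x} := by
    apply measurableSet_lt
    · fun_prop
    · exact Z_cont.measurable
  exact h1.inter h2

/-- near-maximal values fill half of windows of constant length -/
lemma windows {θ : ℝ} (hθ : Exponent θ) (hmin : ∀ θ' : ℝ, 0 ≤ θ' → Exponent θ' → θ ≤ θ') {δ : ℝ}
    (hδ : 0 < δ) (hδθ : δ ≤ θ) (N : ℝ) :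
    ∀ h : ℝ, 0 < h → h ≤ min (1 / 2) (1 / 2 * δ / (10 * π)) → HalfWindows (UU (θ - δ) N) h := by
  intro h h0 hle T₀
  have hs := Pool.Agent.H983R4.GL.Z.spreadZ (θ := θ) hθ hmin hδ hδθ
    (show (0 : ℝ) < 1 / 2 by norm_num) (by norm_num)
  unfold Pool.Agent.H983R4.GL.Z.SomeZ at hs
  push Not at hs
  obtain ⟨T, hT, hw⟩ := hs (max T₀ (max (N + 1) 1))
  have hT1 : T₀ ≤ T := (le_max_left _ _).trans hT
  have hT2 : N + 1 ≤ T := ((le_max_left _ _).trans (le_max_right _ _)).trans hT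
  have hT3 : 1 ≤ T := ((le_max_right _ _).trans (le_max_right _ _)).trans hT
  have hh1 : h ≤ 1 / 2 := hle.trans (min_le_left _ _)
  have hv := hw h h0 hh1 (hle.trans (min_le_right _ _))
  refine ⟨T, hT1, ?_⟩
  set S : Set ℝ := Pool.Agent.H983R4.GL.Z.Sz (θ - δ) T h with hS
  have hSm : MeasurableSet S := by
    have e : S = Icc (T - h) (T + h) ∩ {x : ℝ | Z x ≤ T ^ (θ - δ)} := by
      ext x
      constructor
      · rintro ⟨h1, h2⟩
        obtain ⟨h3, h4⟩ := abs_le.1 h1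
        exact ⟨⟨by linarith, by linarith⟩, h2⟩
      · rintro ⟨⟨h1, h2⟩, h3⟩
        exact ⟨abs_le.2 ⟨by linarith, by linarith⟩, h3⟩
    rw [e]
    exact measurableSet_Icc.inter (measurableSet_le Z_cont.measurable measurable_const)
  have hsub : Icc (T - h) (T + h) \ S ⊆ UU (θ - δ) N ∩ Icc (T - h) (T + h) := by
    rintro x ⟨⟨h1, h2⟩, h3⟩
    refine ⟨⟨by linarith, ?_⟩, ⟨h1, h2⟩⟩
    have h4 : T ^ (θ - δ) < Z x := by
      by_contra hcon
      push Not at hcon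
      exact h3 ⟨abs_le.2 ⟨by linarith, by linarith⟩, hcon⟩
    refine lt_of_le_of_lt ?_ h4
    exact Real.rpow_le_rpow (by linarith) (by linarith) (by linarith)
  refine le_trans ?_ (measure_mono hsub)
  have hSI : S ⊆ Icc (T - h) (T + h) := by
    rintro x ⟨h1, _⟩
    obtain ⟨h3, h4⟩ := abs_le.1 h1
    exact ⟨by linarith, by linarith⟩
  have hSv : volume S ≤ ENNReal.ofReal h := by
    refine hv.le.trans ?_
    apply ENNReal.ofReal_le_ofReal
    linarith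
  rw [measure_sdiff hSI hSm.nullMeasurableSet (ne_top_of_le_ne_top ENNReal.ofReal_ne_top hSv),
    Real.volume_Icc]
  have e : T + h - (T - h) = 2 * h := by ring
  rw [e]
  calc ENNReal.ofReal h = ENNReal.ofReal (2 * h - h) := by congr 1; ring
    _ = ENNReal.ofReal (2 * h) - ENNReal.ofReal h := ENNReal.ofReal_sub _ h0.le
    _ ≤ _ := tsub_le_tsub_left hSv _

/-- unbounded large values on `Λ` contradict a smaller exponent on `Λ` -/
lemma contra {Λ : Set ℝ} {κ ν : ℝ} (hκ : 0 ≤ κ) (hκν : κ < ν)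
    (h : ∀ N : ℕ, ∃ x ∈ Λ, x ∈ UU ν N) : ¬ ExponentOn Λ κ := by
  intro hE
  set ε : ℝ := (ν - κ) / 2 with hε
  have hε0 : 0 < ε := by rw [hε]; linarith
  obtain ⟨C, hC⟩ := hE ε hε0
  have hlim : Tendsto (fun x : ℝ => x ^ ε) atTop atTop := tendsto_rpow_atTop hε0
  obtain ⟨X, hX⟩ := eventually_atTop.1 (hlim.eventually_ge_atTop
    (|C| * 2 ^ (κ + ε) * 2 ^ ν))
  obtain ⟨N, hN⟩ := exists_nat_ge (max X 1)
  obtain ⟨x, hxΛ, hx1, hx2⟩ := h N
  have hxX : X ≤ x := ((le_max_left _ _).trans hN).trans hx1.le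
  have hx1' : 1 ≤ x := ((le_max_right _ _).trans hN).trans hx1.le
  have hx0 : 0 < x := by linarith
  have h1 := hC x hxΛ
  rw [abs_of_pos hx0] at h1
  have h2 : (1 + x) ^ (κ + ε) ≤ 2 ^ (κ + ε) * x ^ (κ + ε) := by
    rw [← Real.mul_rpow (by norm_num) hx0.le]
    exact Real.rpow_le_rpow (by linarith) (by linarith) (by linarith)
  have h3 : Z x ≤ |C| * 2 ^ (κ + ε) * x ^ (κ + ε) := by
    calc Z x ≤ C * (1 + x) ^ (κ + ε) := h1
      _ ≤ |C| * (1 + x) ^ (κ + ε) := mul_le_mul_of_nonneg_right (le_abs_self C) (by positivity)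
      _ ≤ |C| * (2 ^ (κ + ε) * x ^ (κ + ε)) := mul_le_mul_of_nonneg_left h2 (abs_nonneg C)
      _ = _ := by ring
  have h4 : (x / 2) ^ ν = x ^ ν / 2 ^ ν := Real.div_rpow hx0.le (by norm_num) _
  have h5 : x ^ ν = x ^ (κ + ε) * x ^ ε := by
    rw [← Real.rpow_add hx0]; congr 1; rw [hε]; ring
  have h6 : x ^ (κ + ε) * x ^ ε < |C| * 2 ^ (κ + ε) * x ^ (κ + ε) * 2 ^ ν := by
    have := hx2.trans_le h3
    rw [h4, div_lt_iff₀ (by positivity), h5] at this
    exact this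
  have h7 := hX x hxX
  have h8 : 0 < x ^ (κ + ε) := by positivity
  have h9 : x ^ (κ + ε) * (|C| * 2 ^ (κ + ε) * 2 ^ ν) ≤ x ^ (κ + ε) * x ^ ε :=
    mul_le_mul_of_nonneg_left h7 h8.le
  nlinarith

/-- the least exponent -/
lemma least : ∃ θ : ℝ, 0 ≤ θ ∧ Exponent θ ∧ ∀ θ' : ℝ, 0 ≤ θ' → Exponent θ' → θ ≤ θ' :=
  Pool.Agent.H983R4.GL.Z.leastZ

/-- **almost all dilations** -/
theorem ae_exponent {Λ : Set ℝ} {c : ℝ} (hc : 0 < c) (hΛ : ThickWith c Λ) (β : ℝ) :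
    ∀ᵐ α : ℝ, 0 < α → ∀ κ : ℝ, 0 ≤ κ →
      (ExponentOn {t : ℝ | ∃ l ∈ Λ, t = α * l + β} κ ↔ Exponent κ) := by
  obtain ⟨θ, hθ0, hθ, hmin⟩ := least
  rcases eq_or_lt_of_le hθ0 with h0 | h0
  · refine Eventually.of_forall fun α _ κ hκ => ⟨fun _ => exponent_mono (by linarith) hθ,
      fun h => exponentOn_of h _⟩
  have key : ∀ᵐ α : ℝ, ∀ m N : ℕ, 0 < α → ∃ l ∈ Λ, α * l + β ∈ UU (θ - θ / (m + 1)) N := by
    rw [ae_all_iff]
    intro m
    rw [ae_all_iff]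
    intro N
    have hm : (0 : ℝ) < (m : ℝ) + 1 := by positivity
    have hδ : 0 < θ / ((m : ℝ) + 1) := by positivity
    have hδθ : θ / ((m : ℝ) + 1) ≤ θ := div_le_self hθ0 (by linarith [Nat.cast_nonneg (α := ℝ) m])
    have hh : 0 < min (1 / 2) (1 / 2 * (θ / ((m : ℝ) + 1)) / (10 * π)) := by
      apply lt_min (by norm_num)
      have := Real.pi_pos
      positivity
    exact ae_dilation hc hΛ β (UU_meas _ _) hh (windows hθ hmin hδ hδθ N)
  filter_upwards [key] with α hα hα0 κ hκ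
  refine ⟨fun hE => ?_, fun h => exponentOn_of h _⟩
  by_contra hcon
  have hlt : κ < θ := by
    by_contra h1
    push Not at h1
    exact hcon (exponent_mono h1 hθ)
  obtain ⟨m, hm⟩ := exists_nat_gt (2 * θ / (θ - κ))
  have hd : 0 < θ - κ := by linarith
  have hm1 : (0 : ℝ) < (m : ℝ) + 1 := by positivity
  have h2 : θ / ((m : ℝ) + 1) ≤ (θ - κ) / 2 := by
    rw [div_lt_iff₀ hd] at hm
    rw [div_le_iff₀ hm1]
    nlinarith
  refine contra (ν := θ - θ / (m + 1)) hκ (by linarith) ?_ hE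
  intro N
  obtain ⟨l, hl, hlU⟩ := hα m N hα0
  exact ⟨α * l + β, ⟨l, hl, rfl⟩, hlU⟩

/-- **almost all shifts** of a relatively dense set -/
theorem ae_shift {Λ : Set ℝ} {g x₁ : ℝ} (hΛ : ∀ x : ℝ, x₁ ≤ x → ∃ l ∈ Λ, x ≤ l ∧ l ≤ x + g) {κ : ℝ}
    (hκ : 0 ≤ κ) : Exponent κ ↔ ∀ᵐ β : ℝ, ExponentOn {t : ℝ | ∃ l ∈ Λ, t = l + β} κ := by
  refine ⟨fun h => Eventually.of_forall fun β => exponentOn_of h _, fun hae => ?_⟩
  obtain ⟨θ, hθ0, hθ, hmin⟩ := least
  by_contra hcon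
  have hlt : κ < θ := by
    by_contra h1
    push Not at h1
    exact hcon (exponent_mono h1 hθ)
  set δ : ℝ := (θ - κ) / 2 with hδ
  have hδ0 : 0 < δ := by rw [hδ]; linarith
  have hδθ : δ ≤ θ := by rw [hδ]; linarith
  set h : ℝ := min (1 / 2) (1 / 2 * δ / (10 * π)) with hh
  have hh0 : 0 < h := by
    rw [hh]
    apply lt_min (by norm_num)
    have := Real.pi_pos
    positivity
  have hh1 : h ≤ 1 / 2 := min_le_left _ _
  have hW := fun N : ℝ => windows hθ hmin hδ0 hδθ N h hh0 le_rfl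
  -- the sets of the good shifts
  set I : Set ℝ := Icc (-(g + 1)) 1 with hI
  set A : ℕ → Set ℝ := fun N => {β : ℝ | β ∈ I ∧ ∃ l ∈ Λ, l + β ∈ UU (θ - δ) N} with hA
  have hAvol : ∀ N : ℕ, ENNReal.ofReal h ≤ volume (A N) := by
    intro N
    obtain ⟨T, hT, hv⟩ := hW N x₁
    obtain ⟨l, hl, hl1, hl2⟩ := hΛ T hT
    have e : (fun β : ℝ => β + l) ⁻¹' (UU (θ - δ) N ∩ Icc (T - h) (T + h)) ⊆ A N := by
      rintro β ⟨h1, h2, h3⟩
      dsimp only at h1 h2 h3
      refine ⟨⟨by linarith, by linarith⟩, l, hl, ?_⟩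
      rw [add_comm]
      exact h1
    refine le_trans ?_ (measure_mono e)
    rw [measure_preimage_add_right]
    exact hv
  have hanti : Antitone A := by
    intro N N' hNN β hβ
    obtain ⟨h1, l, hl, h2, h3⟩ := hβ
    refine ⟨h1, l, hl, ?_, h3⟩
    have : (N : ℝ) ≤ N' := by exact_mod_cast hNN
    linarith
  -- the limit superior
  have hAmeas : ∀ N, MeasurableSet (A N) := by
    intro N
    have e : A N = I ∩ ⋃ l ∈ Λ, {β : ℝ | l + β ∈ UU (θ - δ) N} := by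
      ext β
      simp only [hA, mem_inter_iff, mem_iUnion, mem_setOf_eq, exists_prop]
    rw [e]
    refine measurableSet_Icc.inter (IsOpen.measurableSet ?_)
    refine isOpen_biUnion fun l _ => ?_
    have h1 : IsOpen (UU (θ - δ) N) := by
      have hpos : ∀ x : ℝ, (N : ℝ) < x → x ≠ 0 := fun x hx => by
        have : (0 : ℝ) ≤ N := Nat.cast_nonneg N
        linarith
      have e2 : UU (θ - δ) N = Ioi (N : ℝ) ∩ {x : ℝ | (x / 2) ^ (θ - δ) < Z x} := rfl
      rw [e2]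
      have hc : Continuous fun x : ℝ => (x / 2) ^ (θ - δ) := by
        have : 0 ≤ θ - δ := by linarith
        exact (continuous_id.div_const 2).rpow_const fun x => Or.inr this
      exact isOpen_Ioi.inter (isOpen_lt hc Z_cont)
    exact h1.preimage (by fun_prop)
  have hinf : ENNReal.ofReal h ≤ volume (⋂ N, A N) := by
    have hfin : ∃ N, volume (A N) ≠ ⊤ := ⟨0, ne_top_of_le_ne_top (by
      rw [Real.volume_Icc]; exact ENNReal.ofReal_ne_top) (measure_mono (fun β hβ => hβ.1 : A 0 ⊆ I))⟩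
    have hlim := tendsto_measure_iInter_atTop (fun N => (hAmeas N).nullMeasurableSet) hanti hfin
    exact ge_of_tendsto' hlim hAvol
  have hzero : volume (⋂ N, A N) = 0 := by
    refine measure_mono_null ?_ (ae_iff.1 hae)
    intro β hβ
    rw [mem_iInter] at hβ
    refine contra (ν := θ - δ) hκ (by rw [hδ]; linarith) ?_
    intro N
    obtain ⟨_, l, hl, h2⟩ := hβ N
    exact ⟨l + β, ⟨l, hl, rfl⟩, h2⟩
  rw [hzero] at hinf
  have := ENNReal.ofReal_pos.2 hh0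
  exact absurd hinf (not_le.2 this)

end Pool.Agent.R306
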