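import Pool.Agent.R306.Dil

/-!
Examples of thick sets: relatively dense sets and sets of integers of positive natural density.
-/

set_option autoImplicit false

open MeasureTheory Filter Topology Set

namespace Pool.Agent.R306

/-- relatively dense sets are thick -/
theorem thick_of_dense {Λ : Set ℝ} {g x₁ : ℝ} (hg : 0 ≤ g)
    (hΛ : ∀ x : ℝ, x₁ ≤ x → ∃ l ∈ Λ, x ≤ l ∧ l ≤ x + g) : ThickWith (1 / (2 * (g + 1))) Λ := by
  intro s hs
  have hg1 : 0 < g + 1 := by linarith
  refine ⟨max (max x₁ 0) (2 * (g + 1) / s), fun x hx => ?_⟩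
  have hx1 : x₁ ≤ x := ((le_max_left _ _).trans (le_max_left _ _)).trans hx
  have hx0 : 0 ≤ x := ((le_max_right _ _).trans (le_max_left _ _)).trans hx
  have hx2 : 2 * (g + 1) / s ≤ x := (le_max_right _ _).trans hx
  rw [div_le_iff₀ hs] at hx2
  set K : ℕ := ⌊s * x / (g + 1)⌋₊ with hK
  have hKle : (K : ℝ) ≤ s * x / (g + 1) := Nat.floor_le (by positivity)
  have hKlt : s * x / (g + 1) < K + 1 := Nat.lt_floor_add_one _
  have hex : ∀ k : ℕ, ∃ l ∈ Λ, x + k * (g + 1) ≤ l ∧ l ≤ x + k * (g + 1) + g := fun k =>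
    hΛ _ (hx1.trans (by
      have : 0 ≤ (k : ℝ) * (g + 1) := by positivity
      linarith))
  choose f hfΛ hf1 hf2 using hex
  have hfgap : ∀ j k : ℕ, j < k → 1 ≤ f k - f j := by
    intro j k hjk
    have h1 : (j : ℝ) + 1 ≤ k := by exact_mod_cast hjk
    have h2 : ((j : ℝ) + 1) * (g + 1) ≤ k * (g + 1) := mul_le_mul_of_nonneg_right h1 hg1.le
    have := hf1 k
    have := hf2 j
    linarith
  have hinj : Function.Injective f := by
    intro j k h
    rcases lt_trichotomy j k with h1 | h1 | h1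
    · have := hfgap j k h1
      rw [h] at this
      linarith
    · exact h1
    · have := hfgap k j h1
      rw [h] at this
      linarith
  classical
  refine ⟨(Finset.range K).image f, ?_, ?_, ?_⟩
  · intro l hl
    rw [Finset.mem_image] at hl
    obtain ⟨k, hk, rfl⟩ := hl
    rw [Finset.mem_range] at hk
    have hk0 : 0 ≤ (k : ℝ) * (g + 1) := by positivity
    refine ⟨hfΛ k, by linarith [hf1 k], ?_⟩
    have h1 : (k : ℝ) + 1 ≤ K := by exact_mod_cast hk
    have h2 : ((k : ℝ) + 1) * (g + 1) ≤ K * (g + 1) := mul_le_mul_of_nonneg_right h1 hg1.le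
    have h3 : (K : ℝ) * (g + 1) ≤ s * x := by rwa [le_div_iff₀ hg1] at hKle
    have := hf2 k
    linarith
  · intro l hl l' hl' hne
    rw [Finset.mem_image] at hl hl'
    obtain ⟨k, _, rfl⟩ := hl
    obtain ⟨j, _, rfl⟩ := hl'
    rcases lt_trichotomy j k with h1 | h1 | h1
    · have := hfgap j k h1
      exact this.trans (le_abs_self _)
    · exact absurd (by rw [h1]) hne
    · have := hfgap k j h1
      rw [abs_sub_comm]
      exact this.trans (le_abs_self _)
  · rw [Finset.card_image_of_injective _ hinj, Finset.card_range]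
    rw [div_lt_iff₀ hg1] at hKlt
    have e : 1 / (2 * (g + 1)) * s * x = s * x / (2 * (g + 1)) := by ring
    rw [e, div_le_iff₀ (by positivity)]
    nlinarith

/-- sets of integers of positive natural density are thick -/
theorem thick_of_density {A : Set ℕ} [DecidablePred (· ∈ A)] {d : ℝ} (hd : 0 < d)
    (hA : Tendsto (fun n : ℕ => (((Finset.range n).filter (· ∈ A)).card : ℝ) / n) atTop (𝓝 d)) :
    ThickWith (d / 2) ((fun n : ℕ => (n : ℝ)) '' A) := by
  classical
  intro s hs
  set e : ℝ := d * s / (8 * (1 + s)) with he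
  have he0 : 0 < e := by positivity
  have hev : ∀ᶠ n : ℕ in atTop, |(((Finset.range n).filter (· ∈ A)).card : ℝ) / n - d| < e := by
    have := Metric.tendsto_nhds.1 hA e he0
    simpa [Real.dist_eq] using this
  obtain ⟨n₀, hn₀⟩ := eventually_atTop.1 hev
  set a : ℕ → ℝ := fun n => (((Finset.range n).filter (· ∈ A)).card : ℝ) with ha
  have hbd : ∀ n : ℕ, n₀ ≤ n → 1 ≤ n → |a n - d * n| ≤ e * n := by
    intro n hn hn1
    have hn0 : (0 : ℝ) < n := by exact_mod_cast hn1
    have h1 := (hn₀ n hn).le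
    have h2 : a n - d * n = (a n / n - d) * n := by field_simp
    rw [h2, abs_mul, abs_of_pos hn0]
    exact mul_le_mul_of_nonneg_right h1 hn0.le
  refine ⟨max (max n₀ 1) (16 * (1 + s) * (d + e) / (d * s)), fun x hx => ?_⟩
  have hx1 : (n₀ : ℝ) ≤ x := ((le_max_left _ _).trans (le_max_left _ _)).trans hx
  have hx0 : 1 ≤ x := ((le_max_right _ _).trans (le_max_left _ _)).trans hx
  have hx2 : 16 * (1 + s) * (d + e) / (d * s) ≤ x := (le_max_right _ _).trans hx
  rw [div_le_iff₀ (by positivity)] at hx2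
  set p : ℕ := ⌈x⌉₊ with hp
  set q : ℕ := ⌊(1 + s) * x⌋₊ + 1 with hq
  have hpx : x ≤ p := Nat.le_ceil x
  have hpx1 : (p : ℝ) < x + 1 := Nat.ceil_lt_add_one (by linarith)
  have hqx : (1 + s) * x < q := by
    rw [hq]; push_cast; exact Nat.lt_floor_add_one _
  have hqx1 : (q : ℝ) ≤ (1 + s) * x + 1 := by
    rw [hq]; push_cast
    have := Nat.floor_le (show 0 ≤ (1 + s) * x by positivity)
    linarith
  have hpn : n₀ ≤ p := by
    have : (n₀ : ℝ) ≤ p := hx1.trans hpx
    exact_mod_cast this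
  have hp1 : 1 ≤ p := by
    have : (1 : ℝ) ≤ p := hx0.trans hpx
    exact_mod_cast this
  have hqn : n₀ ≤ q := by
    have : (n₀ : ℝ) ≤ q := by nlinarith
    exact_mod_cast this
  have hq1 : 1 ≤ q := by rw [hq]; omega
  set S : Finset ℕ := (Finset.Ico p q).filter (· ∈ A) with hS
  have hcard : a q - a p ≤ (S.card : ℝ) := by
    have h1 : (Finset.range q).filter (· ∈ A) ⊆ (Finset.range p).filter (· ∈ A) ∪ S := by
      intro n hn
      rw [Finset.mem_filter, Finset.mem_range] at hn
      rw [Finset.mem_union, Finset.mem_filter, hS, Finset.mem_filter, Finset.mem_range,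
        Finset.mem_Ico]
      rcases lt_or_ge n p with h2 | h2
      · exact Or.inl ⟨h2, hn.2⟩
      · exact Or.inr ⟨⟨h2, hn.1⟩, hn.2⟩
    have h2 := (Finset.card_le_card h1).trans (Finset.card_union_le _ _)
    have h3 : (((Finset.range q).filter (· ∈ A)).card : ℝ) ≤
        (((Finset.range p).filter (· ∈ A)).card : ℝ) + S.card := by exact_mod_cast h2
    change (((Finset.range q).filter (· ∈ A)).card : ℝ) -
        (((Finset.range p).filter (· ∈ A)).card : ℝ) ≤ _
    linarith
  refine ⟨S.image (fun n : ℕ => (n : ℝ)), ?_, ?_, ?_⟩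
  · intro l hl
    rw [Finset.mem_image] at hl
    obtain ⟨n, hn, rfl⟩ := hl
    rw [hS, Finset.mem_filter, Finset.mem_Ico] at hn
    refine ⟨⟨n, hn.2, rfl⟩, ?_, ?_⟩
    · have : (p : ℝ) ≤ n := by exact_mod_cast hn.1.1
      linarith
    · have h1 : n ≤ ⌊(1 + s) * x⌋₊ := by have := hn.1.2; rw [hq] at this; omega
      exact (Nat.le_floor_iff (by positivity)).1 h1
  · intro l hl l' hl' hne
    rw [Finset.mem_image] at hl hl'
    obtain ⟨m, _, rfl⟩ := hl
    obtain ⟨n, _, rfl⟩ := hl'
    have hmn : (m : ℤ) - n ≠ 0 := by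
      intro h
      apply hne
      have : (m : ℤ) = n := by linarith
      exact_mod_cast this
    have h1 : (1 : ℤ) ≤ |(m : ℤ) - n| := Int.one_le_abs hmn
    exact_mod_cast h1
  · rw [Finset.card_image_of_injective _ Nat.cast_injective]
    refine le_trans ?_ hcard
    have h1 := (abs_le.1 (hbd q hqn hq1)).1
    have h2 := (abs_le.1 (hbd p hpn hp1)).2
    -- lower bound for `a q - a p`
    have h3 : e * q ≤ e * ((1 + s) * x + 1) := mul_le_mul_of_nonneg_left hqx1 he0.le
    have h4 : e * p ≤ e * (x + 1) := mul_le_mul_of_nonneg_left hpx1.le he0.le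
    have h5 : d * ((1 + s) * x) ≤ d * q := mul_le_mul_of_nonneg_left hqx.le hd.le
    have h6 : d * p ≤ d * (x + 1) := mul_le_mul_of_nonneg_left hpx1.le hd.le
    have h7 : e * (1 + s) = d * s / 8 := by rw [he]; field_simp
    have h8 : e ≤ d * s / 8 := by
      rw [← h7]; nlinarith
    have h9 : 16 * (d + e) ≤ x * (d * s) := by
      refine le_trans ?_ hx2
      have : 0 < d + e := by positivity
      nlinarith
    have h10 : e * ((1 + s) * x) = d * s / 8 * x := by rw [← mul_assoc, h7]
    have h11 : e * x ≤ d * s / 8 * x := mul_le_mul_of_nonneg_right h8 (by linarith)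
    nlinarith

end Pool.Agent.R306
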