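import Mathlib

/-!
The excess sets of a counting function minus a smooth main term lie in the closure of their interior.
-/

set_option autoImplicit false

open Filter Topology Set

namespace Pool.Agent.R306.Win

/-- large positive values of the error term persist to the right -/
lemma up {F M φ : ℝ → ℝ} (hF : MonotoneOn F (Ioi 0)) (hM : ContinuousOn M (Ioi 0))
    (hφ : ContinuousOn φ (Ioi 0)) :
    {t : ℝ | 0 < t ∧ φ t < F t - M t} ⊆ closure (interior {t : ℝ | 0 < t ∧ φ t < F t - M t}) := by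
  rintro t ⟨ht0, ht⟩
  have hc : ContinuousAt (fun s => F t - M s - φ s) t :=
    (continuousAt_const.sub (hM.continuousAt (Ioi_mem_nhds ht0))).sub
      (hφ.continuousAt (Ioi_mem_nhds ht0))
  have hev : ∀ᶠ s in 𝓝 t, 0 < F t - M s - φ s :=
    hc.eventually (lt_mem_nhds (by linarith))
  obtain ⟨r, hr, hball⟩ := Metric.eventually_nhds_iff_ball.1 hev
  have hsub : Ioo t (t + r) ⊆ interior {t : ℝ | 0 < t ∧ φ t < F t - M t} := by
    rw [← isOpen_Ioo.interior_eq]
    apply interior_mono
    intro s hs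
    have h1 := hball s (by rw [Metric.mem_ball, Real.dist_eq, abs_of_pos (by linarith [hs.1])]; linarith [hs.2])
    have h2 := hF (show t ∈ Ioi (0:ℝ) from ht0) (show s ∈ Ioi (0:ℝ) from lt_trans ht0 hs.1) hs.1.le
    exact ⟨lt_trans ht0 hs.1, by linarith⟩
  have h3 : t ∈ closure (Ioo t (t + r)) := by
    rw [closure_Ioo (by linarith)]
    exact ⟨le_rfl, by linarith⟩
  exact closure_mono hsub h3

/-- large negative values of the error term persist to the left -/
lemma down {F M φ : ℝ → ℝ} (hF : MonotoneOn F (Ioi 0)) (hM : ContinuousOn M (Ioi 0))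
    (hφ : ContinuousOn φ (Ioi 0)) :
    {t : ℝ | 0 < t ∧ F t - M t < φ t} ⊆ closure (interior {t : ℝ | 0 < t ∧ F t - M t < φ t}) := by
  rintro t ⟨ht0, ht⟩
  have hc : ContinuousAt (fun s => φ s - (F t - M s)) t :=
    (hφ.continuousAt (Ioi_mem_nhds ht0)).sub
      (continuousAt_const.sub (hM.continuousAt (Ioi_mem_nhds ht0)))
  have hev : ∀ᶠ s in 𝓝 t, 0 < φ s - (F t - M s) :=
    hc.eventually (lt_mem_nhds (by linarith))
  obtain ⟨r, hr, hball⟩ := Metric.eventually_nhds_iff_ball.1 hev
  have hsub : Ioo (max (t - r) 0) t ⊆ interior {t : ℝ | 0 < t ∧ F t - M t < φ t} := by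
    rw [← isOpen_Ioo.interior_eq]
    apply interior_mono
    intro s hs
    have hs0 : 0 < s := lt_of_le_of_lt (le_max_right _ _) hs.1
    have hs1 : t - r < s := lt_of_le_of_lt (le_max_left _ _) hs.1
    have h1 := hball s (by
      rw [Metric.mem_ball, Real.dist_eq, abs_sub_comm, abs_of_pos (by linarith [hs.2])]; linarith)
    have h2 := hF (show s ∈ Ioi (0:ℝ) from hs0) (show t ∈ Ioi (0:ℝ) from ht0) hs.2.le
    exact ⟨hs0, by linarith⟩
  have h3 : t ∈ closure (Ioo (max (t - r) 0) t) := by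
    rw [closure_Ioo (max_lt (by linarith) ht0).ne]
    exact ⟨(max_lt (by linarith) ht0).le, le_rfl⟩
  exact closure_mono hsub h3

/-- both kinds together -/
lemma both {F M φ : ℝ → ℝ} (hF : MonotoneOn F (Ioi 0)) (hM : ContinuousOn M (Ioi 0))
    (hφ : ContinuousOn φ (Ioi 0)) :
    {t : ℝ | 0 < t ∧ φ t < |F t - M t|} ⊆
      closure (interior {t : ℝ | 0 < t ∧ φ t < |F t - M t|}) := by
  have e : {t : ℝ | 0 < t ∧ φ t < |F t - M t|} = {t : ℝ | 0 < t ∧ φ t < F t - M t} ∪
      {t : ℝ | 0 < t ∧ F t - M t < -φ t} := by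
    ext t
    simp only [mem_setOf_eq, mem_union, lt_abs]
    constructor
    · rintro ⟨h0, h | h⟩
      · exact Or.inl ⟨h0, h⟩
      · exact Or.inr ⟨h0, by linarith⟩
    · rintro (⟨h0, h⟩ | ⟨h0, h⟩)
      · exact ⟨h0, Or.inl h⟩
      · exact ⟨h0, Or.inr (by linarith)⟩
  rw [e]
  refine union_subset ?_ ?_
  · exact (up hF hM hφ).trans (closure_mono (interior_mono subset_union_left))
  · exact (down hF hM hφ.neg).trans (closure_mono (interior_mono subset_union_right))

end Pool.Agent.R306.Win
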